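import Pool.Agent.Lib.MP_2d1e68_al.Asym

/-!
# Amalgamated free products over amenable subgroups
-/

open Finset Filter

noncomputable section

namespace SoficAct

/-- Subgroups of sofic groups are sofic. -/
theorem sofic_group_of_injective {G K : Type} [Group G] [Group K] (f : K →* G)
    (hf : Function.Injective f) (hG : IsSoficGroup G) : IsSoficGroup K := by
  classical
  intro F ε hε
  obtain ⟨A, iA, hA, φ, h1, h2, h3⟩ := hG (F.image f) ε hε
  refine ⟨A, iA, hA, fun k => φ (f k), ?_, ?_, ?_⟩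
  · change φ (f 1) = 1
    rw [map_one]
    exact h1
  · intro g hg h hh
    have := h2 _ (mem_image_of_mem f hg) _ (mem_image_of_mem f hh)
    rw [← map_mul] at this
    exact this
  · intro g hg hg1
    exact h3 _ (mem_image_of_mem f hg) (fun h => hg1 (hf (by rw [h, map_one])))

/-- Products of sofic groups are sofic. -/
theorem sofic_group_prod {G K : Type} [Group G] [Group K] (hG : IsSoficGroup G)
    (hK : IsSoficGroup K) : IsSoficGroup (G × K) := by
  classical
  intro F ε hε
  obtain ⟨A, iA, hA, φ, h1, h2, h3⟩ := hG (F.image Prod.fst) (ε / 2) (by linarith)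
  obtain ⟨B, iB, hB, ψ, k1, k2, k3⟩ := hK (F.image Prod.snd) (ε / 2) (by linarith)
  refine ⟨A × B, inferInstance, inferInstance, fun k => Equiv.prodCongr (φ k.1) (ψ k.2), ?_, ?_, ?_⟩
  · change Equiv.prodCongr (φ 1) (ψ 1) = 1
    rw [h1, k1]
    rfl
  · intro g hg h hh
    have e1 := h2 _ (mem_image_of_mem Prod.fst hg) _ (mem_image_of_mem Prod.fst hh)
    have e2 := k2 _ (mem_image_of_mem Prod.snd hg) _ (mem_image_of_mem Prod.snd hh)
    unfold hamming at e1 e2 ⊢
    rw [← frac_fst (C := B)] at e1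
    rw [← frac_snd (A := A)] at e2
    refine (frac_mono (Q := fun p : A × B => φ (g.1 * h.1) p.1 ≠ (φ g.1 * φ h.1) p.1 ∨
      ψ (g.2 * h.2) p.2 ≠ (ψ g.2 * ψ h.2) p.2) ?_).trans_lt ((frac_or _ _).trans_lt (by linarith))
    rintro ⟨a, b⟩ hab
    by_contra hcon
    push Not at hcon
    exact hab (Prod.ext hcon.1 hcon.2)
  · rintro ⟨g, k⟩ hg hne
    by_cases hg1 : g = 1
    · have hk1 : k ≠ 1 := fun h => hne (Prod.ext hg1 h)
      have e2 := k3 _ (mem_image_of_mem Prod.snd hg) hk1
      unfold hamming at e2 ⊢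
      rw [← frac_snd (A := A)] at e2
      refine lt_of_lt_of_le (by linarith : (1 : ℝ) - ε < 1 - ε / 2) (e2.le.trans (frac_mono ?_))
      rintro ⟨a, b⟩ hab hcon
      exact hab (congrArg Prod.snd hcon)
    · have e1 := h3 _ (mem_image_of_mem Prod.fst hg) hg1
      unfold hamming at e1 ⊢
      rw [← frac_fst (C := B)] at e1
      refine lt_of_lt_of_le (by linarith : (1 : ℝ) - ε < 1 - ε / 2) (e1.le.trans (frac_mono ?_))
      rintro ⟨a, b⟩ hab hcon
      exact hab (congrArg Prod.fst hcon)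

/-- The disjoint union of two sofic actions is sofic. -/
theorem sofic_sum {H X Y : Type} [Group H] (α : H →* Equiv.Perm X) (β : H →* Equiv.Perm Y)
    (γ : H →* Equiv.Perm (X ⊕ Y)) (hγl : ∀ h x, γ h (Sum.inl x) = Sum.inl (α h x))
    (hγr : ∀ h y, γ h (Sum.inr y) = Sum.inr (β h y))
    (h1 : IsSoficAction α) (h2 : IsSoficAction β) : IsSoficAction γ := by
  classical
  apply sofic_of_good
  intro F E ε hε
  obtain ⟨A₁, B₁, iA₁, hA₁, iB₁, φ₁, π₁, hg₁⟩ := good_of_sofic α h1 F
    (E.preimage Sum.inl Sum.inl_injective.injOn) (ε / 2) (by linarith)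
  obtain ⟨A₂, B₂, iA₂, hA₂, iB₂, φ₂, π₂, hg₂⟩ := good_of_sofic β h2 F
    (E.preimage Sum.inr Sum.inr_injective.injOn) (ε / 2) (by linarith)
  refine ⟨A₁ × A₂, B₁ ⊕ B₂, inferInstance, inferInstance, inferInstance,
    fun h => Equiv.prodCongr (φ₁ h) (φ₂ h), fun a p => Sum.map (π₁ a.1) (π₂ a.2) p,
    ?_, ?_, ?_, ?_⟩
  · change Equiv.prodCongr (φ₁ 1) (φ₂ 1) = 1
    rw [hg₁.one, hg₂.one]
    rfl
  · intro g hg h hh
    have e1 := hg₁.mul g hg h hh
    have e2 := hg₂.mul g hg h hh
    rw [← frac_fst (C := A₂)] at e1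
    rw [← frac_snd (A := A₁)] at e2
    refine (frac_mono (Q := fun p : A₁ × A₂ => φ₁ (g * h) p.1 ≠ φ₁ g (φ₁ h p.1) ∨
      φ₂ (g * h) p.2 ≠ φ₂ g (φ₂ h p.2)) ?_).trans ((frac_or _ _).trans (by linarith))
    rintro ⟨a, b⟩ hab
    by_contra hcon
    push Not at hcon
    exact hab (Prod.ext hcon.1 hcon.2)
  · rintro (x | x) hp (y | y) hq hne
    · have e1 := hg₁.inj x (mem_preimage.2 hp) y (mem_preimage.2 hq) (fun h => hne (by rw [h]))
      rw [← frac_fst (C := A₂)] at e1
      exact (frac_mono (fun a ha => Sum.inl_injective ha)).trans (e1.trans (by linarith))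
    · rw [frac_false]
      · exact hε.le
      · intro a ha
        simp at ha
    · rw [frac_false]
      · exact hε.le
      · intro a ha
        simp at ha
    · have e2 := hg₂.inj x (mem_preimage.2 hp) y (mem_preimage.2 hq) (fun h => hne (by rw [h]))
      rw [← frac_snd (A := A₁)] at e2
      exact (frac_mono (fun a ha => Sum.inr_injective ha)).trans (e2.trans (by linarith))
  · rintro g hg (x | x) hp
    · have e1 := hg₁.equi g hg x (mem_preimage.2 hp)
      rw [← frac_fst (C := A₂)] at e1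
      refine (frac_mono ?_).trans (e1.trans (by linarith))
      intro a ha hcon
      apply ha
      rw [hγl]
      exact congrArg Sum.inl hcon
    · have e2 := hg₂.equi g hg x (mem_preimage.2 hp)
      rw [← frac_snd (A := A₁)] at e2
      refine (frac_mono ?_).trans (e2.trans (by linarith))
      intro a ha hcon
      apply ha
      rw [hγr]
      exact congrArg Sum.inr hcon

/-- Amenability passes through isomorphisms. -/
lemma IsAmenable.congr {K K' : Type} [Group K] [Group K'] (e : K ≃* K') (hK : IsAmenable K) :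
    IsAmenable K' := by
  classical
  intro F ε hε
  obtain ⟨D, hD, h⟩ := hK (F.image e.symm) ε hε
  refine ⟨D.image e, hD.image _, ?_⟩
  intro g hg
  rw [card_image_of_injective _ e.injective]
  refine le_trans (le_of_eq ?_) (h (e.symm g) (mem_image_of_mem _ hg))
  congr 1
  symm
  apply Set.ncard_congr (fun k _ => e k)
  · rintro k ⟨h1, h2⟩
    refine ⟨mem_image_of_mem _ h1, ?_⟩
    rw [mem_image]
    rintro ⟨k', hk', h3⟩
    apply h2
    have : k' = e.symm g * k := by
      apply e.injective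
      rw [h3, map_mul, e.apply_symm_apply]
    rw [← this]
    exact hk'
  · intro a b _ _ h
    exact e.injective h
  · rintro b ⟨h1, h2⟩
    obtain ⟨k, hk, rfl⟩ := mem_image.1 h1
    refine ⟨k, ⟨hk, ?_⟩, rfl⟩
    intro h3
    apply h2
    rw [mem_image]
    exact ⟨_, h3, by rw [map_mul, e.apply_symm_apply]⟩

/-- The factors embed into an amalgam. -/
theorem IsAmalgam.injective {C G₁ G₂ P : Type} [Group C] [Group G₁] [Group G₂] [Group P]
    {i₁ : C →* G₁} {i₂ : C →* G₂} {j₁ : G₁ →* P} {j₂ : G₂ →* P} (hP : IsAmalgam i₁ i₂ j₁ j₂)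
    (hi₁ : Function.Injective i₁) (hi₂ : Function.Injective i₂) :
    Function.Injective j₁ ∧ Function.Injective j₂ := by
  classical
  set κ₁ : C →* G₁ × G₂ := (MonoidHom.inl G₁ G₂).comp i₁ with hκ₁
  set κ₂ : C →* G₁ × G₂ := (MonoidHom.inr G₁ G₂).comp i₂ with hκ₂
  have hκ₁i : Function.Injective κ₁ := by
    intro a b h
    exact hi₁ (congrArg Prod.fst h)
  have hκ₂i : Function.Injective κ₂ := by
    intro a b h
    exact hi₂ (congrArg Prod.snd h)
  set φ : κ₁.range ≃* κ₂.range :=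
    (MonoidHom.ofInjective hκ₁i).symm.trans (MonoidHom.ofInjective hκ₂i) with hφ
  have hφc : ∀ c : C, φ (MonoidHom.ofInjective hκ₁i c) = MonoidHom.ofInjective hκ₂i c := by
    intro c
    rw [hφ, MulEquiv.trans_apply, MulEquiv.symm_apply_apply]
  obtain ⟨ι, hι₁, hι₂⟩ := hP.desc (HNNExtension (G₁ × G₂) κ₁.range κ₂.range φ)
    (((MulAut.conj HNNExtension.t).toMonoidHom.comp HNNExtension.of).comp (MonoidHom.inl G₁ G₂))
    (HNNExtension.of.comp (MonoidHom.inr G₁ G₂)) (by
      ext1 c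
      have h3 := HNNExtension.equiv_eq_conj (φ := φ) (MonoidHom.ofInjective hκ₁i c)
      rw [hφc] at h3
      exact h3.symm)
  constructor
  · intro a b hab
    have h1 : ι (j₁ a) = ι (j₁ b) := by rw [hab]
    rw [← MonoidHom.comp_apply, ← MonoidHom.comp_apply, hι₁] at h1
    exact congrArg Prod.fst (HNNExtension.of_injective φ ((MulAut.conj HNNExtension.t).injective h1))
  · intro a b hab
    have h1 : ι (j₂ a) = ι (j₂ b) := by rw [hab]
    rw [← MonoidHom.comp_apply, ← MonoidHom.comp_apply, hι₂] at h1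
    exact congrArg Prod.snd (HNNExtension.of_injective φ h1)

/-- `Sym(X) × Sym(X) → Sym(X ⊔ X)`. -/
def sumHom (X : Type) : Equiv.Perm X × Equiv.Perm X →* Equiv.Perm (X ⊕ X) where
  toFun p := Equiv.sumCongr p.1 p.2
  map_one' := by
    apply Equiv.ext
    rintro (x | x) <;> rfl
  map_mul' p q := by
    apply Equiv.ext
    rintro (x | x) <;> rfl

/-- **Amalgams over amenable subgroups.** Let `C` be an amenable common subgroup of the sofic
groups `G₁` and `G₂`.  An action of `G₁ *_C G₂` is sofic if its restrictions to `G₁` and `G₂` are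
sofic. -/
theorem sofic_of_amalgam {C G₁ G₂ P X : Type} [Group C] [Group G₁] [Group G₂] [Group P]
    (i₁ : C →* G₁) (i₂ : C →* G₂) (j₁ : G₁ →* P) (j₂ : G₂ →* P) (hP : IsAmalgam i₁ i₂ j₁ j₂)
    (hi₁ : Function.Injective i₁) (hi₂ : Function.Injective i₂) (hC : IsAmenable C)
    (hG₁ : IsSoficGroup G₁) (hG₂ : IsSoficGroup G₂) (α : P →* Equiv.Perm X)
    (h1 : IsSoficAction (α.comp j₁)) (h2 : IsSoficAction (α.comp j₂)) : IsSoficAction α := by
  classical
  -- the two copies of `C` in `G₁ × G₂`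
  set κ₁ : C →* G₁ × G₂ := (MonoidHom.inl G₁ G₂).comp i₁ with hκ₁
  set κ₂ : C →* G₁ × G₂ := (MonoidHom.inr G₁ G₂).comp i₂ with hκ₂
  have hκ₁i : Function.Injective κ₁ := by
    intro a b h
    exact hi₁ (congrArg Prod.fst h)
  have hκ₂i : Function.Injective κ₂ := by
    intro a b h
    exact hi₂ (congrArg Prod.snd h)
  set φ : κ₁.range ≃* κ₂.range :=
    (MonoidHom.ofInjective hκ₁i).symm.trans (MonoidHom.ofInjective hκ₂i) with hφ
  have hφc : ∀ c : C, φ (MonoidHom.ofInjective hκ₁i c) = MonoidHom.ofInjective hκ₂i c := by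
    intro c
    rw [hφ, MulEquiv.trans_apply, MulEquiv.symm_apply_apply]
  have hA : IsAmenable κ₁.range := hC.congr (MonoidHom.ofInjective hκ₁i)
  -- the action of `G₁ × G₂` on `X ⊔ X`
  set f₀ : G₁ × G₂ →* Equiv.Perm (X ⊕ X) :=
    (sumHom X).comp ((α.comp j₁).prodMap (α.comp j₂)) with hf₀
  have hf₀app : ∀ g : G₁ × G₂, f₀ g = Equiv.sumCongr (α (j₁ g.1)) (α (j₂ g.2)) := fun g => rfl
  have hf₀s : IsSoficAction f₀ := by
    refine sofic_sum ((α.comp j₁).comp (MonoidHom.fst G₁ G₂))
      ((α.comp j₂).comp (MonoidHom.snd G₁ G₂)) f₀ (fun h x => rfl) (fun h x => rfl) ?_ ?_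
    · exact sofic_pullback (α.comp j₁) _ (MonoidHom.fst G₁ G₂) id Function.injective_id
        (fun k y => rfl) h1
    · exact sofic_pullback (α.comp j₂) _ (MonoidHom.snd G₁ G₂) id Function.injective_id
        (fun k y => rfl) h2
  have hrel : ∀ a : κ₁.range, (Equiv.sumComm X X : Equiv.Perm (X ⊕ X)) * f₀ (a : G₁ × G₂) =
      f₀ (φ a : G₁ × G₂) * (Equiv.sumComm X X : Equiv.Perm (X ⊕ X)) := by
    intro a
    obtain ⟨c, rfl⟩ := (MonoidHom.ofInjective hκ₁i).surjective a
    rw [hφc]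
    have e1 : ((MonoidHom.ofInjective hκ₁i c : κ₁.range) : G₁ × G₂) = (i₁ c, 1) := rfl
    have e2 : ((MonoidHom.ofInjective hκ₂i c : κ₂.range) : G₁ × G₂) = (1, i₂ c) := rfl
    rw [e1, e2, hf₀app, hf₀app]
    have e3 : j₁ (i₁ c) = j₂ (i₂ c) := DFunLike.congr_fun hP.comm c
    apply Equiv.ext
    rintro (x | x)
    · change Sum.inr (α (j₁ (i₁ c)) x) = Sum.inr (α (j₂ (i₂ c)) x)
      rw [e3]
    · change Sum.inl (α (j₂ 1) x) = Sum.inl (α (j₁ 1) x)
      rw [map_one, map_one, map_one, map_one]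
  set β : HNNExtension (G₁ × G₂) κ₁.range κ₂.range φ →* Equiv.Perm (X ⊕ X) :=
    HNNExtension.lift f₀ (Equiv.sumComm X X : Equiv.Perm (X ⊕ X)) hrel with hβ
  have hβof : β.comp HNNExtension.of = f₀ := by
    ext1 g
    rw [MonoidHom.comp_apply, hβ, HNNExtension.lift_of]
  have hβs : IsSoficAction β := by
    apply sofic_of_hnn β (sofic_group_prod hG₁ hG₂) hA
    rw [hβof]
    exact hf₀s
  -- the embedding of the amalgam
  obtain ⟨ι, hι₁, hι₂⟩ := hP.desc (HNNExtension (G₁ × G₂) κ₁.range κ₂.range φ)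
    (((MulAut.conj HNNExtension.t).toMonoidHom.comp HNNExtension.of).comp (MonoidHom.inl G₁ G₂))
    (HNNExtension.of.comp (MonoidHom.inr G₁ G₂)) (by
      ext1 c
      have h3 := HNNExtension.equiv_eq_conj (φ := φ) (MonoidHom.ofInjective hκ₁i c)
      rw [hφc] at h3
      exact h3.symm)
  have hkey : β.comp ι = ((sumHom X).comp (MonoidHom.inr (Equiv.Perm X) (Equiv.Perm X))).comp α := by
    apply hP.uniq
    · rw [MonoidHom.comp_assoc, hι₁]
      ext1 g
      change β (HNNExtension.t * HNNExtension.of (g, 1) * HNNExtension.t⁻¹) = _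
      rw [map_mul, map_mul, map_inv, hβ, HNNExtension.lift_t, HNNExtension.lift_of, hf₀app]
      apply Equiv.ext
      rintro (x | x)
      · change Sum.inl (α (j₂ 1) x) = Sum.inl x
        rw [map_one, map_one]
        rfl
      · rfl
    · rw [MonoidHom.comp_assoc, hι₂]
      ext1 g
      change β (HNNExtension.of (1, g)) = _
      rw [hβ, HNNExtension.lift_of, hf₀app]
      apply Equiv.ext
      rintro (x | x)
      · change Sum.inl (α (j₁ 1) x) = Sum.inl x
        rw [map_one, map_one]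
        rfl
      · rfl
  refine sofic_pullback β α ι Sum.inr Sum.inr_injective ?_ hβs
  intro k x
  have := DFunLike.congr_fun (DFunLike.congr_fun hkey k) (Sum.inr x)
  exact this.symm

end SoficAct
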