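import Pool.Agent.Lib.MP_2d1e68_al.Tile

/-!
# Asymptotic homomorphisms and HNN extensions
-/

open Finset Filter

noncomputable section

namespace SoficAct

section Asym

variable {I : Type} (l : Filter I) (V : I → Type) [∀ i, Fintype (V i)]

/-- The sequences of permutations that are asymptotically trivial. -/
def asymTriv : Subgroup (∀ i, Equiv.Perm (V i)) where
  carrier := {σ | ∀ ε : ℝ, 0 < ε → ∀ᶠ i in l, frac (fun v => σ i v ≠ v) ≤ ε}
  mul_mem' := by
    intro σ τ hσ hτ ε hε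
    filter_upwards [hσ (ε / 2) (by linarith), hτ (ε / 2) (by linarith)] with i h1 h2
    rw [← frac_perm _ (τ i)] at h1
    refine (frac_mono (Q := fun v => σ i (τ i v) ≠ τ i v ∨ τ i v ≠ v) ?_).trans
      ((frac_or _ _).trans (by linarith))
    intro v hv
    by_contra hcon
    push Not at hcon
    exact hv (hcon.1.trans hcon.2)
  one_mem' := by
    intro ε hε
    filter_upwards with i
    rw [frac_false]
    · exact hε.le
    · intro v hv
      exact hv rfl
  inv_mem' := by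
    intro σ hσ ε hε
    filter_upwards [hσ ε hε] with i h1
    rw [← frac_perm _ (σ i)]
    refine (frac_mono ?_).trans h1
    intro v hv hcon
    apply hv
    change (σ i)⁻¹ (σ i v) = σ i v
    rw [perm_inv_app, hcon]

lemma mem_asymTriv (σ : ∀ i, Equiv.Perm (V i)) : σ ∈ asymTriv l V ↔
    ∀ ε : ℝ, 0 < ε → ∀ᶠ i in l, frac (fun v => σ i v ≠ v) ≤ ε := Iff.rfl

instance : (asymTriv l V).Normal := by
  constructor
  intro σ hσ τ ε hε
  filter_upwards [hσ ε hε] with i h1
  rw [← frac_perm _ (τ i)]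
  refine (frac_mono ?_).trans h1
  intro v hv hcon
  apply hv
  change τ i (σ i ((τ i)⁻¹ (τ i v))) = τ i v
  rw [perm_inv_app, hcon]

/-- The sequence `σ` follows the element `γ` with respect to the labels. -/
def Follows {H X : Type} [Group H] (α : H →* Equiv.Perm X) {C : I → Type}
    (π : ∀ i, V i → X → C i) (γ : H) (σ : ∀ i, Equiv.Perm (V i)) : Prop :=
  ∀ x : X, ∀ ε : ℝ, 0 < ε → ∀ᶠ i in l, frac (fun v => π i (σ i v) (α γ x) ≠ π i v x) ≤ ε

lemma Follows.one {H X : Type} [Group H] (α : H →* Equiv.Perm X) {C : I → Type}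
    (π : ∀ i, V i → X → C i) : Follows l V α π 1 1 := by
  intro x ε hε
  filter_upwards with i
  rw [frac_false]
  · exact hε.le
  · intro v hv
    apply hv
    rw [map_one]
    rfl

lemma Follows.mul {H X : Type} [Group H] (α : H →* Equiv.Perm X) {C : I → Type}
    (π : ∀ i, V i → X → C i) {γ δ : H} {σ τ : ∀ i, Equiv.Perm (V i)}
    (h1 : Follows l V α π γ σ) (h2 : Follows l V α π δ τ) :
    Follows l V α π (γ * δ) (σ * τ) := by
  intro x ε hε
  filter_upwards [h1 (α δ x) (ε / 2) (by linarith), h2 x (ε / 2) (by linarith)] with i e1 e2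
  rw [← frac_perm _ (τ i)] at e1
  refine (frac_mono (Q := fun v => π i (σ i (τ i v)) (α γ (α δ x)) ≠ π i (τ i v) (α δ x) ∨
    π i (τ i v) (α δ x) ≠ π i v x) ?_).trans ((frac_or _ _).trans (by linarith))
  intro v hv
  by_contra hcon
  push Not at hcon
  apply hv
  rw [map_mul]
  exact hcon.1.trans hcon.2

lemma Follows.inv {H X : Type} [Group H] (α : H →* Equiv.Perm X) {C : I → Type}
    (π : ∀ i, V i → X → C i) {γ : H} {σ : ∀ i, Equiv.Perm (V i)}
    (h1 : Follows l V α π γ σ) : Follows l V α π γ⁻¹ σ⁻¹ := by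
  intro x ε hε
  filter_upwards [h1 (α γ⁻¹ x) ε hε] with i e1
  rw [← frac_perm _ (σ i)]
  refine (frac_mono ?_).trans e1
  intro v hv hcon
  apply hv
  change π i ((σ i)⁻¹ (σ i v)) (α γ⁻¹ x) = π i (σ i v) x
  rw [perm_inv_app, ← hcon, ← Equiv.Perm.mul_apply (α γ), ← map_mul, mul_inv_cancel, map_one,
    Equiv.Perm.one_apply]

lemma Follows.congr {H X : Type} [Group H] (α : H →* Equiv.Perm X) {C : I → Type}
    (π : ∀ i, V i → X → C i) {γ : H} {σ τ : ∀ i, Equiv.Perm (V i)}
    (h1 : Follows l V α π γ σ) (h2 : σ⁻¹ * τ ∈ asymTriv l V) : Follows l V α π γ τ := by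
  intro x ε hε
  filter_upwards [h1 x (ε / 2) (by linarith), h2 (ε / 2) (by linarith)] with i e1 e2
  refine (frac_mono (Q := fun v => π i (σ i v) (α γ x) ≠ π i v x ∨
    (σ⁻¹ * τ) i v ≠ v) ?_).trans ((frac_or _ _).trans (by linarith))
  intro v hv
  by_contra hcon
  push Not at hcon
  apply hv
  have h3 : (σ i)⁻¹ (τ i v) = v := hcon.2
  rw [Equiv.Perm.inv_eq_iff_eq] at h3
  rw [h3]
  exact hcon.1

/-- An asymptotic homomorphism that follows the action gives a sofic action. -/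
theorem sofic_of_asym {H X : Type} [Group H] (α : H →* Equiv.Perm X) [l.NeBot]
    [∀ i, Nonempty (V i)] (C : I → Type) [∀ i, Finite (C i)] (π : ∀ i, V i → X → C i)
    (hinj : ∀ x y : X, x ≠ y → ∀ ε : ℝ, 0 < ε → ∀ᶠ i in l, frac (fun v => π i v x = π i v y) ≤ ε)
    (Θ : H →* (∀ i, Equiv.Perm (V i)) ⧸ asymTriv l V)
    (hΘ : ∀ γ, ∃ σ : ∀ i, Equiv.Perm (V i), (σ : (∀ i, Equiv.Perm (V i)) ⧸ asymTriv l V) = Θ γ ∧
      Follows l V α π γ σ) : IsSoficAction α := by
  classical
  have hΘ' : ∀ γ, ∃ σ : ∀ i, Equiv.Perm (V i), (σ : (∀ i, Equiv.Perm (V i)) ⧸ asymTriv l V) = Θ γ ∧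
      Follows l V α π γ σ ∧ (γ = 1 → σ = 1) := by
    intro γ
    by_cases h : γ = 1
    · refine ⟨1, ?_, ?_, fun _ => rfl⟩
      · rw [h, map_one]
        rfl
      · rw [h]
        exact Follows.one l V α π
    · obtain ⟨σ, h1, h2⟩ := hΘ γ
      exact ⟨σ, h1, h2, fun h3 => absurd h3 h⟩
  choose s hs1 hs2 hs3 using hΘ'
  have hmul : ∀ g h : H, ∀ ε : ℝ, 0 < ε → ∀ᶠ i in l,
      frac (fun v => s (g * h) i v ≠ s g i (s h i v)) ≤ ε := by
    intro g h ε hε
    have h1 : (s (g * h))⁻¹ * (s g * s h) ∈ asymTriv l V := by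
      rw [← QuotientGroup.eq, QuotientGroup.mk_mul, hs1, hs1, hs1, map_mul]
    filter_upwards [h1 ε hε] with i e1
    refine (frac_mono ?_).trans e1
    intro v hv hcon
    apply hv
    have h3 : (s (g * h) i)⁻¹ (s g i (s h i v)) = v := hcon
    rw [Equiv.Perm.inv_eq_iff_eq] at h3
    exact h3.symm
  apply sofic_of_good
  intro F E ε hε
  have e1 : ∀ᶠ i in l, ∀ g ∈ F, ∀ h ∈ F, frac (fun v => s (g * h) i v ≠ s g i (s h i v)) ≤ ε := by
    rw [eventually_all_finset]
    intro g _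
    rw [eventually_all_finset]
    intro h _
    exact hmul g h ε hε
  have e2 : ∀ᶠ i in l, ∀ x ∈ E, ∀ y ∈ E, x ≠ y → frac (fun v => π i v x = π i v y) ≤ ε := by
    rw [eventually_all_finset]
    intro x _
    rw [eventually_all_finset]
    intro y _
    by_cases hxy : x = y
    · filter_upwards with i h
      exact absurd hxy h
    · filter_upwards [hinj x y hxy ε hε] with i h _
      exact h
  have e3 : ∀ᶠ i in l, ∀ g ∈ F, ∀ x ∈ E, frac (fun v => π i (s g i v) (α g x) ≠ π i v x) ≤ ε := by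
    rw [eventually_all_finset]
    intro g _
    rw [eventually_all_finset]
    intro x _
    exact hs2 g x ε hε
  obtain ⟨i, h1, h2, h3⟩ := (e1.and (e2.and e3)).exists
  refine ⟨V i, C i, inferInstance, inferInstance, inferInstance, fun g => s g i, π i, ?_, h1, h2,
    h3⟩
  change s 1 i = 1
  rw [hs3 1 rfl]
  rfl

end Asym

/-- **HNN extensions over amenable subgroups.** Let `A` be an amenable subgroup of the sofic group
`G`.  An action of an HNN extension `G *_A` is sofic if its restriction to `G` is sofic. -/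
theorem sofic_of_hnn {G X : Type} [Group G] {A B : Subgroup G} {φ : A ≃* B}
    (α : HNNExtension G A B φ →* Equiv.Perm X) (hG : IsSoficGroup G) (hA : IsAmenable A)
    (hα : IsSoficAction (α.comp HNNExtension.of)) : IsSoficAction α := by
  classical
  have hmod := exists_stable (α.comp HNNExtension.of) hG hα A hA
    (B.subtype.comp φ.toMonoidHom) (by
      intro a b h
      exact φ.injective (Subtype.ext h)) (α HNNExtension.t) (by
      intro a x
      have h1 := congrArg (fun e => α e x) (HNNExtension.t_mul_of (φ := φ) a)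
      simp only [map_mul, Equiv.Perm.mul_apply] at h1
      exact h1)
  have hmod' : ∀ i : Finset G × Finset X × ℕ, ∃ (V C : Type) (_ : Fintype V) (_ : Nonempty V)
      (_ : Finite C) (ψ : G → Equiv.Perm V) (T : Equiv.Perm V) (π : V → X → C),
      Good (α.comp HNNExtension.of) i.1 i.2.1 (1 / ((i.2.2 : ℝ) + 1)) ψ π ∧
      (∀ a : A, (a : G) ∈ i.1 → frac (fun v => T (ψ a v) ≠ ψ (φ a : G) (T v)) ≤
        1 / ((i.2.2 : ℝ) + 1)) ∧
      ∀ x ∈ i.2.1, frac (fun v => π (T v) (α HNNExtension.t x) ≠ π v x) ≤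
        1 / ((i.2.2 : ℝ) + 1) := fun i => hmod i.1 i.2.1 _ (by positivity)
  choose V C iV hV iC ψ T π hgood hcomm hlab using hmod'
  set l : Filter (Finset G × Finset X × ℕ) := atTop with hl
  have hev : ∀ (g : Finset G) (x : Finset X) (ε : ℝ), 0 < ε → ∀ᶠ i in l, g ⊆ i.1 ∧ x ⊆ i.2.1 ∧
      1 / ((i.2.2 : ℝ) + 1) ≤ ε := by
    intro g x ε hε
    obtain ⟨n, hn⟩ := exists_nat_gt (1 / ε)
    rw [hl, eventually_atTop]
    refine ⟨(g, x, n), fun i hi => ⟨hi.1, hi.2.1, ?_⟩⟩
    have h1 : (n : ℝ) ≤ i.2.2 := by exact_mod_cast hi.2.2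
    rw [div_le_iff₀ (by positivity)]
    rw [div_lt_iff₀ hε] at hn
    nlinarith
  have hψmul : ∀ g h : G, (fun i => ψ i (g * h))⁻¹ * ((fun i => ψ i g) * (fun i => ψ i h)) ∈
      asymTriv l V := by
    intro g h ε hε
    filter_upwards [hev {g, h} ∅ ε hε] with i hi
    refine (frac_mono ?_).trans (((hgood i).mul g (hi.1 (by simp)) h (hi.1 (by simp))).trans
      hi.2.2)
    intro v hv hcon
    apply hv
    change (ψ i (g * h))⁻¹ (ψ i g (ψ i h v)) = v
    rw [Equiv.Perm.inv_eq_iff_eq]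
    exact hcon.symm
  set f : G →* (∀ i, Equiv.Perm (V i)) ⧸ asymTriv l V :=
    MonoidHom.mk' (fun g => ((fun i => ψ i g : ∀ i, Equiv.Perm (V i)) :
      (∀ i, Equiv.Perm (V i)) ⧸ asymTriv l V)) (by
      intro g h
      rw [← QuotientGroup.mk_mul]
      exact QuotientGroup.eq.2 (hψmul g h)) with hf
  have hcomm' : ∀ a : A, ((T : ∀ i, Equiv.Perm (V i)) : (∀ i, Equiv.Perm (V i)) ⧸ asymTriv l V) *
      f (a : G) = f (φ a : G) * ((T : ∀ i, Equiv.Perm (V i)) :
        (∀ i, Equiv.Perm (V i)) ⧸ asymTriv l V) := by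
    intro a
    rw [hf, MonoidHom.mk'_apply, ← QuotientGroup.mk_mul, ← QuotientGroup.mk_mul]
    apply QuotientGroup.eq.2
    intro ε hε
    filter_upwards [hev {(a : G)} ∅ ε hε] with i hi
    refine (frac_mono ?_).trans ((hcomm i a (hi.1 (by simp))).trans hi.2.2)
    intro v hv hcon
    apply hv
    change (T i * ψ i a)⁻¹ (ψ i (φ a : G) (T i v)) = v
    rw [Equiv.Perm.inv_eq_iff_eq]
    exact hcon.symm
  have hinj : ∀ x y : X, x ≠ y → ∀ ε : ℝ, 0 < ε → ∀ᶠ i in l,
      frac (fun v => π i v x = π i v y) ≤ ε := by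
    intro x y hxy ε hε
    filter_upwards [hev ∅ {x, y} ε hε] with i hi
    exact ((hgood i).inj x (hi.2.1 (by simp)) y (hi.2.1 (by simp)) hxy).trans hi.2.2
  refine sofic_of_asym l V α C π hinj (HNNExtension.lift f _ hcomm') ?_
  intro γ
  induction γ using HNNExtension.induction_on with
  | of g =>
    refine ⟨fun i => ψ i g, ?_, ?_⟩
    · rw [HNNExtension.lift_of]
      rfl
    · intro x ε hε
      filter_upwards [hev {g} {x} ε hε] with i hi
      exact ((hgood i).equi g (hi.1 (by simp)) x (hi.2.1 (by simp))).trans hi.2.2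
  | t =>
    refine ⟨T, ?_, ?_⟩
    · rw [HNNExtension.lift_t]
    · intro x ε hε
      filter_upwards [hev ∅ {x} ε hε] with i hi
      exact (hlab i x (hi.2.1 (by simp))).trans hi.2.2
  | mul γ δ h1 h2 =>
    obtain ⟨σ, h3, h4⟩ := h1
    obtain ⟨τ, h5, h6⟩ := h2
    refine ⟨σ * τ, ?_, Follows.mul l V α π h4 h6⟩
    rw [QuotientGroup.mk_mul, h3, h5, map_mul]
  | inv γ h1 =>
    obtain ⟨σ, h3, h4⟩ := h1
    refine ⟨σ⁻¹, ?_, Follows.inv l V α π h4⟩
    rw [QuotientGroup.mk_inv, h3, map_inv]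

end SoficAct
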