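import Pool.Agent.Lib.MP_2d1e68_al.Core

/-!
# The class of actions `ClassA`
-/

noncomputable section

namespace SoficAct

/-- The closure of the class of the sofic actions under several operations. -/
inductive ClassA : {H X : Type} → [Group H] → (H →* Equiv.Perm X) → Prop
  | base {H X : Type} [Group H] (α : H →* Equiv.Perm X) (h : IsSoficAction α) : ClassA α
  | stabilizers {H X : Type} [Group H] (α : H →* Equiv.Perm X) (hH : IsSoficGroup H)
      (h : ∀ x, IsAmenable (stab α x)) : ClassA α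
  | pullback {H K X Y : Type} [Group H] [Group K] (α : H →* Equiv.Perm X) (β : K →* Equiv.Perm Y)
      (ρ : K →* H) (f : Y → X) (hf : Function.Injective f) (he : ∀ k y, f (β k y) = α (ρ k) (f y))
      (h : ClassA α) : ClassA β
  | limit {H X : Type} [Group H] (α : H →* Equiv.Perm X) (K Y : Finset H → Finset X → Type)
      [iK : ∀ F E, Group (K F E)] (β : ∀ F E, K F E →* Equiv.Perm (Y F E))
      (ρ : ∀ F E, H → K F E) (f : ∀ F E, X → Y F E) (h1 : ∀ F E, ρ F E 1 = 1)
      (h2 : ∀ F E, ∀ g ∈ F, ∀ h ∈ F, ρ F E (g * h) = ρ F E g * ρ F E h)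
      (h3 : ∀ F E, Set.InjOn (f F E) (E : Set X))
      (h4 : ∀ F E, ∀ g ∈ F, ∀ x ∈ E, f F E (α g x) = β F E (ρ F E g) (f F E x))
      (h : ∀ F E, ClassA (β F E)) : ClassA α
  | pieces {H X : Type} [Group H] (α : H →* Equiv.Perm X) (Y : X → Type)
      (β : ∀ x, H →* Equiv.Perm (Y x)) (f : ∀ x, Y x → X) (hf : ∀ x, Function.Injective (f x))
      (he : ∀ x k y, f x (β x k y) = α k (f x y)) (hx : ∀ x, x ∈ Set.range (f x))
      (h : ∀ x, ClassA (β x)) : ClassA α
  | prod {H X Y : Type} [Group H] (α : H →* Equiv.Perm X) (β : H →* Equiv.Perm Y)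
      (γ : H →* Equiv.Perm (X × Y)) (hγ : ∀ h p, γ h p = (α h p.1, β h p.2))
      (h₁ : ClassA α) (h₂ : ClassA β) : ClassA γ
  | fibres {H X Y : Type} [Group H] (β : H →* Equiv.Perm Y) (α : H →* Equiv.Perm X) (p : Y → X)
      (hp : ∀ h y, p (β h y) = α h (p y)) (hf : AmenableFibres β α p) (h : ClassA β) : ClassA α
  | coamenable {H X : Type} [Group H] (α : H →* Equiv.Perm X) (N : Subgroup H) (hN : CoAmenable N)
      (h : ClassA (α.comp N.subtype)) : ClassA α
  | hnn {G₀ X : Type} [Group G₀] {A B : Subgroup G₀} {φ : A ≃* B}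
      (α : HNNExtension G₀ A B φ →* Equiv.Perm X) (hG : IsSoficGroup G₀) (hA : IsAmenable A)
      (h : ClassA (α.comp HNNExtension.of)) : ClassA α
  | amalgam {C G₁ G₂ P X : Type} [Group C] [Group G₁] [Group G₂] [Group P] (i₁ : C →* G₁)
      (i₂ : C →* G₂) (j₁ : G₁ →* P) (j₂ : G₂ →* P) (hP : IsAmalgam i₁ i₂ j₁ j₂)
      (hi₁ : Function.Injective i₁) (hi₂ : Function.Injective i₂) (hC : IsAmenable C)
      (hG₁ : IsSoficGroup G₁) (hG₂ : IsSoficGroup G₂)
      (α : P →* Equiv.Perm X) (h₁ : ClassA (α.comp j₁)) (h₂ : ClassA (α.comp j₂)) : ClassA α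

end SoficAct
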