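import Pool.Agent.Lib.MP_2d1e68_al.Core

/-!
# The classes `ClassB` of groups and `ClassQ` of actions
-/

noncomputable section

namespace SoficAct

/-- The class `ℬ`: groups that are locally embeddable into amenable groups, closed under
subgroups, directed unions, products and extensions with amenable quotient. -/
inductive ClassB : (W : Type) → [Group W] → Prop
  | lea {W : Type} [Group W] (h : IsLEA W) : ClassB W
  | subgroup {W V : Type} [Group W] [Group V] (f : V →* W) (hf : Function.Injective f)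
      (h : ClassB W) : ClassB V
  | union {W : Type} [Group W] (M : Finset W → Subgroup W)
      (hM : ∀ F : Finset W, ∀ g ∈ F, g ∈ M F) (h : ∀ F, ClassB (M F)) : ClassB W
  | prod {W V : Type} [Group W] [Group V] (h₁ : ClassB W) (h₂ : ClassB V) : ClassB (W × V)
  | extension {W : Type} [Group W] (M : Subgroup W) (hn : M.Normal) (hM : CoAmenable M)
      (h : ClassB M) : ClassB W

/-- The class `𝒬(G)` of actions. -/
inductive ClassQ (G : Type) [Group G] : {H X : Type} → [Group H] → (H →* Equiv.Perm X) → Prop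
  | sofic {H X : Type} [Group H] (α : H →* Equiv.Perm X) (h : IsSoficAction α) : ClassQ G α
  | stabilizers {H X : Type} [Group H] (α : H →* Equiv.Perm X) (h : ∀ x, IsAmenable (stab α x)) :
      ClassQ G α
  | stable {H X : Type} [Group H] (α : H →* Equiv.Perm X) (h : VeryFlexiblyStable H) : ClassQ G α
  | twosided {H X : Type} [Group H] (α : H →* Equiv.Perm X) (h : ClassB (GenWreath G α)) :
      ClassQ G α
  | union {H X : Type} [Group H] (α : H →* Equiv.Perm X) (M : Finset H → Subgroup H)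
      (hM : ∀ F : Finset H, ∀ g ∈ F, g ∈ M F) (h : ∀ F, ClassQ G (α.comp (M F).subtype)) :
      ClassQ G α
  | coamenable {H X : Type} [Group H] (α : H →* Equiv.Perm X) (N : Subgroup H) (hN : CoAmenable N)
      (h : ClassQ G (α.comp N.subtype)) : ClassQ G α
  | hnn {G₀ X : Type} [Group G₀] {A B : Subgroup G₀} {φ : A ≃* B}
      (α : HNNExtension G₀ A B φ →* Equiv.Perm X) (hA : IsAmenable A)
      (h : ClassQ G (α.comp HNNExtension.of)) : ClassQ G α
  | amalgam {C G₁ G₂ P X : Type} [Group C] [Group G₁] [Group G₂] [Group P] (i₁ : C →* G₁)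
      (i₂ : C →* G₂) (j₁ : G₁ →* P) (j₂ : G₂ →* P) (hP : IsAmalgam i₁ i₂ j₁ j₂)
      (hi₁ : Function.Injective i₁) (hi₂ : Function.Injective i₂) (hC : IsAmenable C)
      (α : P →* Equiv.Perm X) (h₁ : ClassQ G (α.comp j₁)) (h₂ : ClassQ G (α.comp j₂)) :
      ClassQ G α
  | retract {H K X : Type} [Group H] [Group K] (ρ : H →* K) (s : K →* H)
      (hs : ρ.comp s = MonoidHom.id K) (α : K →* Equiv.Perm X) (h : ClassQ G α) :
      ClassQ G (α.comp ρ)
  | outer {H₁ H₂ X₁ X₂ : Type} [Group H₁] [Group H₂] (α₁ : H₁ →* Equiv.Perm X₁)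
      (α₂ : H₂ →* Equiv.Perm X₂) (γ : H₁ × H₂ →* Equiv.Perm (X₁ × X₂))
      (hγ : ∀ h p, γ h p = (α₁ h.1 p.1, α₂ h.2 p.2)) (h₁ : ClassQ G α₁) (h₂ : ClassQ G α₂) :
      ClassQ G γ
  | pieces {H X : Type} [Group H] (α : H →* Equiv.Perm X) (Y : X → Type)
      (β : ∀ x, H →* Equiv.Perm (Y x)) (f : ∀ x, Y x → X) (hf : ∀ x, Function.Injective (f x))
      (he : ∀ x k y, f x (β x k y) = α k (f x y)) (hx : ∀ x, x ∈ Set.range (f x))
      (h : ∀ x, ClassQ G (β x)) : ClassQ G α

end SoficAct
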