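import Pool.Agent.Lib.MP_2d1e68_al.Core

/-!
# The class of groups `ClassS`
-/

noncomputable section

namespace SoficAct

/-- The class `𝒮`: amenable groups, closed under subgroups, directed unions, co-amenable
overgroups, HNN extensions and amalgams over amenable subgroups. -/
inductive ClassS : (H : Type) → [Group H] → Prop
  | amenable {H : Type} [Group H] (h : IsAmenable H) : ClassS H
  | subgroup {H K : Type} [Group H] [Group K] (f : K →* H) (hf : Function.Injective f)
      (h : ClassS H) : ClassS K
  | union {H : Type} [Group H] (M : Finset H → Subgroup H)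
      (hM : ∀ F : Finset H, ∀ g ∈ F, g ∈ M F) (h : ∀ F, ClassS (M F)) : ClassS H
  | coamenable {H : Type} [Group H] (N : Subgroup H) (hN : CoAmenable N) (h : ClassS N) : ClassS H
  | hnn {G : Type} [Group G] (A B : Subgroup G) (φ : A ≃* B) (hA : IsAmenable A)
      (h : ClassS G) : ClassS (HNNExtension G A B φ)
  | amalgam {C G₁ G₂ P : Type} [Group C] [Group G₁] [Group G₂] [Group P] (i₁ : C →* G₁)
      (i₂ : C →* G₂) (j₁ : G₁ →* P) (j₂ : G₂ →* P) (hP : IsAmalgam i₁ i₂ j₁ j₂)
      (hi₁ : Function.Injective i₁) (hi₂ : Function.Injective i₂) (hC : IsAmenable C)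
      (h₁ : ClassS G₁) (h₂ : ClassS G₂) : ClassS P

end SoficAct
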