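import Pool.Agent.Lib.MP_2d1e68_al.Pieces
import Pool.Agent.Lib.MP_2d1e68_al.ClassS
import Pool.Agent.Lib.MP_2d1e68_al.ClassQ

/-!
# The classes of groups and of actions
-/

open Finset Filter

noncomputable section

namespace SoficAct

/-- A group with a faithful sofic action is sofic. -/
theorem sofic_group_of_faithful {H X : Type} [Group H] (α : H →* Equiv.Perm X)
    (hf : Function.Injective α) (hs : IsSoficAction α) : IsSoficGroup H := by
  classical
  intro F ε hε
  have hmv : ∀ g : H, g ≠ 1 → ∃ x : X, α g x ≠ x := by
    intro g hg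
    by_contra hcon
    push Not at hcon
    apply hg
    apply hf
    rw [map_one]
    apply Equiv.ext
    intro x
    exact hcon x
  choose x hx using hmv
  obtain ⟨A, B, iA, hA, iB, φ, π, hg⟩ := good_of_sofic α hs F
    (F.biUnion (fun g => if h : g ≠ 1 then {x g h, α g (x g h)} else ∅)) (ε / 3) (by linarith)
  refine ⟨A, iA, hA, φ, hg.one, ?_, ?_⟩
  · intro g hg' h hh
    unfold hamming
    simp only [Equiv.Perm.mul_apply]
    exact (hg.mul g hg' h hh).trans_lt (by linarith)
  · intro g hgF hg1
    have hmem1 : x g hg1 ∈ F.biUnion (fun g => if h : g ≠ 1 then {x g h, α g (x g h)} else ∅) := by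
      rw [mem_biUnion]
      refine ⟨g, hgF, ?_⟩
      rw [dif_pos hg1]
      simp
    have hmem2 : α g (x g hg1) ∈
        F.biUnion (fun g => if h : g ≠ 1 then {x g h, α g (x g h)} else ∅) := by
      rw [mem_biUnion]
      refine ⟨g, hgF, ?_⟩
      rw [dif_pos hg1]
      simp
    have e1 := hg.inj _ hmem2 _ hmem1 (hx g hg1)
    have e2 := hg.equi g hgF _ hmem1
    have h3 := frac_compl (fun a => φ g a = a)
    have h4 : hamming 1 (φ g) = frac (fun a => ¬ φ g a = a) := by
      unfold hamming
      congr 1
      funext a
      rw [Equiv.Perm.one_apply, ne_comm]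
    have h5 : frac (fun a => φ g a = a) ≤ ε / 3 + ε / 3 := by
      refine (frac_mono (Q := fun a => π a (α g (x g hg1)) = π a (x g hg1) ∨
        π (φ g a) (α g (x g hg1)) ≠ π a (x g hg1)) ?_).trans ((frac_or _ _).trans (by linarith))
      intro a ha
      by_contra hcon
      push Not at hcon
      rw [ha] at hcon
      exact hcon.1 hcon.2
    rw [h4, h3]
    linarith

/-- Left multiplication. -/
def leftMul (H : Type) [Group H] : H →* Equiv.Perm H := MulAction.toPermHom H H

lemma leftMul_injective (H : Type) [Group H] : Function.Injective (leftMul H) := by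
  intro a b h
  have := DFunLike.congr_fun h 1
  change a * 1 = b * 1 at this
  simpa using this

/-- Unions of subgroups. -/
theorem sofic_of_union {H X : Type} [Group H] (α : H →* Equiv.Perm X) (M : Finset H → Subgroup H)
    (hM : ∀ F : Finset H, ∀ g ∈ F, g ∈ M F) (h : ∀ F, IsSoficAction (α.comp (M F).subtype)) :
    IsSoficAction α := by
  classical
  apply sofic_of_local
  intro F E
  refine ⟨M F, X, inferInstance, α.comp (M F).subtype, fun g => if hg : g ∈ M F then ⟨g, hg⟩ else 1,
    id, h F, ?_, ?_, fun _ _ _ _ h => h, ?_⟩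
  · exact dif_pos (one_mem _)
  · intro g hg k hk
    have e1 : (if hg : g ∈ M F then (⟨g, hg⟩ : M F) else 1) = ⟨g, hM F g hg⟩ := dif_pos _
    have e2 : (if hk : k ∈ M F then (⟨k, hk⟩ : M F) else 1) = ⟨k, hM F k hk⟩ := dif_pos _
    have e3 : (if h : g * k ∈ M F then (⟨g * k, h⟩ : M F) else 1) =
      ⟨g * k, mul_mem (hM F g hg) (hM F k hk)⟩ := dif_pos _
    exact e3.trans (congrArg₂ (· * ·) e1 e2).symm
  · intro g hg x _
    have e1 : (if hg : g ∈ M F then (⟨g, hg⟩ : M F) else 1) = ⟨g, hM F g hg⟩ := dif_pos _
    change α g x = (α.comp (M F).subtype) (if hg : g ∈ M F then (⟨g, hg⟩ : M F) else 1) x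
    rw [e1]
    rfl

/-- If all actions of `H` are sofic, then all actions of its subgroups are sofic. -/
theorem sofic_of_subgroup {H K X : Type} [Group H] [Group K] (f : K →* H)
    (hf : Function.Injective f) (hH : ∀ (Y : Type) (β : H →* Equiv.Perm Y), IsSoficAction β)
    (α : K →* Equiv.Perm X) : IsSoficAction α := by
  classical
  refine sofic_of_pieces α (fun x => K ⧸ (stab α x)) (fun x => MulAction.toPermHom K _)
    (fun x => Quotient.lift (fun k : K => α k x) ?_) ?_ ?_ ?_ ?_
  · intro a b hab
    have h1 : a⁻¹ * b ∈ stab α x := QuotientGroup.eq.1 (Quotient.sound hab)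
    have h2 : α (a⁻¹ * b) x = x := h1
    rw [map_mul, Equiv.Perm.mul_apply, map_inv, Equiv.Perm.inv_eq_iff_eq] at h2
    exact h2.symm
  · intro x a b
    obtain ⟨a, rfl⟩ := QuotientGroup.mk_surjective a
    obtain ⟨b, rfl⟩ := QuotientGroup.mk_surjective b
    intro hab
    have hab' : α a x = α b x := hab
    apply QuotientGroup.eq.2
    change α (a⁻¹ * b) x = x
    rw [map_mul, Equiv.Perm.mul_apply, map_inv, Equiv.Perm.inv_eq_iff_eq]
    exact hab'.symm
  · intro x k y
    obtain ⟨y, rfl⟩ := QuotientGroup.mk_surjective y
    change α (k * y) x = α k (α y x)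
    rw [map_mul, Equiv.Perm.mul_apply]
  · intro x
    refine ⟨((1 : K) : K ⧸ stab α x), ?_⟩
    change α 1 x = x
    rw [map_one, Equiv.Perm.one_apply]
  · intro x
    refine sofic_pullback (MulAction.toPermHom H (H ⧸ (stab α x).map f)) _ f
      (Quotient.lift (fun k : K => ((f k : H) : H ⧸ (stab α x).map f)) ?_) ?_ ?_ (hH _ _)
    · intro a b hab
      have h1 : a⁻¹ * b ∈ stab α x := QuotientGroup.eq.1 (Quotient.sound hab)
      apply QuotientGroup.eq.2
      rw [← map_inv, ← map_mul]
      exact Subgroup.mem_map_of_mem f h1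
    · intro a b
      obtain ⟨a, rfl⟩ := QuotientGroup.mk_surjective a
      obtain ⟨b, rfl⟩ := QuotientGroup.mk_surjective b
      intro hab
      have hab' : ((f a : H) : H ⧸ (stab α x).map f) = ((f b : H) : H ⧸ (stab α x).map f) := hab
      have h2 := QuotientGroup.eq.1 hab'
      rw [← map_inv, ← map_mul, Subgroup.mem_map] at h2
      obtain ⟨c, hc, h3⟩ := h2
      apply QuotientGroup.eq.2
      rw [← hf h3]
      exact hc
    · intro k y
      obtain ⟨y, rfl⟩ := QuotientGroup.mk_surjective y
      change ((f (k * y) : H) : H ⧸ (stab α x).map f) = f k • ((f y : H) : H ⧸ (stab α x).map f)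
      rw [map_mul]
      rfl

/-- Every action of a group of the class `𝒮` is sofic. -/
theorem ClassS.sofic {H : Type} [Group H] (h : ClassS H) :
    ∀ (X : Type) (α : H →* Equiv.Perm X), IsSoficAction α := by
  induction h with
  | amenable h => exact fun X α => sofic_of_amenable h α
  | subgroup f hf _ ih => exact fun X α => sofic_of_subgroup f hf ih α
  | union M hM _ ih => exact fun X α => sofic_of_union α M hM (fun F => ih F X _)
  | coamenable N hN _ ih => exact fun X α => sofic_of_coamenable α N hN (ih X _)
  | hnn A B φ hA _ ih =>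
    exact fun X α => sofic_of_hnn α
      (sofic_group_of_faithful _ (leftMul_injective _) (ih _ (leftMul _))) hA (ih X _)
  | amalgam i₁ i₂ j₁ j₂ hP hi₁ hi₂ hC _ _ ih₁ ih₂ =>
    exact fun X α => sofic_of_amalgam i₁ i₂ j₁ j₂ hP hi₁ hi₂ hC
      (sofic_group_of_faithful _ (leftMul_injective _) (ih₁ _ (leftMul _)))
      (sofic_group_of_faithful _ (leftMul_injective _) (ih₂ _ (leftMul _))) α (ih₁ X _) (ih₂ X _)

/-- The two-sided action of a group of the class `ℬ` is sofic. -/
theorem ClassB.sofic {W : Type} [Group W] (h : ClassB W) : IsSoficAction (biAct W) := by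
  classical
  induction h with
  | lea h => exact biAct_lea h
  | subgroup f hf _ ih => exact biAct_subgroup f hf ih
  | @union W _ M hM _ ih =>
    apply sofic_of_local
    intro F E
    set S : Finset W := F.image Prod.fst ∪ F.image Prod.snd ∪ E with hS
    have h1 : ∀ g ∈ F, g.1 ∈ M S := fun g hg => hM S _ (by
      rw [hS, mem_union, mem_union]
      exact Or.inl (Or.inl (mem_image_of_mem _ hg)))
    have h2 : ∀ g ∈ F, g.2 ∈ M S := fun g hg => hM S _ (by
      rw [hS, mem_union, mem_union]
      exact Or.inl (Or.inr (mem_image_of_mem _ hg)))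
    have h3 : ∀ x ∈ E, x ∈ M S := fun x hx => hM S _ (by
      rw [hS, mem_union]
      exact Or.inr hx)
    set r : W → M S := fun w => if h : w ∈ M S then ⟨w, h⟩ else 1 with hr
    have hrv : ∀ w (h : w ∈ M S), r w = ⟨w, h⟩ := by
      intro w h
      rw [hr]
      simp only [dif_pos h]
    refine ⟨M S × M S, M S, inferInstance, biAct (M S), fun g => (r g.1, r g.2), r, ih S, ?_, ?_,
      ?_, ?_⟩
    · refine Prod.ext ?_ ?_ <;>
      · change r 1 = 1
        rw [hrv 1 (one_mem _)]
        rfl
    · intro g hg k hk
      refine Prod.ext ?_ ?_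
      · change r (g.1 * k.1) = r g.1 * r k.1
        rw [hrv _ (h1 g hg), hrv _ (h1 k hk), hrv _ (mul_mem (h1 g hg) (h1 k hk))]
        rfl
      · change r (g.2 * k.2) = r g.2 * r k.2
        rw [hrv _ (h2 g hg), hrv _ (h2 k hk), hrv _ (mul_mem (h2 g hg) (h2 k hk))]
        rfl
    · intro x hx y hy hxy
      rw [hrv x (h3 x hx), hrv y (h3 y hy)] at hxy
      exact congrArg Subtype.val hxy
    · intro g hg x hx
      rw [biAct_apply, biAct_apply]
      change r (g.1 * x * g.2⁻¹) = r g.1 * r x * (r g.2)⁻¹
      rw [hrv _ (h1 g hg), hrv _ (h2 g hg), hrv _ (h3 x hx),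
        hrv _ (mul_mem (mul_mem (h1 g hg) (h3 x hx)) (inv_mem (h2 g hg)))]
      rfl
  | @prod W V _ _ _ _ ih₁ ih₂ =>
    set p₁ : (W × V) × (W × V) →* W × W :=
      (MonoidHom.fst W V).prodMap (MonoidHom.fst W V) with hp₁
    set p₂ : (W × V) × (W × V) →* V × V :=
      (MonoidHom.snd W V).prodMap (MonoidHom.snd W V) with hp₂
    refine sofic_prod ((biAct W).comp p₁) ((biAct V).comp p₂) (biAct (W × V)) ?_ ?_ ?_
    · intro h p
      rfl
    · exact sofic_pullback (biAct W) _ p₁ id Function.injective_id (fun k y => rfl) ih₁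
    · exact sofic_pullback (biAct V) _ p₂ id Function.injective_id (fun k y => rfl) ih₂
  | extension M hn hM _ ih =>
    haveI := hn
    exact biAct_extension M hM ih

/-- Wreath products over pieces and subgroups embed. -/
lemma wreath_embed {G H K X Y : Type} [Group G] [Group H] [Group K] (α : H →* Equiv.Perm X)
    (β : K →* Equiv.Perm Y) (ρ : K →* H) (hρ : Function.Injective ρ) (f : Y → X)
    (hf : Function.Injective f)
    (he : ∀ k y, f (β k y) = α (ρ k) (f y)) (hW : IsSoficGroup (GenWreath G α)) :
    IsSoficGroup (GenWreath G β) := by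
  classical
  set e : DirectSum G Y →* DirectSum G X :=
    { toFun := fun g => ⟨Function.extend f g.1 1, by
        refine (g.2.image f).subset ?_
        intro x hx
        by_cases h : ∃ y, f y = x
        · obtain ⟨y, rfl⟩ := h
          refine ⟨y, ?_, rfl⟩
          intro h1
          apply hx
          rw [hf.extend_apply, h1]
        · exfalso
          apply hx
          rw [Function.extend_apply' _ _ _ h]
          rfl⟩
      map_one' := by
        apply Subtype.ext
        exact Function.extend_one f
      map_mul' := by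
        intro a b
        apply Subtype.ext
        have := Function.extend_mul f a.1 b.1 1 1
        rw [mul_one] at this
        exact this } with hedef
  have heinj : Function.Injective e := by
    intro a b hab
    apply Subtype.ext
    funext y
    have h1 := congrFun (congrArg Subtype.val hab) (f y)
    change Function.extend f a.1 1 (f y) = Function.extend f b.1 1 (f y) at h1
    rwa [hf.extend_apply, hf.extend_apply] at h1
  have hcomp : ∀ h : K, e.comp ((shiftHom G β) h).toMonoidHom =
      ((shiftHom G α) (ρ h)).toMonoidHom.comp e := by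
    intro h
    apply MonoidHom.ext
    intro g
    apply Subtype.ext
    funext x
    change Function.extend f (fun y => g.1 ((β h)⁻¹ y)) 1 x =
      Function.extend f g.1 1 ((α (ρ h))⁻¹ x)
    by_cases hx : ∃ y, f y = x
    · obtain ⟨y, rfl⟩ := hx
      rw [hf.extend_apply]
      have h1 : (α (ρ h))⁻¹ (f y) = f ((β h)⁻¹ y) := by
        rw [← map_inv, ← map_inv, ← map_inv, he]
      rw [h1, hf.extend_apply]
    · rw [Function.extend_apply' _ _ _ hx, Function.extend_apply']
      · rfl
      · rintro ⟨y, hy⟩
        apply hx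
        refine ⟨β h y, ?_⟩
        rw [he, hy]
        simp
  refine sofic_group_of_injective (SemidirectProduct.map e ρ hcomp) ?_ hW
  intro a b hab
  have e1 := congrArg SemidirectProduct.left hab
  have e2 := congrArg SemidirectProduct.right hab
  change e a.left = e b.left at e1
  change ρ a.right = ρ b.right at e2
  exact SemidirectProduct.ext (heinj e1) (hρ e2)

/-- Wreath products over subgroups embed. -/
lemma wreath_sub {G H K X : Type} [Group G] [Group H] [Group K] (α : H →* Equiv.Perm X)
    (ρ : K →* H) (hρ : Function.Injective ρ) (hW : IsSoficGroup (GenWreath G α)) :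
    IsSoficGroup (GenWreath G (α.comp ρ)) := by
  have hcomp : ∀ k : K, (MonoidHom.id (DirectSum G X)).comp
      ((shiftHom G (α.comp ρ)) k).toMonoidHom =
      ((shiftHom G α) (ρ k)).toMonoidHom.comp (MonoidHom.id (DirectSum G X)) := by
    intro k
    rfl
  refine sofic_group_of_injective (SemidirectProduct.map (MonoidHom.id _) ρ hcomp) ?_ hW
  intro a b hab
  have e1 := congrArg SemidirectProduct.left hab
  have e2 := congrArg SemidirectProduct.right hab
  change a.left = b.left at e1
  change ρ a.right = ρ b.right at e2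
  exact SemidirectProduct.ext e1 (hρ e2)

/-- `H` embeds into the wreath product. -/
lemma wreath_base {G H X : Type} [Group G] [Group H] (α : H →* Equiv.Perm X)
    (hW : IsSoficGroup (GenWreath G α)) : IsSoficGroup H :=
  sofic_group_of_injective (SemidirectProduct.inr : H →* GenWreath G α)
    SemidirectProduct.inr_injective hW

/-- `G` embeds into the wreath product if `X` is not empty. -/
lemma wreath_fibre {G H X : Type} [Group G] [Group H] (α : H →* Equiv.Perm X) (x : X)
    (hW : IsSoficGroup (GenWreath G α)) : IsSoficGroup G := by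
  classical
  set e : G →* DirectSum G X :=
    { toFun := fun g => single g x
      map_one' := by
        apply Subtype.ext
        funext y
        change (if y = x then (1 : G) else 1) = 1
        rw [ite_self]
      map_mul' := by
        intro a b
        apply Subtype.ext
        funext y
        change (if y = x then a * b else 1) = (if y = x then a else 1) * (if y = x then b else 1)
        by_cases hy : y = x
        · simp [hy]
        · simp [hy] } with he
  refine sofic_group_of_injective ((SemidirectProduct.inl : _ →* GenWreath G α).comp e) ?_ hW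
  intro a b hab
  have h1 := congrArg Subtype.val (SemidirectProduct.inl_injective hab)
  have h2 := congrFun h1 x
  change (if x = x then a else 1) = (if x = x then b else 1) at h2
  rwa [if_pos rfl, if_pos rfl] at h2

/-- **The open direction of Q1 for the class `𝒬(G)`.** -/
theorem ClassQ.q1 {G : Type} [Group G] (hG : ∃ g : G, g ≠ 1) {H X : Type} [Group H]
    {α : H →* Equiv.Perm X} (h : ClassQ G α) (hW : IsSoficGroup (GenWreath G α)) :
    IsSoficAction α := by
  induction h with
  | sofic α h => exact h
  | stabilizers α h => exact sofic_of_amenable_stab α (wreath_base α hW) h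
  | stable α h => exact sofic_of_stable α hG h hW
  | twosided α h => exact sofic_of_biAct α hG h.sofic
  | union α M hM _ ih =>
    exact sofic_of_union α M hM (fun F => ih F (wreath_sub α _ (M F).subtype_injective hW))
  | coamenable α N hN _ ih =>
    exact sofic_of_coamenable α N hN (ih (wreath_sub α _ N.subtype_injective hW))
  | hnn α hA _ ih =>
    have h1 := wreath_sub α HNNExtension.of (HNNExtension.of_injective _) hW
    exact sofic_of_hnn α (wreath_base _ h1) hA (ih h1)
  | amalgam i₁ i₂ j₁ j₂ hP hi₁ hi₂ hC α _ _ ih₁ ih₂ =>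
    obtain ⟨hj₁, hj₂⟩ := hP.injective hi₁ hi₂
    have h1 := wreath_sub α j₁ hj₁ hW
    have h2 := wreath_sub α j₂ hj₂ hW
    exact sofic_of_amalgam i₁ i₂ j₁ j₂ hP hi₁ hi₂ hC (wreath_base _ h1) (wreath_base _ h2) α
      (ih₁ h1) (ih₂ h2)
  | @retract H K X _ _ ρ s hs α _ ih =>
    refine sofic_pullback α _ ρ id Function.injective_id (fun k y => rfl) (ih ?_)
    refine wreath_embed (α.comp ρ) α s ?_ id Function.injective_id ?_ hW
    · intro a b hab
      have h1 := congrArg ρ hab
      rw [← MonoidHom.comp_apply, ← MonoidHom.comp_apply, hs] at h1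
      exact h1
    · intro k y
      change α k y = α ((ρ.comp s) k) y
      rw [hs]
      rfl
  | @outer H₁ H₂ X₁ X₂ _ _ α₁ α₂ γ hγ _ _ ih₁ ih₂ =>
    by_cases hne : Nonempty (X₁ × X₂)
    · obtain ⟨x₁, x₂⟩ := hne
      have s1 : IsSoficAction α₁ := ih₁ (wreath_embed γ α₁ (MonoidHom.inl H₁ H₂)
        (fun a b hab => congrArg Prod.fst hab) (fun x => (x, x₂))
        (fun a b hab => congrArg Prod.fst hab) (fun k y => by
          rw [hγ]
          simp) hW)
      have s2 : IsSoficAction α₂ := ih₂ (wreath_embed γ α₂ (MonoidHom.inr H₁ H₂)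
        (fun a b hab => congrArg Prod.snd hab) (fun x => (x₁, x))
        (fun a b hab => congrArg Prod.snd hab) (fun k y => by
          rw [hγ]
          simp) hW)
      refine sofic_prod (α₁.comp (MonoidHom.fst H₁ H₂)) (α₂.comp (MonoidHom.snd H₁ H₂)) γ hγ ?_ ?_
      · exact sofic_pullback α₁ _ (MonoidHom.fst H₁ H₂) id Function.injective_id
          (fun k y => rfl) s1
      · exact sofic_pullback α₂ _ (MonoidHom.snd H₁ H₂) id Function.injective_id
          (fun k y => rfl) s2
    · apply sofic_of_good
      intro F E ε hε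
      exact soficOn_empty γ F E ε (fun p _ => hne ⟨p⟩) hε
  | pieces α Y β f hf he hx _ ih =>
    exact sofic_of_pieces α Y β f hf he hx
      (fun x => ih x (wreath_embed α (β x) (MonoidHom.id _) Function.injective_id (f x) (hf x)
        (he x) hW))

end SoficAct
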