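import Pool.Agent.Lib.MP_2d1e68_al.Cls
import Pool.Agent.Lib.MP_2d1e68_al.ClassA

/-!
# Closure properties of the class of sofic actions
-/

open Finset Filter

noncomputable section

namespace SoficAct

/-- All actions of the class `𝒜` are sofic. -/
theorem ClassA.sofic {H X : Type} [Group H] {α : H →* Equiv.Perm X} (h : ClassA α) :
    IsSoficAction α := by
  induction h with
  | base α h => exact h
  | stabilizers α hH h => exact sofic_of_amenable_stab α hH h
  | pullback α β ρ f hf he _ ih => exact sofic_pullback α β ρ f hf he ih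
  | limit α K Y β ρ f h1 h2 h3 h4 _ ih =>
    exact sofic_of_local α (fun F E => ⟨K F E, Y F E, inferInstance, β F E, ρ F E, f F E, ih F E,
      h1 F E, h2 F E, h3 F E, h4 F E⟩)
  | pieces α Y β f hf he hx _ ih => exact sofic_of_pieces α Y β f hf he hx ih
  | prod α β γ hγ _ _ ih₁ ih₂ => exact sofic_prod α β γ hγ ih₁ ih₂
  | fibres β α p hp hf _ ih => exact sofic_of_fibres β α p hp hf ih
  | coamenable α N hN _ ih => exact sofic_of_coamenable α N hN ih
  | hnn α hG hA _ ih => exact sofic_of_hnn α hG hA ih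
  | amalgam i₁ i₂ j₁ j₂ hP hi₁ hi₂ hC hG₁ hG₂ α _ _ ih₁ ih₂ =>
    exact sofic_of_amalgam i₁ i₂ j₁ j₂ hP hi₁ hi₂ hC hG₁ hG₂ α ih₁ ih₂

end SoficAct
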