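import Pool.Agent.Lib.MP_2d1e68_al.Defs

/-!
# Co-amenable overgroups

If `N` is co-amenable in `H` and the restriction of the action to `N` is sofic, then the action of
`H` is sofic.
-/

open Finset

noncomputable section

namespace SoficAct

/-- A property of pairs fails rarely if the first coordinate is rarely bad, and for a good first
coordinate the second one is rarely bad. -/
lemma frac_pair {C A : Type} [Fintype C] [Fintype A] [Nonempty A] (P : C × A → Prop)
    (Q : C → Prop) (δ ε : ℝ) (hQ : frac Q ≤ δ)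
    (h : ∀ c, ¬ Q c → frac (fun a => P (c, a)) ≤ ε) (hε : 0 ≤ ε) : frac P ≤ δ + ε := by
  refine (frac_mono (Q := fun p : C × A => Q p.1 ∨ (¬ Q p.1 ∧ P p)) ?_).trans ?_
  · intro p hp
    by_cases h1 : Q p.1
    · exact Or.inl h1
    · exact Or.inr ⟨h1, hp⟩
  · refine (frac_or _ _).trans ?_
    rw [frac_fst]
    refine add_le_add hQ (frac_prod_le' _ ε ?_ hε)
    intro c
    by_cases h1 : Q c
    · rw [frac_false]
      · exact hε
      · intro a ha
        exact ha.1 h1
    · exact (frac_mono (fun a ha => ha.2)).trans (h c h1)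

/-- A partially defined injection of a finite set extends to a permutation. -/
lemma exists_perm_extend {Y : Type} (Φ : Finset Y) (f : Y → Y) (hf : Function.Injective f) :
    ∃ e : Equiv.Perm Φ, ∀ q : Φ, f q ∈ Φ → (e q : Y) = f q := by
  classical
  obtain ⟨g, hg⟩ := Finset.exists_equiv_extend_of_card_eq (α := Φ) (β := Y) (t := Φ)
    (by rw [Fintype.card_coe]) (s := univ.filter (fun q : Φ => f q ∈ Φ)) (f := fun q => f q)
    (by
      intro y hy
      rw [mem_image] at hy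
      obtain ⟨q, hq, rfl⟩ := hy
      rw [mem_filter] at hq
      exact hq.2)
    (by
      intro a _ b _ h
      exact Subtype.ext (hf h))
  exact ⟨g, fun q hq => hg q (by
    rw [mem_filter]
    exact ⟨mem_univ _, hq⟩)⟩

/-- The cocycle `σ(hq)⁻¹ h σ(q)`. -/
def coc {H : Type} [Group H] (N : Subgroup H) (h : H) (q : H ⧸ N) : N :=
  ⟨(Quotient.out (h • q))⁻¹ * h * Quotient.out q, by
    have h1 : ((Quotient.out (h • q) : H) : H ⧸ N) = h • q := Quotient.out_eq _
    have h2 : ((h * Quotient.out q : H) : H ⧸ N) = h • q := by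
      conv_rhs => rw [← Quotient.out_eq q]
      rfl
    have h3 : ((Quotient.out (h • q) : H) : H ⧸ N) = ((h * Quotient.out q : H) : H ⧸ N) := by
      rw [h1, h2]
    rw [mul_assoc]
    exact QuotientGroup.eq.1 h3⟩

lemma coc_one {H : Type} [Group H] (N : Subgroup H) (q : H ⧸ N) : coc N 1 q = 1 := by
  apply Subtype.ext
  simp [coc]

lemma coc_mul {H : Type} [Group H] (N : Subgroup H) (g h : H) (q : H ⧸ N) :
    coc N (g * h) q = coc N g (h • q) * coc N h q := by
  apply Subtype.ext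
  simp only [coc, Subgroup.coe_mul, mul_smul]
  group

lemma coc_act {H X : Type} [Group H] (N : Subgroup H) (α : H →* Equiv.Perm X) (g : H) (q : H ⧸ N)
    (x : X) : α ((Quotient.out (g • q))⁻¹) (α g x)
      = α (coc N g q : H) (α ((Quotient.out q)⁻¹) x) := by
  have h1 : ((Quotient.out (g • q))⁻¹ * g : H) = (coc N g q : H) * (Quotient.out q)⁻¹ := by
    simp [coc]
  rw [← Equiv.Perm.mul_apply, ← map_mul, h1, map_mul, Equiv.Perm.mul_apply]

/-- **Co-amenable overgroups.** -/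
theorem sofic_of_coamenable {H X : Type} [Group H] (α : H →* Equiv.Perm X) (N : Subgroup H)
    (hN : CoAmenable N) (hs : IsSoficAction (α.comp N.subtype)) : IsSoficAction α := by
  classical
  apply sofic_of_good
  intro F E ε hε
  -- Følner set
  obtain ⟨Φ, hΦ, hΦF⟩ := hN (F ∪ (F ×ˢ F).image (fun p => p.1 * p.2)) (ε / 4) (by linarith)
  -- approximation of the restricted action
  obtain ⟨A, B, iA, hA, iB, ψ, π, hg⟩ := good_of_sofic (α.comp N.subtype) hs
    (((F ∪ (F ×ˢ F).image (fun p => p.1 * p.2)) ×ˢ Φ).image (fun p => coc N p.1 p.2))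
    ((Φ ×ˢ E).image (fun p => α ((Quotient.out p.1)⁻¹) p.2)) (ε / 4) (by linarith)
  have hF' : ∀ g ∈ F ∪ (F ×ˢ F).image (fun p => p.1 * p.2), ∀ q ∈ Φ,
      coc N g q ∈ ((F ∪ (F ×ˢ F).image (fun p => p.1 * p.2)) ×ˢ Φ).image
        (fun p => coc N p.1 p.2) := by
    intro g hgF q hq
    exact mem_image.2 ⟨(g, q), mem_product.2 ⟨hgF, hq⟩, rfl⟩
  have hE' : ∀ x ∈ E, ∀ q ∈ Φ, α ((Quotient.out q)⁻¹) x ∈
      (Φ ×ˢ E).image (fun p => α ((Quotient.out p.1)⁻¹) p.2) := by
    intro x hx q hq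
    exact mem_image.2 ⟨(q, x), mem_product.2 ⟨hq, hx⟩, rfl⟩
  -- the permutations of `Φ`
  have hβ : ∀ h : H, ∃ e : Equiv.Perm Φ, ∀ q : Φ, h • (q : H ⧸ N) ∈ Φ → (e q : H ⧸ N) = h • q :=
    fun h => exists_perm_extend Φ (fun q => h • q) (MulAction.injective h)
  choose β hβ using hβ
  have hβ' : ∀ (h : H) (q : Φ) (hq : h • (q : H ⧸ N) ∈ Φ), β h q = ⟨h • (q : H ⧸ N), hq⟩ :=
    fun h q hq => Subtype.ext (hβ h q hq)
  set φ : H → Equiv.Perm (Φ × A) := fun h =>
    Equiv.prodShear (β h) (fun q => if h • (q : H ⧸ N) ∈ Φ then ψ (coc N h q) else 1) with hφ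
  have hφapp : ∀ (h : H) (q : Φ) (a : A) (hq : h • (q : H ⧸ N) ∈ Φ),
      φ h (q, a) = (⟨h • (q : H ⧸ N), hq⟩, ψ (coc N h q) a) := by
    intro h q a hq
    simp only [hφ, Equiv.prodShear_apply]
    rw [hβ' h q hq, if_pos hq]
  have hbad : ∀ g ∈ F ∪ (F ×ˢ F).image (fun p => p.1 * p.2),
      frac (fun q : Φ => g • (q : H ⧸ N) ∉ Φ) ≤ ε / 4 := by
    intro g hgF
    have h1 := hΦF g hgF
    have h2 : Set.ncard {q : H ⧸ N | q ∈ Φ ∧ g • q ∉ Φ} =
        (univ.filter (fun q : Φ => g • (q : H ⧸ N) ∉ Φ)).card := by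
      rw [← Set.ncard_coe_finset]
      symm
      apply Set.ncard_congr (fun (q : Φ) _ => (q : H ⧸ N))
      · intro q hq
        rw [mem_coe, mem_filter] at hq
        exact ⟨q.2, hq.2⟩
      · intro a b _ _ h
        exact Subtype.ext h
      · intro b hb
        refine ⟨⟨b, hb.1⟩, ?_, rfl⟩
        rw [mem_coe, mem_filter]
        exact ⟨mem_univ _, hb.2⟩
    rw [frac_eq, ← h2, Fintype.card_coe]
    have h3 : (0 : ℝ) < Φ.card := by exact_mod_cast card_pos.2 hΦ
    rw [div_le_iff₀ h3]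
    exact h1
  haveI : Nonempty Φ := by
    obtain ⟨q, hq⟩ := hΦ
    exact ⟨⟨q, hq⟩⟩
  have hFsub : ∀ g ∈ F, g ∈ F ∪ (F ×ˢ F).image (fun p => p.1 * p.2) := fun g hgF =>
    mem_union_left _ hgF
  have hFmul : ∀ g ∈ F, ∀ h ∈ F, g * h ∈ F ∪ (F ×ˢ F).image (fun p => p.1 * p.2) :=
    fun g hgF h hh => mem_union_right _ (mem_image.2 ⟨(g, h), mem_product.2 ⟨hgF, hh⟩, rfl⟩)
  refine ⟨Φ × A, B, inferInstance, inferInstance, inferInstance, φ,
    fun p x => π p.2 (α ((Quotient.out (p.1 : H ⧸ N))⁻¹) x), ?_, ?_, ?_, ?_⟩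
  · ext p : 1
    obtain ⟨q, a⟩ := p
    have h1 : (1 : H) • (q : H ⧸ N) ∈ Φ := by
      rw [one_smul]
      exact q.2
    rw [hφapp 1 q a h1, coc_one, hg.one]
    refine Prod.ext (Subtype.ext ?_) rfl
    exact one_smul _ _
  · intro g hgF h hh
    have h1 := hbad h (hFsub h hh)
    have h2 := hbad (g * h) (hFmul g hgF h hh)
    have h3 : frac (fun q : Φ => h • (q : H ⧸ N) ∉ Φ ∨ (g * h) • (q : H ⧸ N) ∉ Φ) ≤ ε / 2 := by
      refine (frac_or _ _).trans ?_
      linarith
    refine (frac_pair _ _ (ε / 2) (ε / 4) h3 ?_ (by linarith)).trans (by linarith)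
    intro q hq
    push Not at hq
    obtain ⟨hq1, hq2⟩ := hq
    have hq3 : g • ((⟨h • (q : H ⧸ N), hq1⟩ : Φ) : H ⧸ N) ∈ Φ := by
      rw [← mul_smul]
      exact hq2
    refine (frac_mono (Q := fun a => ψ (coc N g (h • (q : H ⧸ N)) * coc N h q) a ≠
      ψ (coc N g (h • (q : H ⧸ N))) (ψ (coc N h q) a)) ?_).trans (hg.mul _ (hF' g
        (hFsub g hgF) _ hq1) _ (hF' h (hFsub h hh) _ q.2))
    intro a ha hcon
    apply ha
    rw [hφapp (g * h) q a hq2, hφapp h q a hq1, hφapp g _ _ hq3]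
    refine Prod.ext (Subtype.ext ?_) ?_
    · exact mul_smul _ _ _
    · rw [coc_mul]
      exact hcon
  · intro x hx y hy hxy
    refine frac_prod_le' _ _ ?_ hε.le
    intro q
    refine (hg.inj _ (hE' x hx q q.2) _ (hE' y hy q q.2) ?_).trans (by linarith)
    intro h
    exact hxy ((α _).injective h)
  · intro g hgF x hx
    refine (frac_pair _ _ (ε / 4) (ε / 4) (hbad g (hFsub g hgF)) ?_ (by linarith)).trans
      (by linarith)
    intro q hq
    push Not at hq
    refine (frac_mono (Q := fun a => π (ψ (coc N g q) a)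
      ((α.comp N.subtype) (coc N g q) (α ((Quotient.out (q : H ⧸ N))⁻¹) x)) ≠
      π a (α ((Quotient.out (q : H ⧸ N))⁻¹) x)) ?_).trans (hg.equi _ (hF' g
        (hFsub g hgF) _ q.2) _ (hE' x hx q q.2))
    intro a ha hcon
    apply ha
    rw [hφapp g q a hq]
    simp only
    rw [coc_act]
    exact hcon

end SoficAct
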