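import Mathlib

/-!
# Sofic groups, sofic actions, generalized wreath products

Definitions, exactly as in the problem file, and the notions used in the results.
-/

open Finset

noncomputable section

namespace SoficAct

/-- The proportion of the elements of the finite set `A` with the property `P`. -/
def frac {A : Type} [Fintype A] (P : A → Prop) : ℝ :=
  by classical exact ((univ.filter P).card : ℝ) / (Fintype.card A : ℝ)

/-- Normalized Hamming distance on `Sym(A)`. -/
def hamming {A : Type} [Fintype A] (σ τ : Equiv.Perm A) : ℝ := frac (fun a => σ a ≠ τ a)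

/-- Sofic groups. -/
def IsSoficGroup (G : Type) [Group G] : Prop :=
  ∀ (F : Finset G) (ε : ℝ), 0 < ε → ∃ (A : Type) (_ : Fintype A) (_ : Nonempty A)
    (φ : G → Equiv.Perm A), φ 1 = 1 ∧ (∀ g ∈ F, ∀ h ∈ F, hamming (φ (g * h)) (φ g * φ h) < ε) ∧
      ∀ g ∈ F, g ≠ 1 → 1 - ε < hamming 1 (φ g)

/-- `φ` is an `(F, E, ε)`-orbit approximation of the action `α` of `H` on `X`. -/
def IsOrbitApprox {H X : Type} [Group H] (α : H →* Equiv.Perm X) (F : Finset H) (E : Finset X)
    (ε : ℝ) {A : Type} [Fintype A] (φ : H → Equiv.Perm A) : Prop :=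
  ∃ (B : Type) (_ : Finite B) (S : Finset A) (π : A → X → B),
    (1 - ε) * (Fintype.card A : ℝ) < (S.card : ℝ) ∧
    (∀ s ∈ S, Set.InjOn (π s) (E : Set X)) ∧
    ∀ s ∈ S, ∀ g ∈ F, ∀ x ∈ E, φ g s ∈ S → α g⁻¹ x ∈ E → π (φ g s) x = π s (α g⁻¹ x)

/-- Sofic actions. -/
def IsSoficAction {H X : Type} [Group H] (α : H →* Equiv.Perm X) : Prop :=
  ∀ (F : Finset H) (E : Finset X) (ε : ℝ), 0 < ε → ∃ (A : Type) (_ : Fintype A) (_ : Nonempty A)
    (φ : H → Equiv.Perm A), φ 1 = 1 ∧ (∀ g ∈ F, ∀ h ∈ F, hamming (φ (g * h)) (φ g * φ h) < ε) ∧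
      IsOrbitApprox α F E ε φ

/-- The direct sum `G^{⊕X}`: functions with finite support. -/
def DirectSum (G X : Type) [Group G] : Subgroup (X → G) where
  carrier := {f | {x | f x ≠ 1}.Finite}
  mul_mem' := by
    intro f g hf hg
    refine (hf.union hg).subset ?_
    intro x hx
    by_contra h
    simp only [Set.mem_union, Set.mem_ofPred_eq, not_or, not_not] at h
    exact hx (by rw [Pi.mul_apply, h.1, h.2, one_mul])
  one_mem' := by simp
  inv_mem' := by
    intro f hf
    refine hf.subset ?_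
    intro x hx h
    exact hx (by rw [Pi.inv_apply, h, inv_one])

/-- The automorphism `β(h)`: `(g_x) ↦ (g_{α(h)⁻¹ x})`. -/
def shift (G : Type) {H X : Type} [Group G] [Group H] (α : H →* Equiv.Perm X) (h : H) :
    DirectSum G X ≃* DirectSum G X where
  toFun f := ⟨fun x => f.1 ((α h)⁻¹ x), by
    refine (f.2.image (fun x => α h x)).subset ?_
    intro x hx
    exact ⟨(α h)⁻¹ x, hx, by simp⟩⟩
  invFun f := ⟨fun x => f.1 (α h x), by
    refine (f.2.image (fun x => (α h)⁻¹ x)).subset ?_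
    intro x hx
    exact ⟨α h x, hx, by simp⟩⟩
  left_inv f := by
    apply Subtype.ext
    funext x
    simp
  right_inv f := by
    apply Subtype.ext
    funext x
    simp
  map_mul' f g := rfl

/-- The action of `H` on the direct sum. -/
def shiftHom (G : Type) {H X : Type} [Group G] [Group H] (α : H →* Equiv.Perm X) :
    H →* MulAut (DirectSum G X) where
  toFun := shift G α
  map_one' := by
    apply MulEquiv.ext
    intro f
    apply Subtype.ext
    funext x
    change f.1 ((α 1)⁻¹ x) = f.1 x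
    rw [map_one, inv_one, Equiv.Perm.one_apply]
  map_mul' h k := by
    apply MulEquiv.ext
    intro f
    apply Subtype.ext
    funext x
    change f.1 ((α (h * k))⁻¹ x) = f.1 ((α k)⁻¹ ((α h)⁻¹ x))
    rw [map_mul, mul_inv_rev, Equiv.Perm.mul_apply]

/-- The generalized wreath product `G ≀_α H = G^{⊕X} ⋊ H`. -/
abbrev GenWreath (G : Type) {H X : Type} [Group G] [Group H] (α : H →* Equiv.Perm X) : Type :=
  DirectSum G X ⋊[shiftHom G α] H

/-- Amenable groups (Følner's condition). -/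
def IsAmenable (K : Type) [Group K] : Prop :=
  ∀ (F : Finset K) (ε : ℝ), 0 < ε → ∃ D : Finset K, D.Nonempty ∧
    ∀ g ∈ F, (Set.ncard {k : K | k ∈ D ∧ g * k ∉ D} : ℝ) ≤ ε * D.card

/-- The stabilizer of `x`. -/
def stab {H X : Type} [Group H] (α : H →* Equiv.Perm X) (x : X) : Subgroup H where
  carrier := {h | α h x = x}
  mul_mem' := by
    intro a b ha hb
    change α (a * b) x = x
    rw [map_mul, Equiv.Perm.mul_apply]
    rw [show α b x = x from hb]
    exact ha
  one_mem' := by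
    change α 1 x = x
    simp
  inv_mem' := by
    intro a ha
    change α a⁻¹ x = x
    rw [map_inv, Equiv.Perm.inv_eq_iff_eq]
    exact ha.symm

/-- `N` is co-amenable in `H`: the set `H ⧸ N` has almost invariant finite subsets. -/
def CoAmenable {H : Type} [Group H] (N : Subgroup H) : Prop :=
  ∀ (F : Finset H) (ε : ℝ), 0 < ε → ∃ Φ : Finset (H ⧸ N), Φ.Nonempty ∧
    ∀ g ∈ F, (Set.ncard {q : H ⧸ N | q ∈ Φ ∧ g • q ∉ Φ} : ℝ) ≤ ε * Φ.card

/-- Every fibre `f⁻¹(x)` has almost `H_x`-invariant finite subsets. -/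
def AmenableFibres {H X Y : Type} [Group H] (β : H →* Equiv.Perm Y) (α : H →* Equiv.Perm X)
    (f : Y → X) : Prop :=
  ∀ (x : X) (F : Finset H) (ε : ℝ), 0 < ε → (∀ g ∈ F, α g x = x) →
    ∃ D : Finset Y, D.Nonempty ∧ (∀ y ∈ D, f y = x) ∧
      ∀ g ∈ F, (Set.ncard {y : Y | y ∈ D ∧ β g y ∉ D} : ℝ) ≤ ε * D.card

/-- `P` is the amalgamated free product (the pushout) of `G₁` and `G₂` over `C`. -/
structure IsAmalgam {C G₁ G₂ P : Type} [Group C] [Group G₁] [Group G₂] [Group P] (i₁ : C →* G₁)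
    (i₂ : C →* G₂) (j₁ : G₁ →* P) (j₂ : G₂ →* P) : Prop where
  comm : j₁.comp i₁ = j₂.comp i₂
  desc : ∀ (K : Type) [Group K] (f₁ : G₁ →* K) (f₂ : G₂ →* K), f₁.comp i₁ = f₂.comp i₂ →
    ∃ f : P →* K, f.comp j₁ = f₁ ∧ f.comp j₂ = f₂
  uniq : ∀ (K : Type) [Group K] (f g : P →* K), f.comp j₁ = g.comp j₁ → f.comp j₂ = g.comp j₂ →
    f = g

/-- Very flexible stability in permutations: every almost action on a finite set is close to the
restriction of an action on a larger finite set. -/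
def VeryFlexiblyStable (H : Type) [Group H] : Prop :=
  ∀ (F : Finset H) (ε : ℝ), 0 < ε → ∃ (F' : Finset H) (δ : ℝ), 0 < δ ∧
    ∀ (A : Type) [Fintype A] [Nonempty A] (φ : H → Equiv.Perm A), φ 1 = 1 →
      (∀ g ∈ F', ∀ h ∈ F', hamming (φ (g * h)) (φ g * φ h) < δ) →
      ∃ (A' : Type) (_ : Finite A') (j : A → A') (ρ : H →* Equiv.Perm A'), Function.Injective j ∧
        ∀ g ∈ F, frac (fun a => ρ g (j a) ≠ j (φ g a)) ≤ ε

/-- Locally embeddable into amenable groups. -/
def IsLEA (W : Type) [Group W] : Prop :=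
  ∀ F : Finset W, ∃ (M : Type) (_ : Group M) (f : W → M), IsAmenable M ∧ Set.InjOn f F ∧
    ∀ g ∈ F, ∀ h ∈ F, f (g * h) = f g * f h

end SoficAct
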