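import Pool.Agent.Lib.MP_2d1e68_al.Core

/-!
# Counting
-/

open Finset

noncomputable section

namespace SoficAct

/-! ## Counting -/

lemma frac_eq {A : Type} [Fintype A] (P : A → Prop) [DecidablePred P] :
    frac P = ((univ.filter P).card : ℝ) / (Fintype.card A : ℝ) := by
  unfold frac
  congr!

lemma frac_nonneg {A : Type} [Fintype A] (P : A → Prop) : 0 ≤ frac P := by
  unfold frac
  positivity

lemma frac_le_one {A : Type} [Fintype A] (P : A → Prop) : frac P ≤ 1 := by
  classical
  unfold frac
  apply div_le_one_of_le₀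
  · exact_mod_cast card_le_univ _
  · positivity

lemma frac_mono {A : Type} [Fintype A] {P Q : A → Prop} (h : ∀ a, P a → Q a) :
    frac P ≤ frac Q := by
  classical
  unfold frac
  apply div_le_div_of_nonneg_right _ (by positivity)
  exact_mod_cast card_le_card (fun a ha => by
    rw [mem_filter] at ha ⊢
    exact ⟨ha.1, h a ha.2⟩)

lemma frac_false {A : Type} [Fintype A] {P : A → Prop} (h : ∀ a, ¬ P a) : frac P = 0 := by
  classical
  unfold frac
  rw [filter_false_of_mem (fun a _ => h a)]
  simp

lemma frac_or {A : Type} [Fintype A] (P Q : A → Prop) :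
    frac (fun a => P a ∨ Q a) ≤ frac P + frac Q := by
  classical
  rw [frac_eq, frac_eq, frac_eq, ← add_div]
  apply div_le_div_of_nonneg_right _ (by positivity)
  rw [filter_or]
  exact_mod_cast card_union_le _ _

lemma frac_exists {A ι : Type} [Fintype A] (s : Finset ι) (P : ι → A → Prop) :
    frac (fun a => ∃ i ∈ s, P i a) ≤ ∑ i ∈ s, frac (P i) := by
  classical
  induction s using Finset.induction_on with
  | empty =>
    rw [frac_false (by simp)]
    simp
  | insert i s hi ih =>
    rw [sum_insert hi]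
    refine le_trans (frac_mono (Q := fun a => P i a ∨ ∃ j ∈ s, P j a) ?_)
      ((frac_or _ _).trans (by linarith))
    rintro a ⟨j, hj, hP⟩
    rw [mem_insert] at hj
    rcases hj with rfl | hj
    · exact Or.inl hP
    · exact Or.inr ⟨j, hj, hP⟩

lemma frac_exists_le {A ι : Type} [Fintype A] (s : Finset ι) (P : ι → A → Prop) (ε : ℝ)
    (h : ∀ i ∈ s, frac (P i) ≤ ε) : frac (fun a => ∃ i ∈ s, P i a) ≤ s.card * ε := by
  refine (frac_exists s P).trans ?_
  refine (sum_le_sum h).trans ?_
  rw [sum_const, nsmul_eq_mul]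

lemma frac_perm {A : Type} [Fintype A] (P : A → Prop) (σ : Equiv.Perm A) :
    frac (fun a => P (σ a)) = frac P := by
  classical
  unfold frac
  congr 2
  apply card_bij (fun a _ => σ a)
  · intro a ha
    rw [mem_filter] at ha ⊢
    exact ⟨mem_univ _, ha.2⟩
  · intro a _ b _ h
    exact σ.injective h
  · intro b hb
    rw [mem_filter] at hb
    refine ⟨σ.symm b, ?_, σ.apply_symm_apply b⟩
    rw [mem_filter]
    exact ⟨mem_univ _, by rw [σ.apply_symm_apply]; exact hb.2⟩

lemma card_filter_le_of_frac {A : Type} [Fintype A] (P : A → Prop) [DecidablePred P] (ε : ℝ)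
    (h : frac P ≤ ε) : ((univ.filter P).card : ℝ) ≤ ε * Fintype.card A := by
  rw [frac_eq] at h
  rcases Nat.eq_zero_or_pos (Fintype.card A) with h0 | h0
  · have h1 : IsEmpty A := Fintype.card_eq_zero_iff.1 h0
    rw [h0]
    have : (univ.filter P) = ∅ := by
      ext a
      exact h1.elim a
    rw [this]
    simp
  · have h1 : (0 : ℝ) < Fintype.card A := by exact_mod_cast h0
    rwa [div_le_iff₀ h1] at h

lemma frac_prod_le {A C : Type} [Fintype A] [Fintype C] (P : A × C → Prop) (ε : ℝ)
    (h : ∀ c, frac (fun a => P (a, c)) ≤ ε) (hε : 0 ≤ ε) : frac P ≤ ε := by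
  classical
  unfold frac
  apply div_le_of_le_mul₀ (by positivity) hε
  have h1 : (univ.filter P).card = ∑ c : C, (univ.filter (fun a : A => P (a, c))).card := by
    rw [card_eq_sum_card_fiberwise (f := fun p : A × C => p.2) (t := univ) (by simp)]
    apply sum_congr rfl
    intro c _
    apply card_bij (fun p _ => p.1)
    · intro p hp
      simp only [mem_filter, mem_univ, true_and] at hp ⊢
      obtain ⟨h2, h3⟩ := hp
      rw [← h3]
      exact h2
    · intro p hp q hq h2
      simp only [mem_filter, mem_univ, true_and] at hp hq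
      exact Prod.ext h2 (hp.2.trans hq.2.symm)
    · intro a ha
      simp only [mem_filter, mem_univ, true_and] at ha
      exact ⟨(a, c), by simp [ha], rfl⟩
  rw [h1]
  push_cast
  refine (sum_le_sum (fun c _ => card_filter_le_of_frac _ ε (h c))).trans ?_
  rw [sum_const, card_univ, Fintype.card_prod, nsmul_eq_mul]
  push_cast
  apply le_of_eq
  ring

lemma frac_prod_le' {A C : Type} [Fintype A] [Fintype C] (P : A × C → Prop) (ε : ℝ)
    (h : ∀ a, frac (fun c => P (a, c)) ≤ ε) (hε : 0 ≤ ε) : frac P ≤ ε := by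
  classical
  have h1 : frac P = frac (fun p : C × A => P (p.2, p.1)) := by
    unfold frac
    congr 1
    · congr 1
      apply card_bij (fun p _ => (p.2, p.1))
      · intro p hp
        simpa using hp
      · intro p _ q _ h2
        simp only [Prod.mk.injEq] at h2
        exact Prod.ext h2.2 h2.1
      · intro p hp
        exact ⟨(p.2, p.1), by simpa using hp, rfl⟩
    · rw [Fintype.card_prod, Fintype.card_prod, mul_comm]
  rw [h1]
  exact frac_prod_le _ ε h hε

/-! ## Reformulation with proportions -/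

/-- An approximation with all errors at most `ε`. -/
structure Good {H X : Type} [Group H] (α : H →* Equiv.Perm X) (F : Finset H) (E : Finset X) (ε : ℝ)
    {A B : Type} [Fintype A] (φ : H → Equiv.Perm A) (π : A → X → B) : Prop where
  one : φ 1 = 1
  mul : ∀ g ∈ F, ∀ h ∈ F, frac (fun a => φ (g * h) a ≠ φ g (φ h a)) ≤ ε
  inj : ∀ x ∈ E, ∀ y ∈ E, x ≠ y → frac (fun a => π a x = π a y) ≤ ε
  equi : ∀ g ∈ F, ∀ x ∈ E, frac (fun a => π (φ g a) (α g x) ≠ π a x) ≤ ε

lemma good_of_sofic {H X : Type} [Group H] (α : H →* Equiv.Perm X) (hs : IsSoficAction α)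
    (F : Finset H) (E : Finset X) (ε : ℝ) (hε : 0 < ε) :
    ∃ (A B : Type) (_ : Fintype A) (_ : Nonempty A) (_ : Fintype B) (φ : H → Equiv.Perm A)
      (π : A → X → B), Good α F E ε φ π := by
  classical
  obtain ⟨A, _, hA, φ, h1, h2, B, hB, S, π, h3, h4, h5⟩ :=
    hs F (E ∪ (F ×ˢ E).image (fun p => α p.1 p.2)) (ε / 2) (by linarith)
  have hSc : frac (fun a => a ∉ S) ≤ ε / 2 := by
    rw [frac_eq]
    have hc : (0 : ℝ) < Fintype.card A := by exact_mod_cast Fintype.card_pos
    rw [div_le_iff₀ hc]
    have h6 : (univ.filter (fun a => a ∉ S)).card = Fintype.card A - S.card := by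
      have : univ.filter (fun a => a ∉ S) = Sᶜ := by
        ext a
        simp
      rw [this, card_compl]
    rw [h6, Nat.cast_sub (card_le_univ S)]
    linarith
  refine ⟨A, B, inferInstance, hA, Fintype.ofFinite B, φ, π, h1, ?_, ?_, ?_⟩
  · intro g hg h hh
    have := (h2 g hg h hh).le
    unfold hamming at this
    simp only [Equiv.Perm.mul_apply] at this
    linarith
  · intro x hx y hy hxy
    refine (frac_mono (Q := fun a => a ∉ S) ?_).trans (hSc.trans (by linarith))
    intro a ha haS
    exact hxy (h4 a haS (by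
      rw [mem_coe, mem_union]
      exact Or.inl hx) (by
      rw [mem_coe, mem_union]
      exact Or.inl hy) ha)
  · intro g hg x hx
    refine (frac_mono (Q := fun a => a ∉ S ∨ φ g a ∉ S) ?_).trans ?_
    · intro a ha
      by_contra hcon
      push Not at hcon
      apply ha
      have hxx : α g⁻¹ (α g x) = x := by simp
      have := h5 a hcon.1 g hg (α g x) (by
        rw [mem_union, mem_image]
        exact Or.inr ⟨(g, x), by simp [hg, hx], rfl⟩) hcon.2 (by
        rw [hxx, mem_union]
        exact Or.inl hx)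
      rw [hxx] at this
      exact this
    · refine (frac_or _ _).trans ?_
      have := frac_perm (fun a => a ∉ S) (φ g)
      rw [this]
      linarith

lemma sofic_of_good {H X : Type} [Group H] (α : H →* Equiv.Perm X)
    (hs : ∀ (F : Finset H) (E : Finset X) (ε : ℝ), 0 < ε →
      ∃ (A B : Type) (_ : Fintype A) (_ : Nonempty A) (_ : Finite B) (φ : H → Equiv.Perm A)
      (π : A → X → B), Good α F E ε φ π) : IsSoficAction α := by
  classical
  intro F E ε hε
  have hpos : (0 : ℝ) < (E ×ˢ E).card + (F ×ˢ E).card + 2 := by positivity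
  obtain ⟨A, B, _, hA, hB, φ, π, hg⟩ := hs F E (ε / ((E ×ˢ E).card + (F ×ˢ E).card + 2))
    (by positivity)
  set δ := ε / ((E ×ˢ E).card + (F ×ˢ E).card + 2) with hδ
  have hδpos : 0 < δ := by positivity
  have hδε : ((E ×ˢ E).card + (F ×ˢ E).card + 2) * δ = ε := by
    rw [hδ]
    field_simp
  have hc : (0 : ℝ) < Fintype.card A := by exact_mod_cast Fintype.card_pos
  refine ⟨A, inferInstance, hA, φ, hg.one, ?_, B, hB,
    univ.filter (fun a => ¬ ((∃ p ∈ E ×ˢ E, p.1 ≠ p.2 ∧ π a p.1 = π a p.2) ∨
      ∃ p ∈ F ×ˢ E, π (φ p.1 a) (α p.1 p.2) ≠ π a p.2)), π, ?_, ?_, ?_⟩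
  · intro g hgF h hh
    unfold hamming
    simp only [Equiv.Perm.mul_apply]
    refine (hg.mul g hgF h hh).trans_lt ?_
    have h1 : (0 : ℝ) ≤ (E ×ˢ E).card := by positivity
    have h2 : (0 : ℝ) ≤ (F ×ˢ E).card := by positivity
    nlinarith
  · have h1 : frac (fun a => (∃ p ∈ E ×ˢ E, p.1 ≠ p.2 ∧ π a p.1 = π a p.2) ∨
      ∃ p ∈ F ×ˢ E, π (φ p.1 a) (α p.1 p.2) ≠ π a p.2) ≤
        ((E ×ˢ E).card + (F ×ˢ E).card) * δ := by
      refine (frac_or _ _).trans ?_
      rw [add_mul]
      apply add_le_add
      · apply frac_exists_le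
        intro p hp
        rw [mem_product] at hp
        by_cases hne : p.1 = p.2
        · rw [frac_false (by
            intro a ha
            exact ha.1 hne)]
          exact hδpos.le
        · refine (frac_mono (fun a ha => ha.2)).trans (hg.inj _ hp.1 _ hp.2 hne)
      · apply frac_exists_le
        intro p hp
        rw [mem_product] at hp
        exact hg.equi _ hp.1 _ hp.2
    have h2 := card_filter_le_of_frac _ _ h1
    have h3 := card_filter_add_card_filter_not (s := (univ : Finset A))
      (fun a => (∃ p ∈ E ×ˢ E, p.1 ≠ p.2 ∧ π a p.1 = π a p.2) ∨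
      ∃ p ∈ F ×ˢ E, π (φ p.1 a) (α p.1 p.2) ≠ π a p.2)
    rw [card_univ] at h3
    have h4 : ((univ.filter (fun a => (∃ p ∈ E ×ˢ E, p.1 ≠ p.2 ∧ π a p.1 = π a p.2) ∨
      ∃ p ∈ F ×ˢ E, π (φ p.1 a) (α p.1 p.2) ≠ π a p.2)).card : ℝ) +
      ((univ.filter (fun a => ¬ ((∃ p ∈ E ×ˢ E, p.1 ≠ p.2 ∧ π a p.1 = π a p.2) ∨
      ∃ p ∈ F ×ˢ E, π (φ p.1 a) (α p.1 p.2) ≠ π a p.2))).card : ℝ) = Fintype.card A := by
      exact_mod_cast h3
    have h5 : ((E ×ˢ E).card + (F ×ˢ E).card) * δ < ε := by nlinarith
    nlinarith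
  · intro s hs' x hx y hy hxy
    rw [mem_filter] at hs'
    by_contra hne
    exact hs'.2 (Or.inl ⟨(x, y), by
      rw [mem_product]
      exact ⟨hx, hy⟩, hne, hxy⟩)
  · intro s hs' g hgF x hx _ hgx
    rw [mem_filter] at hs'
    by_contra hne
    apply hs'.2
    refine Or.inr ⟨(g, α g⁻¹ x), by
      rw [mem_product]
      exact ⟨hgF, hgx⟩, ?_⟩
    have hxx : α g (α g⁻¹ x) = x := by simp
    simp only [hxx]
    exact hne

/-- The proportion of a property of the first coordinate. -/
lemma frac_fst {A C : Type} [Fintype A] [Fintype C] [Nonempty C] (P : A → Prop) :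
    frac (fun p : A × C => P p.1) = frac P := by
  classical
  rw [frac_eq, frac_eq]
  have h1 : (univ.filter (fun p : A × C => P p.1)) = (univ.filter P) ×ˢ univ := by
    ext p
    simp
  have hc : (0 : ℝ) < Fintype.card C := by exact_mod_cast Fintype.card_pos
  rw [h1, card_product, Fintype.card_prod, card_univ]
  push_cast
  exact mul_div_mul_right _ _ hc.ne'

lemma frac_snd {A C : Type} [Fintype A] [Fintype C] [Nonempty A] (P : C → Prop) :
    frac (fun p : A × C => P p.2) = frac P := by
  classical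
  rw [frac_eq, frac_eq]
  have h1 : (univ.filter (fun p : A × C => P p.2)) = univ ×ˢ (univ.filter P) := by
    ext p
    simp
  have hc : (0 : ℝ) < Fintype.card A := by exact_mod_cast Fintype.card_pos
  rw [h1, card_product, Fintype.card_prod, card_univ]
  push_cast
  exact mul_div_mul_left _ _ hc.ne'

end SoficAct
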