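import Pool.Agent.Lib.MP_2d1e68_al.MinHash

set_option autoImplicit false

/-!
# MP_2d1e68_al: quotients of sofic actions with amenable fibres
-/

namespace Pool.Agent.SofAct

open Finset Classical

variable {H X Y : Type} [Group H] [MulAction H X] [MulAction H Y]

/-! ### orbit representatives -/

/-- a representative of the orbit of `x` -/
noncomputable def rep (H : Type) {X : Type} [Group H] [MulAction H X] (x : X) : X :=
  Quotient.out (Quotient.mk (MulAction.orbitRel H X) x)

lemma exists_rep (x : X) : ∃ c : H, c • rep H x = x := by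
  have h : (MulAction.orbitRel H X).r (rep H x) x :=
    Quotient.exact (Quotient.out_eq (Quotient.mk (MulAction.orbitRel H X) x))
  obtain ⟨g, hg⟩ := (MulAction.orbitRel_apply.1 h : rep H x ∈ MulAction.orbit H x)
  refine ⟨g⁻¹, ?_⟩
  have hg' : g • x = rep H x := hg
  rw [← hg', inv_smul_smul]

/-- an element that moves the representative to `x` -/
noncomputable def crep (H : Type) {X : Type} [Group H] [MulAction H X] (x : X) : H :=
  (exists_rep (H := H) x).choose

lemma crep_smul (x : X) : crep H x • rep H x = x := (exists_rep (H := H) x).choose_spec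

lemma rep_smul (g : H) (x : X) : rep H (g • x) = rep H x := by
  unfold rep
  congr 1
  apply Quotient.sound
  exact MulAction.orbitRel_apply.2 ⟨g, rfl⟩

/-- the element of the stabilizer of the representative -/
noncomputable def kk (g : H) (x : X) : H := (crep H (g⁻¹ • x))⁻¹ * g⁻¹ * crep H x

lemma kk_fix (g : H) (x : X) : kk g x • rep H x = rep H x := by
  unfold kk
  rw [mul_smul, mul_smul, crep_smul, inv_smul_eq_iff]
  have := crep_smul (H := H) (g⁻¹ • x)
  rw [rep_smul] at this
  exact this.symm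

lemma crep_kk (g : H) (x : X) : crep H (g⁻¹ • x) * kk g x = g⁻¹ * crep H x := by
  unfold kk; group

lemma image_smul_sdiff {K Z : Type} [Group K] [MulAction K Z] (k : K) (P Q : Finset Z) :
    P.image (fun y => k • y) \ Q.image (fun y => k • y) = (P \ Q).image (fun y => k • y) :=
  (image_sdiff P Q (MulAction.injective k)).symm

/-- **Quotients with amenable fibres.** -/
theorem sofic_of_fib (hY : SoficAction H Y) (q : Y → X) (hq : ∀ (g : H) (y : Y), q (g • y) = g • q y)
    (hfib : ∀ (x : X) (F : Finset H), (∀ k ∈ F, k • x = x) → ∀ δ : ℝ, 0 < δ →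
      ∃ Φ : Finset Y, Φ.Nonempty ∧ (∀ y ∈ Φ, q y = x) ∧
        ∀ k ∈ F, ((Φ.image (fun y => k • y) \ Φ).card : ℝ) ≤ δ * Φ.card) :
    SoficAction H X := by
  intro F E ε hε
  obtain ⟨δ, hδ⟩ : ∃ δ : ℝ, δ = ε / (4 * ((F.card : ℝ) * E.card + 1)) := ⟨_, rfl⟩
  have hden : (0 : ℝ) < 4 * ((F.card : ℝ) * E.card + 1) := by positivity
  have hδ0 : 0 < δ := by rw [hδ]; exact div_pos hε hden
  have hδ1 : 2 * δ * ((F.card : ℝ) * E.card) ≤ ε / 2 := by
    have h1 : δ * (4 * ((F.card : ℝ) * E.card + 1)) = ε := by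
      rw [hδ]; exact div_mul_cancel₀ _ hden.ne'
    nlinarith [hδ0]
  -- the Følner sets of the representatives
  let KK : X → Finset H := fun ρ =>
    ((F ×ˢ E).filter fun p => rep H p.2 = ρ).image fun p => kk p.1 p.2
  have hKK : ∀ ρ, ∀ k ∈ KK ρ, k • ρ = ρ := by
    intro ρ k hk
    obtain ⟨p, hp, rfl⟩ := mem_image.1 hk
    have := (mem_filter.1 hp).2
    rw [← this]
    exact kk_fix _ _
  choose Φ hΦne hΦq hΦ using fun ρ => hfib ρ (KK ρ) (hKK ρ) δ hδ0
  let fib : X → Finset Y := fun x => (Φ (rep H x)).image fun y => crep H x • y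
  have hfibne : ∀ x, (fib x).Nonempty := fun x => (hΦne _).image _
  have hfibq : ∀ x, ∀ y ∈ fib x, q y = x := by
    intro x y hy
    obtain ⟨z, hz, rfl⟩ := mem_image.1 hy
    rw [hq, hΦq _ z hz, crep_smul]
  have hfibcard : ∀ x, (fib x).card = (Φ (rep H x)).card := fun x =>
    card_image_of_injective _ (MulAction.injective _)
  have hfibdiff : ∀ g ∈ F, ∀ x ∈ E,
      ((((fib x).image fun y => g⁻¹ • y) \ fib (g⁻¹ • x)).card : ℝ) ≤ δ * (fib x).card := by
    intro g hg x hx
    have e1 : ((fib x).image fun y => g⁻¹ • y) =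
        ((Φ (rep H x)).image fun y => kk g x • y).image fun y => crep H (g⁻¹ • x) • y := by
      simp only [fib, image_image]
      apply image_congr
      intro y _
      change g⁻¹ • crep H x • y = crep H (g⁻¹ • x) • kk g x • y
      rw [← mul_smul, ← mul_smul, crep_kk]
    have e2 : fib (g⁻¹ • x) = (Φ (rep H x)).image fun y => crep H (g⁻¹ • x) • y := by
      simp only [fib, rep_smul]
    rw [e1, e2, image_smul_sdiff, card_image_of_injective _ (MulAction.injective _), hfibcard]
    apply hΦ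
    rw [mem_image]
    exact ⟨(g, x), mem_filter.2 ⟨mem_product.2 ⟨hg, hx⟩, rfl⟩, rfl⟩
  let EY : Finset Y := (E.biUnion fib) ∪
    ((F ×ˢ E).biUnion fun p => (fib p.2).image fun y => p.1⁻¹ • y)
  have hEY1 : ∀ x ∈ E, ∀ y ∈ fib x, y ∈ EY := fun x hx y hy =>
    mem_union_left _ (mem_biUnion.2 ⟨x, hx, hy⟩)
  have hEY2 : ∀ g ∈ F, ∀ x ∈ E, ∀ y ∈ fib x, g⁻¹ • y ∈ EY := fun g hg x hx y hy =>
    mem_union_right _ (mem_biUnion.2 ⟨(g, x), mem_product.2 ⟨hg, hx⟩, mem_image_of_mem _ hy⟩)
  obtain ⟨A, iA, nA, φ, hφ1, hφm, hφo⟩ := hY F EY (ε / 2) (by linarith)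
  obtain ⟨B, fB, S, π, hS, hinj, hπ⟩ := hφo.exists_total
  have fB' : Fintype B := Fintype.ofFinite B
  obtain ⟨n, hn⟩ : ∃ n, n = Fintype.card B := ⟨_, rfl⟩
  have nP : Nonempty (B ≃ Fin n) := ⟨by rw [hn]; exact Fintype.equivFin B⟩
  let U : A → X → Finset B := fun s x => (fib x).image (π s)
  have hcA : (0 : ℝ) < Fintype.card A := by exact_mod_cast Fintype.card_pos
  have hcP : (0 : ℝ) < Fintype.card (B ≃ Fin n) := by exact_mod_cast Fintype.card_pos
  -- comparison of the sets of labels
  have hU : ∀ s ∈ S, ∀ g ∈ F, ∀ x ∈ E, φ g s ∈ S → g⁻¹ • x ∈ E →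
      ((univ.filter fun σ : B ≃ Fin n => mset σ (U (φ g s) x) ≠ mset σ (U s (g⁻¹ • x))).card : ℝ) ≤
        2 * δ * Fintype.card (B ≃ Fin n) := by
    intro s hs g hg x hx h1 h2
    have e1 : U (φ g s) x = ((fib x).image fun y => g⁻¹ • y).image (π s) := by
      simp only [U, image_image]
      apply image_congr
      intro y hy
      exact hπ s hs g hg y (hEY1 x hx y hy) h1 (hEY2 g hg x hx y hy)
    have c1 : (U (φ g s) x).card = (fib x).card :=
      card_image_of_injOn ((hinj _ h1).mono fun y hy => hEY1 x hx y hy)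
    have c2 : (U s (g⁻¹ • x)).card = (fib (g⁻¹ • x)).card :=
      card_image_of_injOn ((hinj _ hs).mono fun y hy => hEY1 _ h2 y hy)
    apply minhash
    · rw [c1, c2, hfibcard, hfibcard, rep_smul]
    · exact (hfibne x).image _
    · rw [c1, e1]
      refine le_trans ?_ (hfibdiff g hg x hx)
      have hsub : ((fib x).image fun y => g⁻¹ • y).image (π s) \ U s (g⁻¹ • x) ⊆
          (((fib x).image fun y => g⁻¹ • y) \ fib (g⁻¹ • x)).image (π s) := by
        intro b hb
        rw [mem_sdiff] at hb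
        obtain ⟨y, hy, rfl⟩ := mem_image.1 hb.1
        refine mem_image_of_mem _ (mem_sdiff.2 ⟨hy, fun hcon => hb.2 (mem_image_of_mem _ hcon)⟩)
      exact_mod_cast (card_le_card hsub).trans card_image_le
  let φ' : H → Equiv.Perm (A × (B ≃ Fin n)) := fun g => (φ g).prodCongr (Equiv.refl _)
  refine ⟨A × (B ≃ Fin n), inferInstance, inferInstance, φ', ?_, ?_, ?_⟩
  · ext p <;> simp [φ', hφ1]
  · intro g hg h hh
    rw [hd_lt_iff]
    have h1 := (hd_lt_iff _ _ _).1 (hφm g hg h hh)
    have h4 : (((univ.filter fun a => φ (g * h) a ≠ (φ g * φ h) a) ×ˢ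
        (univ : Finset (B ≃ Fin n))).card : ℝ) < ε * Fintype.card (A × (B ≃ Fin n)) := by
      rw [card_product, card_univ, Fintype.card_prod, Nat.cast_mul, Nat.cast_mul]
      have h2 : ε / 2 * (Fintype.card A : ℝ) ≤ ε * Fintype.card A := by nlinarith
      have h3 := mul_lt_mul_of_pos_right (h1.trans_le h2) hcP
      linarith
    refine lt_of_eq_of_lt ?_ h4
    congr 2
    ext p
    obtain ⟨a, σ⟩ := p
    simp only [mem_filter, mem_product, mem_univ, true_and, and_true]
    show ((φ (g * h) a, σ) ≠ (φ g (φ h a), σ)) ↔ _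
    rw [ne_eq, Prod.mk.injEq, and_iff_left rfl]
    rfl
  · let S' : Finset (A × (B ≃ Fin n)) := univ.filter fun p => p.1 ∈ S ∧
      ∀ g ∈ F, ∀ x ∈ E, φ g p.1 ∈ S → g⁻¹ • x ∈ E →
        mset p.2 (U (φ g p.1) x) = mset p.2 (U p.1 (g⁻¹ • x))
    refine orbitApprox_of F E ε φ' (B := Finset B) S' (fun p x => mset p.2 (U p.1 x)) ?_ ?_ ?_
    · -- counting
      let T1 : Finset (A × (B ≃ Fin n)) := Sᶜ ×ˢ univ
      let T2 : H × X → Finset (A × (B ≃ Fin n)) := fun r => univ.filter fun p =>
        p.1 ∈ S ∧ φ r.1 p.1 ∈ S ∧ r.1⁻¹ • r.2 ∈ E ∧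
          mset p.2 (U (φ r.1 p.1) r.2) ≠ mset p.2 (U p.1 (r.1⁻¹ • r.2))
      have hcov : S'ᶜ ⊆ T1 ∪ (F ×ˢ E).biUnion T2 := by
        intro p hp
        rw [mem_compl, mem_filter, not_and] at hp
        have hp' := hp (mem_univ _)
        rw [mem_union]
        by_cases h1 : p.1 ∈ S
        · right
          have h2 : ¬ ∀ g ∈ F, ∀ x ∈ E, φ g p.1 ∈ S → g⁻¹ • x ∈ E →
              mset p.2 (U (φ g p.1) x) = mset p.2 (U p.1 (g⁻¹ • x)) := fun h => hp' ⟨h1, h⟩
          push Not at h2
          obtain ⟨g, hg, x, hx, h3, h4, h5⟩ := h2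
          rw [mem_biUnion]
          exact ⟨(g, x), mem_product.2 ⟨hg, hx⟩, mem_filter.2 ⟨mem_univ _, h1, h3, h4, h5⟩⟩
        · left
          exact mem_product.2 ⟨mem_compl.2 h1, mem_univ _⟩
      have hT2 : ∀ r ∈ F ×ˢ E, ((T2 r).card : ℝ) ≤
          Fintype.card A * (2 * δ * Fintype.card (B ≃ Fin n)) := by
        intro r hr
        obtain ⟨hr1, hr2⟩ := mem_product.1 hr
        have h1 : (T2 r).card ≤ ∑ s : A, (univ.filter fun σ : B ≃ Fin n => (s, σ) ∈ T2 r).card := by
          rw [← card_sigma]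
          refine card_le_card_of_injOn (fun p => ⟨p.1, p.2⟩) ?_ ?_
          · intro p hp
            have hp' : p ∈ T2 r := hp
            simp [hp']
          · intro p _ p' _ h
            simp only [Sigma.mk.injEq, heq_eq_eq] at h
            exact Prod.ext h.1 h.2
        have h2 : ∀ s : A, ((univ.filter fun σ : B ≃ Fin n => (s, σ) ∈ T2 r).card : ℝ) ≤
            2 * δ * Fintype.card (B ≃ Fin n) := by
          intro s
          by_cases hs : s ∈ S ∧ φ r.1 s ∈ S ∧ r.1⁻¹ • r.2 ∈ E
          · refine le_trans ?_ (hU s hs.1 r.1 hr1 r.2 hr2 hs.2.1 hs.2.2)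
            have : (univ.filter fun σ : B ≃ Fin n => (s, σ) ∈ T2 r) ⊆
                univ.filter fun σ : B ≃ Fin n =>
                  mset σ (U (φ r.1 s) r.2) ≠ mset σ (U s (r.1⁻¹ • r.2)) := by
              intro σ hσ
              have h3 := (mem_filter.1 hσ).2
              have h4 := (mem_filter.1 h3).2
              exact mem_filter.2 ⟨mem_univ _, h4.2.2.2⟩
            exact_mod_cast card_le_card this
          · have : (univ.filter fun σ : B ≃ Fin n => (s, σ) ∈ T2 r) = ∅ := by
              rw [filter_eq_empty_iff]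
              intro σ _ hσ
              have h4 := (mem_filter.1 hσ).2
              exact hs ⟨h4.1, h4.2.1, h4.2.2.1⟩
            rw [this, card_empty]
            push_cast
            positivity
        have h3 : ((T2 r).card : ℝ) ≤
            ∑ s : A, ((univ.filter fun σ : B ≃ Fin n => (s, σ) ∈ T2 r).card : ℝ) := by
          exact_mod_cast h1
        refine h3.trans ((sum_le_sum fun s _ => h2 s).trans ?_)
        rw [sum_const, card_univ, nsmul_eq_mul]
      have hT : ((S'ᶜ).card : ℝ) ≤ ((Fintype.card A : ℝ) - S.card) * Fintype.card (B ≃ Fin n) +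
          (F.card * E.card : ℝ) * (Fintype.card A * (2 * δ * Fintype.card (B ≃ Fin n))) := by
        have h1 : (S'ᶜ).card ≤ T1.card + ∑ r ∈ F ×ˢ E, (T2 r).card :=
          (card_le_card hcov).trans ((card_union_le _ _).trans
            (Nat.add_le_add_left card_biUnion_le _))
        have h2 : (T1.card : ℝ) = ((Fintype.card A : ℝ) - S.card) * Fintype.card (B ≃ Fin n) := by
          simp only [T1]
          rw [card_product, card_univ, card_compl]
          rw [Nat.cast_mul, Nat.cast_sub (card_le_univ S)]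
        have h3 : ((S'ᶜ).card : ℝ) ≤ T1.card + ∑ r ∈ F ×ˢ E, ((T2 r).card : ℝ) := by
          exact_mod_cast h1
        rw [h2] at h3
        refine h3.trans (add_le_add_right ((sum_le_sum hT2).trans ?_) _)
        rw [sum_const, card_product, nsmul_eq_mul]
        push_cast
        exact le_rfl
      have hc : ((S'ᶜ).card : ℝ) = Fintype.card (A × (B ≃ Fin n)) - S'.card := by
        rw [card_compl, Nat.cast_sub (card_le_univ S')]
      rw [hc, Fintype.card_prod] at hT
      rw [Fintype.card_prod]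
      push_cast at hT ⊢
      have h4 : ((Fintype.card A : ℝ) - S.card) < ε / 2 * Fintype.card A := by linarith
      have h5 := mul_lt_mul_of_pos_right h4 hcP
      have h6 : (F.card * E.card : ℝ) * (Fintype.card A * (2 * δ * Fintype.card (B ≃ Fin n))) ≤
          ε / 2 * (Fintype.card A * Fintype.card (B ≃ Fin n)) := by
        have := mul_le_mul_of_nonneg_right hδ1 (mul_pos hcA hcP).le
        linarith
      linarith
    · intro p hp x hx y hy hxy
      have hp' := (mem_filter.1 (mem_coe.1 hp)).2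
      obtain ⟨b, hb⟩ := mset_nonempty p.2 ((hfibne x).image (π p.1))
      have hb2 : b ∈ mset p.2 (U p.1 y) := by
        have hxy' : mset p.2 (U p.1 x) = mset p.2 (U p.1 y) := hxy
        rw [← hxy']
        exact hb
      obtain ⟨y1, h1, e1⟩ := mem_image.1 (mset_subset _ _ hb)
      obtain ⟨y2, h2, e2⟩ := mem_image.1 (mset_subset _ _ hb2)
      have := hinj p.1 hp'.1 (hEY1 x hx y1 h1) (hEY1 y hy y2 h2) (e1.trans e2.symm)
      rw [← hfibq x y1 h1, this, hfibq y y2 h2]
    · intro p hp g hg x hx h1 h2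
      have hp' := (mem_filter.1 hp).2
      have h1' := (mem_filter.1 h1).2
      exact hp'.2 g hg x hx h1'.1 h2

end Pool.Agent.SofAct
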