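import Pool.Agent.Lib.MP_2d1e68_al.Hash

/-!
# The fibre theorem

Let `f : Y → X` be an equivariant map of `H`-sets.  If `Y` is sofic and every fibre `f⁻¹(x)` has
almost `H_x`-invariant finite subsets then `X` is sofic.
-/

open Finset

noncomputable section

namespace SoficAct

/-- Orbit representatives. -/
lemma exists_reps {H X : Type} [Group H] (α : H →* Equiv.Perm X) :
    ∃ (r : X → X) (u : X → H), (∀ x, α (u x) (r x) = x) ∧ ∀ h x, r (α h x) = r x := by
  classical
  let s : Setoid X :=
    { r := fun x y => ∃ h, α h x = y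
      iseqv := by
        refine ⟨fun x => ⟨1, by simp⟩, ?_, ?_⟩
        · rintro x y ⟨h, rfl⟩
          exact ⟨h⁻¹, by simp⟩
        · rintro x y z ⟨h, rfl⟩ ⟨k, rfl⟩
          exact ⟨k * h, by simp⟩ }
  have h1 : ∀ x : X, ∃ h, α h (Quotient.out (Quotient.mk s x)) = x := by
    intro x
    have := Quotient.mk_out (s := s) x
    exact this
  choose u hu using h1
  refine ⟨fun x => Quotient.out (Quotient.mk s x), u, hu, ?_⟩
  intro h x
  have : Quotient.mk s (α h x) = Quotient.mk s x := by
    apply Quotient.sound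
    exact ⟨h⁻¹, by simp⟩
  exact congrArg Quotient.out this

/-- An almost invariant system of finite subsets of the fibres. -/
lemma exists_system {H X Y : Type} [Group H] [DecidableEq Y] (β : H →* Equiv.Perm Y)
    (α : H →* Equiv.Perm X)
    (f : Y → X) (hf : ∀ h y, f (β h y) = α h (f y)) (hA : AmenableFibres β α f)
    (F : Finset H) (E : Finset X) (δ : ℝ) (hδ : 0 < δ) :
    ∃ D : X → Finset Y, (∀ x, (D x).Nonempty) ∧ (∀ x, ∀ y ∈ D x, f y = x) ∧
      ∀ g ∈ F, ∀ x ∈ E, (D (α g x)).card = (D x).card ∧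
        (((D x).image (β g) \ D (α g x)).card : ℝ) ≤ δ * (D x).card ∧
        ((D (α g x) \ (D x).image (β g)).card : ℝ) ≤ δ * (D x).card := by
  classical
  obtain ⟨r, u, hu, hr⟩ := exists_reps α
  set K : Finset H := (F ×ˢ E).image (fun p => (u (α p.1 p.2))⁻¹ * p.1 * u p.2) with hK
  have hD := fun z : X => hA z (K.filter (fun k => α k z = z)) δ hδ (by
    intro g hg
    exact (mem_filter.1 hg).2)
  choose D₀ hne hfib hinv using hD
  have hcard : ∀ x, ((D₀ (r x)).image (β (u x))).card = (D₀ (r x)).card :=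
    fun x => card_image_of_injective _ (β (u x)).injective
  refine ⟨fun x => (D₀ (r x)).image (β (u x)), ?_, ?_, ?_⟩
  · intro x
    exact (hne (r x)).image _
  · intro x y hy
    rw [mem_image] at hy
    obtain ⟨y', hy', rfl⟩ := hy
    rw [hf, hfib _ y' hy', hu]
  · intro g hg x hx
    have hc1 : ((D₀ (r (α g x))).image (β (u (α g x)))).card
        = ((D₀ (r x)).image (β (u x))).card := by
      rw [hcard, hcard, hr]
    set c : H := (u (α g x))⁻¹ * g * u x with hc
    have hcK : c ∈ K := mem_image.2 ⟨(g, x), mem_product.2 ⟨hg, hx⟩, rfl⟩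
    have hcfix : α c (r x) = r x := by
      rw [hc, map_mul, map_mul, Equiv.Perm.mul_apply, Equiv.Perm.mul_apply, hu x]
      have h1 := hu (α g x)
      rw [hr] at h1
      rw [map_inv, Equiv.Perm.inv_eq_iff_eq]
      exact h1.symm
    have hinvc := hinv (r x) c (mem_filter.2 ⟨hcK, hcfix⟩)
    -- the translate of the almost invariant set
    have himg : ((D₀ (r x)).image (β (u x))).image (β g) \ (D₀ (r (α g x))).image (β (u (α g x)))
        = ((D₀ (r x)).filter (fun y => β c y ∉ D₀ (r x))).image (fun y => β (g * u x) y) := by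
      ext y
      rw [mem_sdiff, mem_image, mem_image, mem_image]
      constructor
      · rintro ⟨⟨y₁, hy₁, rfl⟩, hno⟩
        obtain ⟨y₂, hy₂, rfl⟩ := mem_image.1 hy₁
        refine ⟨y₂, ?_, by simp⟩
        rw [mem_filter]
        refine ⟨hy₂, fun hcon => hno ⟨β c y₂, ?_, ?_⟩⟩
        · rw [hr]
          exact hcon
        · rw [← Equiv.Perm.mul_apply, ← map_mul, ← Equiv.Perm.mul_apply, ← map_mul, hc]
          congr 2
          group
      · rintro ⟨y₂, hy₂, rfl⟩
        rw [mem_filter] at hy₂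
        refine ⟨⟨β (u x) y₂, mem_image.2 ⟨y₂, hy₂.1, rfl⟩, by simp⟩, ?_⟩
        rintro ⟨y₃, hy₃, h3⟩
        rw [hr] at hy₃
        apply hy₂.2
        have h4 : β c y₂ = y₃ := by
          rw [hc, mul_assoc, map_mul, Equiv.Perm.mul_apply, ← h3, ← Equiv.Perm.mul_apply, ← map_mul]
          simp
        rw [h4]
        exact hy₃
    have hle1 : ((((D₀ (r x)).image (β (u x))).image (β g) \
        (D₀ (r (α g x))).image (β (u (α g x)))).card : ℝ)
        ≤ δ * ((D₀ (r x)).image (β (u x))).card := by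
      rw [himg, hcard]
      refine le_trans ?_ hinvc
      have h5 : Set.ncard {y : Y | y ∈ D₀ (r x) ∧ β c y ∉ D₀ (r x)}
          = ((D₀ (r x)).filter (fun y => β c y ∉ D₀ (r x))).card := by
        rw [← Set.ncard_coe_finset]
        congr 1
        ext y
        simp
      rw [h5]
      exact_mod_cast card_image_le
    refine ⟨hc1, hle1, ?_⟩
    refine le_trans (le_of_eq ?_) hle1
    have hc2 : (((D₀ (r x)).image (β (u x))).image (β g)).card
        = ((D₀ (r (α g x))).image (β (u (α g x)))).card := by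
      rw [hc1]
      exact card_image_of_injective _ (β g).injective
    have h6 := card_sdiff_add_card_inter (((D₀ (r x)).image (β (u x))).image (β g))
      ((D₀ (r (α g x))).image (β (u (α g x))))
    have h7 := card_sdiff_add_card_inter ((D₀ (r (α g x))).image (β (u (α g x))))
      (((D₀ (r x)).image (β (u x))).image (β g))
    rw [inter_comm] at h7
    have h8 : ((D₀ (r (α g x))).image (β (u (α g x))) \
        ((D₀ (r x)).image (β (u x))).image (β g)).card
        = (((D₀ (r x)).image (β (u x))).image (β g) \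
          (D₀ (r (α g x))).image (β (u (α g x)))).card := by
      omega
    exact_mod_cast h8

/-- **The fibre theorem.** -/
theorem sofic_of_fibres {H X Y : Type} [Group H] (β : H →* Equiv.Perm Y) (α : H →* Equiv.Perm X)
    (f : Y → X) (hf : ∀ h y, f (β h y) = α h (f y)) (hA : AmenableFibres β α f)
    (hs : IsSoficAction β) : IsSoficAction α := by
  classical
  apply sofic_of_good
  intro F E ε hε
  obtain ⟨D, hne, hfib, hinv⟩ := exists_system β α f hf hA F E (ε / 8) (by linarith)
  set EY : Finset Y := E.biUnion D ∪ (F ×ˢ E).biUnion (fun p => (D p.2).image (β p.1)) ∪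
    (F ×ˢ E).biUnion (fun p => D (α p.1 p.2)) with hEY
  have hE1 : ∀ x ∈ E, ∀ y ∈ D x, y ∈ EY := by
    intro x hx y hy
    rw [hEY, mem_union, mem_union]
    exact Or.inl (Or.inl (mem_biUnion.2 ⟨x, hx, hy⟩))
  have hE2 : ∀ g ∈ F, ∀ x ∈ E, ∀ y ∈ (D x).image (β g), y ∈ EY := by
    intro g hg x hx y hy
    rw [hEY, mem_union, mem_union]
    exact Or.inl (Or.inr (mem_biUnion.2 ⟨(g, x), mem_product.2 ⟨hg, hx⟩, hy⟩))
  have hE3 : ∀ g ∈ F, ∀ x ∈ E, ∀ y ∈ D (α g x), y ∈ EY := by
    intro g hg x hx y hy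
    rw [hEY, mem_union]
    exact Or.inr (mem_biUnion.2 ⟨(g, x), mem_product.2 ⟨hg, hx⟩, hy⟩)
  set n : ℝ := (EY.card : ℝ) with hn
  have hn0 : 0 ≤ n := by positivity
  set ε' : ℝ := ε / (4 * (n + 1) ^ 2) with hε'
  have hε'pos : 0 < ε' := by positivity
  have hε'eq : 4 * (n + 1) ^ 2 * ε' = ε := by
    rw [hε']
    field_simp
  have hnε : n * ε' ≤ ε / 4 := by nlinarith
  have hnnε : n * n * ε' ≤ ε / 4 := by nlinarith
  have hε'le : ε' ≤ ε := by nlinarith
  obtain ⟨A, B, iA, hA', iB, ψ, π, hg⟩ := good_of_sofic β hs F EY ε' hε'pos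
  have hcoll : frac (fun a => ∃ p ∈ EY ×ˢ EY, p.1 ≠ p.2 ∧ π a p.1 = π a p.2) ≤ ε / 4 := by
    refine (frac_exists_le (EY ×ˢ EY) _ ε' ?_).trans ?_
    · intro p hp
      rw [mem_product] at hp
      by_cases hpp : p.1 = p.2
      · rw [frac_false (fun a ha => ha.1 hpp)]
        exact hε'pos.le
      · exact (frac_mono (fun a ha => ha.2)).trans (hg.inj _ hp.1 _ hp.2 hpp)
    · rw [card_product]
      push_cast
      exact hnnε
  refine ⟨A × Clk B, Option B, inferInstance, inferInstance, inferInstance,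
    fun h => Equiv.prodCongr (ψ h) (Equiv.refl _),
    fun p x => mn p.2 ((D x).image (π p.1)), ?_, ?_, ?_, ?_⟩
  · rw [hg.one]
    rfl
  · intro g hgF h hh
    have h1 := hg.mul g hgF h hh
    rw [← frac_fst (C := Clk B)] at h1
    refine (frac_mono ?_).trans (h1.trans hε'le)
    rintro ⟨a, ω⟩ ha hcon
    apply ha
    exact Prod.ext hcon rfl
  · intro x hx y hy hxy
    have h1 := hcoll
    rw [← frac_fst (C := Clk B)] at h1
    refine (frac_mono ?_).trans (h1.trans (by linarith))
    rintro ⟨a, ω⟩ ha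
    obtain ⟨b, hb, hb'⟩ := mn_mem (ω := ω) ((hne x).image (π a))
    obtain ⟨c, hc, hc'⟩ := mn_mem (ω := ω) ((hne y).image (π a))
    have hbc : b = c := by
      have h2 : mn ω ((D x).image (π a)) = mn ω ((D y).image (π a)) := ha
      rw [hb', hc'] at h2
      exact Option.some_injective _ h2
    rw [mem_image] at hb hc
    obtain ⟨y₁, hy₁, h3⟩ := hb
    obtain ⟨y₂, hy₂, h4⟩ := hc
    refine ⟨(y₁, y₂), mem_product.2 ⟨hE1 x hx y₁ hy₁, hE1 y hy y₂ hy₂⟩, ?_, ?_⟩
    · intro h5
      apply hxy
      rw [← hfib x y₁ hy₁, ← hfib y y₂ hy₂]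
      exact congrArg f h5
    · rw [h3, h4, hbc]
  · intro g hgF x hx
    have hbad : frac (fun a => (∃ y ∈ EY, π (ψ g a) (β g y) ≠ π a y) ∨
        ∃ p ∈ EY ×ˢ EY, p.1 ≠ p.2 ∧ π (ψ g a) p.1 = π (ψ g a) p.2) ≤ ε / 2 := by
      refine (frac_or _ _).trans ?_
      have h1 : frac (fun a => ∃ y ∈ EY, π (ψ g a) (β g y) ≠ π a y) ≤ ε / 4 :=
        (frac_exists_le EY _ ε' (fun y hy => hg.equi g hgF y hy)).trans hnε
      have h2 := frac_perm (fun a => ∃ p ∈ EY ×ˢ EY, p.1 ≠ p.2 ∧ π a p.1 = π a p.2) (ψ g)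
      rw [h2]
      linarith
    refine (frac_pair _ _ (ε / 2) (ε / 4) hbad ?_ (by linarith)).trans (by linarith)
    intro a ha
    push Not at ha
    obtain ⟨ha1, ha2⟩ := ha
    obtain ⟨hi1, hi2, hi3⟩ := hinv g hgF x hx
    -- the two sets
    have hTeq : (D x).image (π a) = ((D x).image (β g)).image (π (ψ g a)) := by
      rw [image_image]
      apply image_congr
      intro y hy
      exact (ha1 y (hE1 x hx y (mem_coe.1 hy))).symm
    have hinjT : Set.InjOn (π (ψ g a)) ((D x).image (β g) : Finset Y) := by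
      intro y hy z hz hyz
      by_contra hne'
      exact ha2 (y, z) (mem_product.2 ⟨hE2 g hgF x hx y (mem_coe.1 hy),
        hE2 g hgF x hx z (mem_coe.1 hz)⟩) hne' hyz
    have hTcard : ((D x).image (π a)).card = (D x).card := by
      rw [hTeq, card_image_of_injOn hinjT, card_image_of_injective _ (β g).injective]
    have hsd1 : (((D x).image (π a) \ (D (α g x)).image (π (ψ g a))).card : ℝ)
        ≤ ε / 8 * ((D x).image (π a)).card := by
      rw [hTcard]
      refine le_trans ?_ hi2
      have h1 : (D x).image (π a) \ (D (α g x)).image (π (ψ g a))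
          ⊆ ((D x).image (β g) \ D (α g x)).image (π (ψ g a)) := by
        rw [hTeq]
        intro b hb
        rw [mem_sdiff, mem_image, mem_image] at hb
        obtain ⟨⟨y, hy, rfl⟩, hno⟩ := hb
        rw [mem_image]
        exact ⟨y, mem_sdiff.2 ⟨hy, fun h => hno ⟨y, h, rfl⟩⟩, rfl⟩
      exact_mod_cast (card_le_card h1).trans card_image_le
    have hsd2 : (((D (α g x)).image (π (ψ g a)) \ (D x).image (π a)).card : ℝ)
        ≤ ε / 8 * ((D x).image (π a)).card := by
      rw [hTcard]
      refine le_trans ?_ hi3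
      have h1 : (D (α g x)).image (π (ψ g a)) \ (D x).image (π a)
          ⊆ (D (α g x) \ (D x).image (β g)).image (π (ψ g a)) := by
        rw [hTeq]
        intro b hb
        rw [mem_sdiff, mem_image, mem_image] at hb
        obtain ⟨⟨y, hy, rfl⟩, hno⟩ := hb
        rw [mem_image]
        exact ⟨y, mem_sdiff.2 ⟨hy, fun h => hno ⟨y, h, rfl⟩⟩, rfl⟩
      exact_mod_cast (card_le_card h1).trans card_image_le
    have hfin := frac_mn ((D x).image (π a)) ((D (α g x)).image (π (ψ g a))) (ε / 8)
      ((hne x).image _) (by linarith) hsd1 hsd2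
    refine (frac_mono ?_).trans (hfin.trans (by linarith))
    intro ω hω hcon
    exact hω hcon.symm

end SoficAct
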