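import Pool.Agent.Lib.MP_2d1e68_al.Amalg

/-!
# Frames: labels from the lamps

If the restriction to `H` of the sofic approximations of a wreath product `G ≀_α H` can be framed
(for example if it is close to an honest action on a finite set), then the lamps give labels.
-/

open Finset Filter

noncomputable section

namespace SoficAct

/-- `φ` is framed: there are a finite model `Q` of `H` and injections `θ q` of `A` into a finite set
with `θ (h q) (h a) = θ q a` for most `a`, `q`. -/
def Framed {H A : Type} [Group H] [Fintype A] (F : Finset H) (ε : ℝ) (φ : H → Equiv.Perm A) :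
    Prop :=
  ∃ (Q A' : Type) (_ : Fintype Q) (_ : Nonempty Q) (_ : Finite A') (χ : H → Equiv.Perm Q)
    (θ : Q → A → A'), χ 1 = 1 ∧
    (∀ g ∈ F, ∀ h ∈ F, frac (fun q => χ (g * h) q ≠ χ g (χ h q)) ≤ ε) ∧
    (∀ q, Function.Injective (θ q)) ∧
    ∀ g ∈ F, frac (fun p : A × Q => θ (χ g p.2) (φ g p.1) ≠ θ p.2 p.1) ≤ ε

open Classical in
/-- The function with the value `g` at `x` and `1` elsewhere. -/
def single {G X : Type} [Group G] (g : G) (x : X) : DirectSum G X :=
  ⟨fun y => if y = x then g else 1, by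
    refine (Set.finite_singleton x).subset ?_
    intro y hy
    by_contra h
    exact hy (if_neg h)⟩

/-- The lamp `g` at `x`. -/
def lamp {G H X : Type} [Group G] [Group H] (α : H →* Equiv.Perm X) (g : G) (x : X) :
    GenWreath G α := SemidirectProduct.inl (single g x)

lemma lamp_conj {G H X : Type} [Group G] [Group H] (α : H →* Equiv.Perm X) (g : G) (h : H) (x : X) :
    lamp α g (α h x) * SemidirectProduct.inr h = SemidirectProduct.inr h * lamp α g x := by
  classical
  have h1 := SemidirectProduct.inl_aut (φ := shiftHom G α) h (single g x)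
  have h2 : shiftHom G α h (single g x) = single g (α h x) := by
    apply Subtype.ext
    funext y
    change (if (α h)⁻¹ y = x then g else 1) = (if y = α h x then g else 1)
    by_cases hy : y = α h x
    · rw [if_pos hy, if_pos (by rw [hy, perm_inv_app])]
    · rw [if_neg hy, if_neg]
      intro h3
      apply hy
      rw [← h3]
      simp
  rw [h2] at h1
  unfold lamp
  rw [h1, mul_assoc, ← map_mul, inv_mul_cancel, map_one, mul_one]

lemma lamp_injective {G H X : Type} [Group G] [Group H] (α : H →* Equiv.Perm X) (g : G)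
    (hg : g ≠ 1) : Function.Injective (lamp α g) := by
  classical
  intro x y h
  unfold lamp at h
  have h1 := congrArg Subtype.val (SemidirectProduct.inl_injective h)
  by_contra hne
  have h2 := congrFun h1 x
  change (if x = x then g else 1) = (if x = y then g else 1) at h2
  rw [if_pos rfl, if_neg hne] at h2
  exact hg h2

/-- **Frames give labels.** -/
theorem sofic_of_framed {G H X : Type} [Group G] [Group H] (α : H →* Equiv.Perm X)
    (hG : ∃ g : G, g ≠ 1)
    (hW : ∀ (F : Finset (GenWreath G α)) (F' : Finset H) (ε : ℝ), 0 < ε →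
      ∃ (A : Type) (_ : Fintype A) (_ : Nonempty A) (φ : GenWreath G α → Equiv.Perm A), φ 1 = 1 ∧
        (∀ g ∈ F, ∀ h ∈ F, hamming (φ (g * h)) (φ g * φ h) < ε) ∧
        (∀ g ∈ F, g ≠ 1 → 1 - ε < hamming 1 (φ g)) ∧
        Framed F' ε (fun h => φ (SemidirectProduct.inr h))) : IsSoficAction α := by
  classical
  obtain ⟨g₀, hg₀⟩ := hG
  apply sofic_of_good
  intro F E ε hε
  set δ : X → GenWreath G α := lamp α g₀ with hδ
  set F₁ : Finset (GenWreath G α) := F.image (fun h => SemidirectProduct.inr h) ∪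
    (E ∪ (F ×ˢ E).image (fun p => α p.1 p.2)).image δ ∪
    (E ×ˢ E).image (fun p => (δ p.1)⁻¹ * δ p.2) with hF₁
  have hFh : ∀ h ∈ F, (SemidirectProduct.inr h : GenWreath G α) ∈ F₁ := by
    intro h hh
    rw [hF₁, mem_union, mem_union]
    exact Or.inl (Or.inl (mem_image_of_mem _ hh))
  have hFx : ∀ x ∈ E, δ x ∈ F₁ := by
    intro x hx
    rw [hF₁, mem_union, mem_union]
    exact Or.inl (Or.inr (mem_image_of_mem _ (mem_union_left _ hx)))
  have hFhx : ∀ h ∈ F, ∀ x ∈ E, δ (α h x) ∈ F₁ := by
    intro h hh x hx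
    rw [hF₁, mem_union, mem_union]
    exact Or.inl (Or.inr (mem_image_of_mem _ (mem_union_right _
      (mem_image.2 ⟨(h, x), mem_product.2 ⟨hh, hx⟩, rfl⟩))))
  have hFxy : ∀ x ∈ E, ∀ y ∈ E, (δ x)⁻¹ * δ y ∈ F₁ := by
    intro x hx y hy
    rw [hF₁, mem_union]
    exact Or.inr (mem_image.2 ⟨(x, y), mem_product.2 ⟨hx, hy⟩, rfl⟩)
  obtain ⟨A, iA, hA, φ, h1, hmul, hfree, Q, A', iQ, hQ, iA', χ, θ, hχ1, hχ, hθ, hθφ⟩ :=
    hW F₁ F (ε / 4) (by linarith)
  have hmul' : ∀ g ∈ F₁, ∀ h ∈ F₁, frac (fun a => φ (g * h) a ≠ φ g (φ h a)) ≤ ε / 4 :=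
    fun g hg h hh => (hmul g hg h hh).le
  have hfree' : ∀ g ∈ F₁, g ≠ 1 → frac (fun a => φ g a = a) ≤ ε / 4 := by
    intro g hg hg1
    have h2 := hfree g hg hg1
    have h3 := frac_compl (fun a => φ g a = a)
    have h4 : hamming 1 (φ g) = frac (fun a => ¬ φ g a = a) := by
      unfold hamming
      congr 1
      funext a
      rw [Equiv.Perm.one_apply, ne_comm]
    rw [h4] at h2
    linarith
  refine ⟨A × Q, A', inferInstance, inferInstance, iA',
    fun h => Equiv.prodCongr (φ (SemidirectProduct.inr h)) (χ h),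
    fun p x => θ p.2 (φ (δ x) p.1), ?_, ?_, ?_, ?_⟩
  · change Equiv.prodCongr (φ (SemidirectProduct.inr 1)) (χ 1) = 1
    rw [map_one, h1, hχ1]
    rfl
  · intro g hg h hh
    have e1 := hmul' _ (hFh g hg) _ (hFh h hh)
    have e2 := hχ g hg h hh
    rw [← frac_fst (C := Q)] at e1
    rw [← frac_snd (A := A)] at e2
    rw [← map_mul] at e1
    refine (frac_mono (Q := fun p : A × Q => φ (SemidirectProduct.inr (g * h)) p.1 ≠
      φ (SemidirectProduct.inr g) (φ (SemidirectProduct.inr h) p.1) ∨
      χ (g * h) p.2 ≠ χ g (χ h p.2)) ?_).trans ((frac_or _ _).trans (by linarith))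
    rintro ⟨a, b⟩ hab
    by_contra hcon
    push Not at hcon
    exact hab (Prod.ext hcon.1 hcon.2)
  · intro x hx y hy hxy
    have hne : (δ x)⁻¹ * δ y ≠ 1 := fun h => hxy (lamp_injective α g₀ hg₀ (inv_mul_eq_one.1 h))
    have e1 := hmul' _ (hFx x hx) _ (hFxy x hx y hy)
    have e2 := hfree' _ (hFxy x hx y hy) hne
    rw [mul_inv_cancel_left] at e1
    rw [← frac_fst (C := Q)] at e1
    rw [← frac_fst (C := Q)] at e2
    refine (frac_mono (Q := fun p : A × Q =>
      φ (δ y) p.1 ≠ φ (δ x) (φ ((δ x)⁻¹ * δ y) p.1) ∨ φ ((δ x)⁻¹ * δ y) p.1 = p.1) ?_).trans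
      ((frac_or _ _).trans (by linarith))
    rintro ⟨a, q⟩ hab
    by_contra hcon
    push Not at hcon
    have h2 : φ (δ x) a = φ (δ y) a := hθ q hab
    exact hcon.2 ((φ (δ x)).injective (hcon.1.symm.trans h2.symm))
  · intro g hg x hx
    have e1 := hmul' _ (hFhx g hg x hx) _ (hFh g hg)
    have e2 := hmul' _ (hFh g hg) _ (hFx x hx)
    have e3 := hθφ g hg
    rw [hδ, lamp_conj] at e1
    rw [← frac_fst (C := Q)] at e1
    rw [← frac_fst (C := Q)] at e2
    rw [← frac_perm _ (Equiv.prodCongr (φ (δ x)) (Equiv.refl Q))] at e3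
    refine (frac_mono (Q := fun p : A × Q =>
      φ (SemidirectProduct.inr g * lamp α g₀ x) p.1 ≠
        φ (lamp α g₀ (α g x)) (φ (SemidirectProduct.inr g) p.1) ∨
      (φ (SemidirectProduct.inr g * δ x) p.1 ≠ φ (SemidirectProduct.inr g) (φ (δ x) p.1) ∨
      θ (χ g ((Equiv.prodCongr (φ (δ x)) (Equiv.refl Q)) p).2)
        (φ (SemidirectProduct.inr g) ((Equiv.prodCongr (φ (δ x)) (Equiv.refl Q)) p).1) ≠
        θ ((Equiv.prodCongr (φ (δ x)) (Equiv.refl Q)) p).2
          ((Equiv.prodCongr (φ (δ x)) (Equiv.refl Q)) p).1)) ?_).trans ?_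
    · rintro ⟨a, q⟩ hab
      by_contra hcon
      push Not at hcon
      obtain ⟨c1, c2, c3⟩ := hcon
      apply hab
      change θ (χ g q) (φ (δ (α g x)) (φ (SemidirectProduct.inr g) a)) = θ q (φ (δ x) a)
      have c3' : θ (χ g q) (φ (SemidirectProduct.inr g) (φ (δ x) a)) = θ q (φ (δ x) a) := c3
      rw [← c3']
      congr 1
      have c1' : φ (SemidirectProduct.inr g * lamp α g₀ x) a =
        φ (lamp α g₀ (α g x)) (φ (SemidirectProduct.inr g) a) := c1
      have c2' : φ (SemidirectProduct.inr g * δ x) a =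
        φ (SemidirectProduct.inr g) (φ (δ x) a) := c2
      exact c1'.symm.trans c2'
    · refine (frac_or _ _).trans ?_
      have e4 := frac_or (fun p : A × Q =>
        φ (SemidirectProduct.inr g * δ x) p.1 ≠ φ (SemidirectProduct.inr g) (φ (δ x) p.1))
        (fun p : A × Q => θ (χ g ((Equiv.prodCongr (φ (δ x)) (Equiv.refl Q)) p).2)
        (φ (SemidirectProduct.inr g) ((Equiv.prodCongr (φ (δ x)) (Equiv.refl Q)) p).1) ≠
        θ ((Equiv.prodCongr (φ (δ x)) (Equiv.refl Q)) p).2
          ((Equiv.prodCongr (φ (δ x)) (Equiv.refl Q)) p).1)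
      linarith

/-- **Stable groups.** If `H` is very flexibly stable, then an action of `H` is sofic if some
wreath product is sofic. -/
theorem sofic_of_stable {G H X : Type} [Group G] [Group H] (α : H →* Equiv.Perm X)
    (hG : ∃ g : G, g ≠ 1) (hH : VeryFlexiblyStable H) (hW : IsSoficGroup (GenWreath G α)) :
    IsSoficAction α := by
  classical
  apply sofic_of_framed α hG
  intro F F' ε hε
  obtain ⟨F₂, δ, hδ, hst⟩ := hH F' ε hε
  obtain ⟨A, iA, hA, φ, h1, hmul, hfree⟩ := hW
    (F ∪ F₂.image (fun h => (SemidirectProduct.inr h : GenWreath G α))) (min ε δ) (lt_min hε hδ)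
  obtain ⟨A', iA', j, ρ, hj, hρ⟩ := hst A (fun h => φ (SemidirectProduct.inr h)) (by
    change φ (SemidirectProduct.inr 1) = 1
    rw [map_one]
    exact h1) (by
    intro g hg h hh
    have := hmul _ (mem_union_right _ (mem_image_of_mem _ hg)) _
      (mem_union_right _ (mem_image_of_mem _ hh))
    rw [← map_mul] at this
    exact this.trans_le (min_le_right _ _))
  refine ⟨A, iA, hA, φ, h1, ?_, ?_, ?_⟩
  · intro g hg h hh
    exact (hmul g (mem_union_left _ hg) h (mem_union_left _ hh)).trans_le (min_le_left _ _)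
  · intro g hg hg1
    refine lt_of_le_of_lt ?_ (hfree g (mem_union_left _ hg) hg1)
    have := min_le_left ε δ
    linarith
  · haveI : Fintype (Equiv.Perm A') := Fintype.ofFinite _
    refine ⟨Equiv.Perm A', A', inferInstance, inferInstance, iA', fun h => Equiv.mulLeft (ρ h),
      fun q a => q⁻¹ (j a), ?_, ?_, ?_, ?_⟩
    · change Equiv.mulLeft (ρ 1) = 1
      rw [map_one]
      ext q : 1
      simp
    · intro g _ h _
      rw [frac_false]
      · exact hε.le
      · intro q hq
        apply hq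
        change ρ (g * h) * q = ρ g * (ρ h * q)
        rw [map_mul, mul_assoc]
    · intro q a b hab
      exact hj ((q⁻¹).injective hab)
    · intro g hg
      have e1 := hρ g hg
      rw [← frac_fst (C := Equiv.Perm A')] at e1
      refine (frac_mono ?_).trans e1
      rintro ⟨a, q⟩ hne hcon
      apply hne
      change (ρ g * q)⁻¹ (j (φ (SemidirectProduct.inr g) a)) = q⁻¹ (j a)
      have hcon' : ρ g (j a) = j (φ (SemidirectProduct.inr g) a) := hcon
      rw [← hcon', mul_inv_rev, Equiv.Perm.mul_apply, perm_inv_app]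

end SoficAct
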