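import Pool.Agent.Lib.MP_2d1e68_al.Reg

/-!
# Approximations with completely good points
-/

open Finset

noncomputable section

namespace SoficAct

/-- A functional and injective relation on a finite set is contained in the graph of a
permutation. -/
lemma exists_perm_of_rel {P : Type} [Finite P] (R : P → P → Prop)
    (hf : ∀ p q q', R p q → R p q' → q = q') (hi : ∀ p p' q, R p q → R p' q → p = p') :
    ∃ e : Equiv.Perm P, ∀ p q, R p q → e p = q := by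
  classical
  haveI := Fintype.ofFinite P
  set f : P → P := fun p => if h : ∃ q, R p q then h.choose else p with hfdef
  have hfR : ∀ p q, R p q → f p = q := by
    intro p q h
    have h' : ∃ q, R p q := ⟨q, h⟩
    rw [hfdef]
    simp only [dif_pos h']
    exact hf p _ _ h'.choose_spec h
  obtain ⟨g, hg⟩ := Finset.exists_equiv_extend_of_card_eq (α := P) (β := P) (t := univ)
    (by rw [card_univ]) (s := univ.filter (fun p => ∃ q, R p q)) (f := f)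
    (by
      intro y _
      exact mem_univ _)
    (by
      intro a ha b hb h
      rw [mem_coe, mem_filter] at ha hb
      obtain ⟨-, q, hq⟩ := ha
      obtain ⟨-, q', hq'⟩ := hb
      rw [hfR a q hq, hfR b q' hq'] at h
      exact hi a b q hq (by rw [h]; exact hq'))
  refine ⟨g.trans (Equiv.subtypeUnivEquiv (fun x => mem_univ x)), ?_⟩
  intro p q h
  have h1 := hg p (by
    rw [mem_filter]
    exact ⟨mem_univ _, q, h⟩)
  rw [hfR p q h] at h1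
  exact h1

/-- The point `v` is completely good for the finite sets `L` and `Z`. -/
structure Full {G X : Type} [Group G] (α : G →* Equiv.Perm X) (L : Finset G) (Z : Finset X)
    {V C : Type} (ψ : G → Equiv.Perm V) (π : V → X → C) (v : V) : Prop where
  mul : ∀ g ∈ L, ∀ h ∈ L, ψ (g * h) v = ψ g (ψ h v)
  free : ∀ g ∈ L, g ≠ 1 → ψ g v ≠ v
  equi : ∀ g ∈ L, ∀ z ∈ Z, π (ψ g v) (α g z) = π v z
  inj : ∀ y ∈ Z, ∀ z ∈ Z, y ≠ z → π v y ≠ π v z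

lemma exists_full {G X : Type} [Group G] (α : G →* Equiv.Perm X) (hG : IsSoficGroup G)
    (hα : IsSoficAction α) (L : Finset G) (Z : Finset X) (η : ℝ) (hη : 0 < η) :
    ∃ (V C : Type) (_ : Fintype V) (_ : Nonempty V) (_ : Finite C) (ψ : G → Equiv.Perm V)
      (π : V → X → C), ψ 1 = 1 ∧ frac (fun v => ¬ Full α L Z ψ π v) ≤ η := by
  classical
  set N : ℝ := (L ×ˢ L).card + (L ×ˢ L).card + L.card + (L ×ˢ Z).card + (Z ×ˢ Z).card + 1 with hN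
  have hNpos : 0 < N := by positivity
  have hδ : 0 < η / N := by positivity
  obtain ⟨A₁, iA₁, hA₁, φ₁, h1, hm₁, hf₁⟩ := hG L (η / N) hδ
  obtain ⟨A₂, C, iA₂, hA₂, iC, φ₂, π, hg⟩ := good_of_sofic α hα L Z (η / N) hδ
  refine ⟨A₁ × A₂, C, inferInstance, inferInstance, inferInstance,
    fun g => Equiv.prodCongr (φ₁ g) (φ₂ g), fun p => π p.2, ?_, ?_⟩
  · change Equiv.prodCongr (φ₁ 1) (φ₂ 1) = 1
    rw [h1, hg.one]
    rfl
  have e1 : frac (fun p : A₁ × A₂ => ∃ q ∈ L ×ˢ L, φ₁ (q.1 * q.2) p.1 ≠ φ₁ q.1 (φ₁ q.2 p.1)) ≤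
      (L ×ˢ L).card * (η / N) := by
    apply frac_exists_le
    intro q hq
    rw [mem_product] at hq
    rw [frac_fst (fun a => φ₁ (q.1 * q.2) a ≠ φ₁ q.1 (φ₁ q.2 a))]
    exact (hm₁ _ hq.1 _ hq.2).le
  have e2 : frac (fun p : A₁ × A₂ => ∃ q ∈ L ×ˢ L, φ₂ (q.1 * q.2) p.2 ≠ φ₂ q.1 (φ₂ q.2 p.2)) ≤
      (L ×ˢ L).card * (η / N) := by
    apply frac_exists_le
    intro q hq
    rw [mem_product] at hq
    rw [frac_snd (fun a => φ₂ (q.1 * q.2) a ≠ φ₂ q.1 (φ₂ q.2 a))]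
    exact hg.mul _ hq.1 _ hq.2
  have e3 : frac (fun p : A₁ × A₂ => ∃ g ∈ L, g ≠ 1 ∧ φ₁ g p.1 = p.1) ≤ L.card * (η / N) := by
    apply frac_exists_le
    intro g hg'
    rw [frac_fst (fun a => g ≠ 1 ∧ φ₁ g a = a)]
    by_cases hg1 : g = 1
    · rw [frac_false]
      · exact hδ.le
      · intro a ha
        exact ha.1 hg1
    · refine (frac_mono (fun a ha => ha.2)).trans ?_
      have h2 := hf₁ g hg' hg1
      have h3 := frac_compl (fun a => φ₁ g a = a)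
      have h4 : hamming 1 (φ₁ g) = frac (fun a => ¬ φ₁ g a = a) := by
        unfold hamming
        congr 1
        funext a
        rw [Equiv.Perm.one_apply, ne_comm]
      rw [h4] at h2
      linarith
  have e4 : frac (fun p : A₁ × A₂ => ∃ q ∈ L ×ˢ Z, π (φ₂ q.1 p.2) (α q.1 q.2) ≠ π p.2 q.2) ≤
      (L ×ˢ Z).card * (η / N) := by
    apply frac_exists_le
    intro q hq
    rw [mem_product] at hq
    rw [frac_snd (fun a => π (φ₂ q.1 a) (α q.1 q.2) ≠ π a q.2)]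
    exact hg.equi _ hq.1 _ hq.2
  have e5 : frac (fun p : A₁ × A₂ => ∃ q ∈ Z ×ˢ Z, q.1 ≠ q.2 ∧ π p.2 q.1 = π p.2 q.2) ≤
      (Z ×ˢ Z).card * (η / N) := by
    apply frac_exists_le
    intro q hq
    rw [mem_product] at hq
    rw [frac_snd (fun a => q.1 ≠ q.2 ∧ π a q.1 = π a q.2)]
    by_cases hne : q.1 = q.2
    · rw [frac_false]
      · exact hδ.le
      · intro a ha
        exact ha.1 hne
    · exact (frac_mono (fun a ha => ha.2)).trans (hg.inj _ hq.1 _ hq.2 hne)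
  refine (frac_mono (Q := fun p : A₁ × A₂ =>
    (∃ q ∈ L ×ˢ L, φ₁ (q.1 * q.2) p.1 ≠ φ₁ q.1 (φ₁ q.2 p.1)) ∨
    (∃ q ∈ L ×ˢ L, φ₂ (q.1 * q.2) p.2 ≠ φ₂ q.1 (φ₂ q.2 p.2)) ∨
    (∃ g ∈ L, g ≠ 1 ∧ φ₁ g p.1 = p.1) ∨
    (∃ q ∈ L ×ˢ Z, π (φ₂ q.1 p.2) (α q.1 q.2) ≠ π p.2 q.2) ∨
    (∃ q ∈ Z ×ˢ Z, q.1 ≠ q.2 ∧ π p.2 q.1 = π p.2 q.2)) ?_).trans ?_
  · rintro ⟨a, b⟩ hab
    by_contra hcon
    push Not at hcon
    obtain ⟨c1, c2, c3, c4, c5⟩ := hcon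
    apply hab
    constructor
    · intro g hg1 h hh
      exact Prod.ext (c1 (g, h) (mem_product.2 ⟨hg1, hh⟩)) (c2 (g, h) (mem_product.2 ⟨hg1, hh⟩))
    · intro g hg1 hne heq
      exact c3 g hg1 hne (congrArg Prod.fst heq)
    · intro g hg1 z hz
      exact c4 (g, z) (mem_product.2 ⟨hg1, hz⟩)
    · intro y hy z hz hne
      exact c5 (y, z) (mem_product.2 ⟨hy, hz⟩) hne
  · refine (frac_or _ _).trans ?_
    have f2 := frac_or (fun p : A₁ × A₂ =>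
      ∃ q ∈ L ×ˢ L, φ₂ (q.1 * q.2) p.2 ≠ φ₂ q.1 (φ₂ q.2 p.2)) (fun p =>
      (∃ g ∈ L, g ≠ 1 ∧ φ₁ g p.1 = p.1) ∨
      (∃ q ∈ L ×ˢ Z, π (φ₂ q.1 p.2) (α q.1 q.2) ≠ π p.2 q.2) ∨
      (∃ q ∈ Z ×ˢ Z, q.1 ≠ q.2 ∧ π p.2 q.1 = π p.2 q.2))
    have f3 := frac_or (fun p : A₁ × A₂ => ∃ g ∈ L, g ≠ 1 ∧ φ₁ g p.1 = p.1) (fun p =>
      (∃ q ∈ L ×ˢ Z, π (φ₂ q.1 p.2) (α q.1 q.2) ≠ π p.2 q.2) ∨
      (∃ q ∈ Z ×ˢ Z, q.1 ≠ q.2 ∧ π p.2 q.1 = π p.2 q.2))
    have f4 := frac_or (fun p : A₁ × A₂ =>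
      ∃ q ∈ L ×ˢ Z, π (φ₂ q.1 p.2) (α q.1 q.2) ≠ π p.2 q.2) (fun p =>
      (∃ q ∈ Z ×ˢ Z, q.1 ≠ q.2 ∧ π p.2 q.1 = π p.2 q.2))
    have f5 : N * (η / N) = η := by
      field_simp
    have f6 : (L ×ˢ L).card * (η / N) + ((L ×ˢ L).card * (η / N) + (L.card * (η / N) +
        ((L ×ˢ Z).card * (η / N) + (Z ×ˢ Z).card * (η / N)))) ≤ η := by
      have : N * (η / N) = (L ×ˢ L).card * (η / N) + ((L ×ˢ L).card * (η / N) +
        (L.card * (η / N) + ((L ×ˢ Z).card * (η / N) + (Z ×ˢ Z).card * (η / N)))) + η / N := by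
        rw [hN]
        ring
      linarith
    linarith

end SoficAct
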