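import Pool.Agent.Lib.MP_2d1e68_al.CoAm

/-!
# Min-hash labels

The set of the bijections of a finite set `B` with `Fin |B|` is used as the space of clocks; for a
nonempty subset `T` of `B` let `mn ω T` be the element of `T` with the smallest clock.  Then
`P(mn ω T ≠ mn ω T') ≤ |T △ T'| / |T ∪ T'|`.
-/

open Finset

noncomputable section

namespace SoficAct

/-- The clocks. -/
abbrev Clk (B : Type) [Fintype B] : Type := B ≃ Fin (Fintype.card B)

instance {B : Type} [Fintype B] : Nonempty (Clk B) := ⟨Fintype.equivFin B⟩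

instance {B : Type} [Fintype B] : Fintype (Clk B) := by
  classical exact inferInstance

/-- `b` is the element of `T` with the smallest clock. -/
def IsMn {B : Type} [Fintype B] (ω : Clk B) (T : Finset B) (b : B) : Prop :=
  b ∈ T ∧ ∀ c ∈ T, ω b ≤ ω c

lemma exists_isMn {B : Type} [Fintype B] (ω : Clk B) (T : Finset B) (hT : T.Nonempty) :
    ∃ b, IsMn ω T b := by
  obtain ⟨b, hb, h⟩ := exists_min_image T ω hT
  exact ⟨b, hb, h⟩

/-- The element of `T` with the smallest clock (`none` if `T` is empty). -/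
def mn {B : Type} [Fintype B] (ω : Clk B) (T : Finset B) : Option B :=
  by classical exact if h : ∃ b, IsMn ω T b then some h.choose else none

lemma isMn_unique {B : Type} [Fintype B] {ω : Clk B} {T : Finset B} {b c : B}
    (hb : IsMn ω T b) (hc : IsMn ω T c) : b = c :=
  ω.injective (le_antisymm (hb.2 c hc.1) (hc.2 b hb.1))

lemma mn_eq {B : Type} [Fintype B] {ω : Clk B} {T : Finset B} {b : B} (hb : IsMn ω T b) :
    mn ω T = some b := by
  classical
  have h : ∃ b, IsMn ω T b := ⟨b, hb⟩
  unfold mn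
  rw [dif_pos h]
  rw [isMn_unique h.choose_spec hb]

lemma mn_mem {B : Type} [Fintype B] {ω : Clk B} {T : Finset B} (hT : T.Nonempty) :
    ∃ b ∈ T, mn ω T = some b := by
  obtain ⟨b, hb⟩ := exists_isMn ω T hT
  exact ⟨b, hb.1, mn_eq hb⟩

/-- Every element of `U` is equally often the one with the smallest clock. -/
lemma frac_isMn {B : Type} [Fintype B] (U : Finset B) (b c : B) (hb : b ∈ U) (hc : c ∈ U) :
    frac (fun ω : Clk B => IsMn ω U b) = frac (fun ω : Clk B => IsMn ω U c) := by
  classical
  have hmem : ∀ d ∈ U, Equiv.swap b c d ∈ U := by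
    intro d hd
    by_cases h1 : d = b
    · rw [h1, Equiv.swap_apply_left]
      exact hc
    by_cases h2 : d = c
    · rw [h2, Equiv.swap_apply_right]
      exact hb
    · rw [Equiv.swap_apply_of_ne_of_ne h1 h2]
      exact hd
  have key : ∀ (ω : Clk B) (x y : B), IsMn ω U x → Equiv.swap b c y = x → y ∈ U →
      IsMn ((Equiv.swap b c).trans ω) U y := by
    intro ω x y hx hxy hy
    refine ⟨hy, fun d hd => ?_⟩
    rw [Equiv.trans_apply, Equiv.trans_apply, hxy]
    exact hx.2 _ (hmem d hd)
  rw [frac_eq, frac_eq]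
  congr 2
  apply card_bij (fun ω _ => (Equiv.swap b c).trans ω)
  · intro ω hω
    rw [mem_filter] at hω ⊢
    exact ⟨mem_univ _, key ω b c hω.2 (Equiv.swap_apply_right _ _) hc⟩
  · intro ω _ ω' _ h
    apply Equiv.ext
    intro d
    have := congrArg (fun e : Clk B => e (Equiv.swap b c d)) h
    simpa using this
  · intro ω hω
    rw [mem_filter] at hω
    refine ⟨(Equiv.swap b c).trans ω, ?_, ?_⟩
    · rw [mem_filter]
      exact ⟨mem_univ _, key ω c b hω.2 (Equiv.swap_apply_left _ _) hb⟩
    · apply Equiv.ext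
      intro d
      simp

lemma frac_isMn_le {B : Type} [Fintype B] (U : Finset B) (b : B) (hb : b ∈ U) :
    (U.card : ℝ) * frac (fun ω : Clk B => IsMn ω U b) ≤ 1 := by
  classical
  have h1 : ∑ c ∈ U, frac (fun ω : Clk B => IsMn ω U c) ≤ 1 := by
    have h2 : ∀ c ∈ U, frac (fun ω : Clk B => IsMn ω U c)
        = ((univ.filter (fun ω : Clk B => IsMn ω U c)).card : ℝ) / Fintype.card (Clk B) :=
      fun c _ => frac_eq _
    rw [sum_congr rfl h2, ← sum_div]
    apply div_le_one_of_le₀ _ (by positivity)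
    have h3 : ∑ c ∈ U, (univ.filter (fun ω : Clk B => IsMn ω U c)).card
        ≤ Fintype.card (Clk B) := by
      rw [← card_biUnion]
      · exact card_le_univ _
      · intro c _ d _ hcd
        rw [Function.onFun, disjoint_left]
        intro ω h4 h5
        rw [mem_filter] at h4 h5
        exact hcd (isMn_unique h4.2 h5.2)
    exact_mod_cast h3
  have h2 : ∑ c ∈ U, frac (fun ω : Clk B => IsMn ω U c)
      = U.card * frac (fun ω : Clk B => IsMn ω U b) := by
    rw [sum_congr rfl (fun c hc => frac_isMn U c b hc hb), sum_const, nsmul_eq_mul]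
  linarith

/-- **Min-hash.** -/
lemma frac_mn {B : Type} [Fintype B] [DecidableEq B] (T T' : Finset B) (δ : ℝ)
    (hT : T.Nonempty) (hδ : 0 ≤ δ) (h1 : ((T \ T').card : ℝ) ≤ δ * T.card)
    (h2 : ((T' \ T).card : ℝ) ≤ δ * T.card) :
    frac (fun ω : Clk B => mn ω T ≠ mn ω T') ≤ 2 * δ := by
  classical
  set U := T ∪ T' with hU
  have hTU : (T.card : ℝ) ≤ U.card := by exact_mod_cast card_le_card subset_union_left
  have hUne : U.Nonempty := hT.mono subset_union_left
  have hUpos : (0 : ℝ) < U.card := by exact_mod_cast card_pos.2 hUne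
  have hsub : ∀ ω : Clk B, mn ω T ≠ mn ω T' → ∃ b ∈ (T \ T') ∪ (T' \ T), IsMn ω U b := by
    intro ω hne
    obtain ⟨b, hb⟩ := exists_isMn ω U hUne
    by_contra hcon
    push Not at hcon
    have hbD : b ∉ (T \ T') ∪ (T' \ T) := fun h => hcon b h hb
    rw [mem_union, mem_sdiff, mem_sdiff] at hbD
    have hbU := hb.1
    rw [hU, mem_union] at hbU
    have hbT : b ∈ T := by
      by_contra h3
      rcases hbU with h4 | h4
      · exact h3 h4
      · exact hbD (Or.inr ⟨h4, h3⟩)
    have hbT' : b ∈ T' := by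
      by_contra h3
      exact hbD (Or.inl ⟨hbT, h3⟩)
    have e1 : mn ω T = some b := mn_eq ⟨hbT, fun c hc => hb.2 c (mem_union_left _ hc)⟩
    have e2 : mn ω T' = some b := mn_eq ⟨hbT', fun c hc => hb.2 c (mem_union_right _ hc)⟩
    exact hne (e1.trans e2.symm)
  refine (frac_mono hsub).trans ((frac_exists _ _).trans ?_)
  have h3 : ∀ b ∈ (T \ T') ∪ (T' \ T), frac (fun ω : Clk B => IsMn ω U b) ≤ 1 / U.card := by
    intro b hb
    have hbU : b ∈ U := by
      rw [mem_union, mem_sdiff, mem_sdiff] at hb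
      rcases hb with h | h
      · exact mem_union_left _ h.1
      · exact mem_union_right _ h.1
    have := frac_isMn_le U b hbU
    rw [le_div_iff₀ hUpos]
    linarith
  refine (sum_le_sum h3).trans ?_
  rw [sum_const, nsmul_eq_mul, mul_one_div, div_le_iff₀ hUpos]
  have h4 : (((T \ T') ∪ (T' \ T)).card : ℝ) ≤ (T \ T').card + (T' \ T).card := by
    exact_mod_cast card_union_le _ _
  nlinarith

end SoficAct
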