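import Pool.Agent.Lib.MP_2d1e68_al.Defs

set_option autoImplicit false

/-!
# MP_2d1e68_al: the first element of a set in a random order
-/

namespace Pool.Agent.SofAct

open Finset Classical

/-- the elements of `U` of smallest rank -/
noncomputable def mset {B : Type} {n : ℕ} (σ : B ≃ Fin n) (U : Finset B) : Finset B :=
  U.filter fun b => ∀ b' ∈ U, σ b ≤ σ b'

variable {B : Type} {n : ℕ}

lemma mset_subset (σ : B ≃ Fin n) (U : Finset B) : mset σ U ⊆ U := filter_subset _ _

lemma mem_mset {σ : B ≃ Fin n} {U : Finset B} {b : B} :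
    b ∈ mset σ U ↔ b ∈ U ∧ ∀ b' ∈ U, σ b ≤ σ b' := by
  simp [mset]

lemma mset_nonempty (σ : B ≃ Fin n) {U : Finset B} (hU : U.Nonempty) : (mset σ U).Nonempty := by
  obtain ⟨b, hb, h⟩ := exists_min_image U σ hU
  exact ⟨b, mem_mset.2 ⟨hb, h⟩⟩

lemma mset_eq_singleton {σ : B ≃ Fin n} {U : Finset B} {b : B} (hb : b ∈ U)
    (h : ∀ b' ∈ U, σ b ≤ σ b') : mset σ U = {b} := by
  ext c
  rw [mem_mset, mem_singleton]
  constructor
  · rintro ⟨h1, h2⟩
    exact σ.injective (le_antisymm (h2 b hb) (h c h1))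
  · rintro rfl
    exact ⟨hb, h⟩

/-- the orders in which `b` is the first element of `W` -/
noncomputable def Nb [Fintype B] (W : Finset B) (b : B) : Finset (B ≃ Fin n) :=
  univ.filter fun σ => ∀ b' ∈ W, σ b ≤ σ b'

lemma card_Nb_le [Fintype B] (W : Finset B) {b c : B} (hb : b ∈ W) (hc : c ∈ W) :
    (Nb (n := n) W b).card ≤ (Nb (n := n) W c).card := by
  refine card_le_card_of_injOn (fun σ => (Equiv.swap b c).trans σ) ?_ ?_
  · intro σ hσ
    have h : ∀ b' ∈ W, σ b ≤ σ b' := by simpa [Nb] using hσ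
    have : ∀ b' ∈ W, σ (Equiv.swap b c c) ≤ σ (Equiv.swap b c b') := by
      intro b' hb'
      rw [Equiv.swap_apply_right]
      apply h
      rw [Equiv.swap_apply_def]
      split_ifs
      · exact hc
      · exact hb
      · exact hb'
    simpa [Nb] using this
  · intro σ _ σ' _ h
    ext x
    have := congrArg (fun e : B ≃ Fin n => e (Equiv.swap b c x)) h
    simpa using congrArg Fin.val this

lemma sum_Nb [Fintype B] (W : Finset B) (hW : W.Nonempty) :
    ∑ b ∈ W, (Nb (n := n) W b).card = Fintype.card (B ≃ Fin n) := by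
  have h1 : ∀ b ∈ W, (Nb (n := n) W b).card =
      ∑ σ : B ≃ Fin n, if ∀ b' ∈ W, σ b ≤ σ b' then 1 else 0 := by
    intro b _
    rw [Nb, card_filter]
  rw [sum_congr rfl h1, sum_comm]
  have h2 : ∀ σ : B ≃ Fin n, (∑ b ∈ W, if ∀ b' ∈ W, σ b ≤ σ b' then 1 else 0) = 1 := by
    intro σ
    rw [← card_filter]
    obtain ⟨b, hb, h⟩ := exists_min_image W σ hW
    have := mset_eq_singleton hb h
    unfold mset at this
    rw [← card_singleton b, ← this]
    congr!
  rw [sum_congr rfl fun σ _ => h2 σ]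
  simp

theorem minhash [Fintype B] (U V : Finset B) (hcard : U.card = V.card) (hU : U.Nonempty) (δ : ℝ)
    (h : ((U \ V).card : ℝ) ≤ δ * U.card) :
    ((univ.filter fun σ : B ≃ Fin n => mset σ U ≠ mset σ V).card : ℝ) ≤
      2 * δ * Fintype.card (B ≃ Fin n) := by
  obtain ⟨W, hW⟩ : ∃ W, W = U ∪ V := ⟨_, rfl⟩
  obtain ⟨b₀, hb₀⟩ := hU
  have hb₀W : b₀ ∈ W := by rw [hW]; exact mem_union_left _ hb₀
  obtain ⟨ν, hν⟩ : ∃ ν, ν = (Nb (n := n) W b₀).card := ⟨_, rfl⟩
  have hN : ∀ b ∈ W, (Nb (n := n) W b).card = ν := fun b hb => by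
    rw [hν]; exact le_antisymm (card_Nb_le W hb hb₀W) (card_Nb_le W hb₀W hb)
  have hsum : W.card * ν = Fintype.card (B ≃ Fin n) := by
    rw [← sum_Nb (n := n) W ⟨b₀, hb₀W⟩, sum_congr rfl hN, sum_const, smul_eq_mul]
  obtain ⟨D, hD⟩ : ∃ D, D = (U \ V) ∪ (V \ U) := ⟨_, rfl⟩
  have hfail : (univ.filter fun σ : B ≃ Fin n => mset σ U ≠ mset σ V) ⊆
      D.biUnion fun b => Nb (n := n) W b := by
    intro σ hσ
    have hne : mset σ U ≠ mset σ V := by simpa using hσ
    obtain ⟨b, hb, hmin⟩ := exists_min_image W σ ⟨b₀, hb₀W⟩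
    have hbD : b ∈ D := by
      by_contra hcon
      apply hne
      have hbUV : b ∈ U ∧ b ∈ V := by
        rw [hW, mem_union] at hb
        rw [hD, mem_union, mem_sdiff, mem_sdiff] at hcon
        tauto
      rw [mset_eq_singleton hbUV.1 fun b' h' => hmin b' (by rw [hW]; exact mem_union_left _ h'),
        mset_eq_singleton hbUV.2 fun b' h' => hmin b' (by rw [hW]; exact mem_union_right _ h')]
    rw [mem_biUnion]
    refine ⟨b, hbD, ?_⟩
    simpa [Nb] using hmin
  have hDW : ∀ b ∈ D, b ∈ W := by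
    intro b hb
    rw [hD, mem_union, mem_sdiff, mem_sdiff] at hb
    rw [hW, mem_union]
    tauto
  have h1 : (univ.filter fun σ : B ≃ Fin n => mset σ U ≠ mset σ V).card ≤ D.card * ν := by
    refine (card_le_card hfail).trans (card_biUnion_le.trans ?_)
    rw [sum_congr rfl fun b hb => hN b (hDW b hb), sum_const, smul_eq_mul]
  have hVU : (V \ U).card = (U \ V).card := by
    have e1 := card_sdiff_add_card_inter V U
    have e2 := card_sdiff_add_card_inter U V
    rw [inter_comm V U] at e1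
    omega
  have h2 : D.card ≤ 2 * (U \ V).card := by
    rw [hD]
    refine (card_union_le _ _).trans ?_
    omega
  have hUW : U.card ≤ W.card := card_le_card (by rw [hW]; exact subset_union_left)
  have hUpos : 0 < U.card := card_pos.2 ⟨b₀, hb₀⟩
  have hδ : 0 ≤ δ := by
    by_contra hcon
    push Not at hcon
    have h3 : δ * U.card < 0 := mul_neg_of_neg_of_pos hcon (by exact_mod_cast hUpos)
    have h4 : (0 : ℝ) ≤ (U \ V).card := Nat.cast_nonneg _
    linarith
  have h5 : (D.card : ℝ) ≤ 2 * δ * W.card := by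
    have e1 : (D.card : ℝ) ≤ 2 * (U \ V).card := by exact_mod_cast h2
    have e2 : δ * (U.card : ℝ) ≤ δ * W.card :=
      mul_le_mul_of_nonneg_left (by exact_mod_cast hUW) hδ
    linarith
  calc ((univ.filter fun σ : B ≃ Fin n => mset σ U ≠ mset σ V).card : ℝ) ≤ D.card * ν := by
        exact_mod_cast h1
    _ ≤ 2 * δ * W.card * ν := mul_le_mul_of_nonneg_right h5 (Nat.cast_nonneg _)
    _ = 2 * δ * Fintype.card (B ≃ Fin n) := by rw [← hsum]; push_cast; ring

end Pool.Agent.SofAct
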