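import Pool.Agent.Lib.MP_2d1e68_al.Frames

/-!
# Invariant pieces, amenable groups, two-sided actions
-/

open Finset Filter

noncomputable section

namespace SoficAct

lemma soficOn_empty {H X : Type} [Group H] (α : H →* Equiv.Perm X) : SoficOn α ∅ := by
  intro F E ε hE hε
  have hE0 : ∀ x, x ∉ E := fun x hx => hE (mem_coe.2 hx)
  refine ⟨Unit, Unit, inferInstance, inferInstance, inferInstance, fun _ => 1, fun _ _ => (),
    ⟨rfl, ?_, ?_, ?_⟩⟩
  · intro g _ h _
    rw [frac_false]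
    · exact hε.le
    · intro a ha
      exact ha rfl
  · intro x hx
    exact absurd hx (hE0 x)
  · intro g _ x hx
    exact absurd hx (hE0 x)

lemma soficOn_range {H X Y : Type} [Group H] (α : H →* Equiv.Perm X) (β : H →* Equiv.Perm Y)
    (f : Y → X) (hf : Function.Injective f) (he : ∀ k y, f (β k y) = α k (f y)) (hY : Nonempty Y)
    (hs : IsSoficAction β) : SoficOn α (Set.range f) := by
  classical
  intro F E ε hE hε
  obtain ⟨A, B, iA, hA, iB, φ, π, hg⟩ := good_of_sofic β hs F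
    (E.preimage f hf.injOn) ε hε
  have hinv : ∀ y, Function.invFun f (f y) = y := Function.leftInverse_invFun hf
  refine ⟨A, B, iA, hA, inferInstance, φ, fun a z => π a (Function.invFun f z),
    ⟨hg.one, hg.mul, ?_, ?_⟩⟩
  · intro x hx y hy hxy
    obtain ⟨x', rfl⟩ := hE (mem_coe.2 hx)
    obtain ⟨y', rfl⟩ := hE (mem_coe.2 hy)
    simp only [hinv]
    exact hg.inj _ (mem_preimage.2 hx) _ (mem_preimage.2 hy) (fun h => hxy (by rw [h]))
  · intro g hgF x hx
    obtain ⟨x', rfl⟩ := hE (mem_coe.2 hx)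
    rw [← he]
    simp only [hinv]
    exact hg.equi g hgF _ (mem_preimage.2 hx)

/-- An action is sofic if every point lies in an invariant piece on which the action is sofic. -/
theorem sofic_of_pieces {H X : Type} [Group H] (α : H →* Equiv.Perm X) (Y : X → Type)
    (β : ∀ x, H →* Equiv.Perm (Y x)) (f : ∀ x, Y x → X) (hf : ∀ x, Function.Injective (f x))
    (he : ∀ x k y, f x (β x k y) = α k (f x y)) (hx : ∀ x, x ∈ Set.range (f x))
    (hs : ∀ x, IsSoficAction (β x)) : IsSoficAction α := by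
  classical
  have hinv : ∀ (x : X) (h : H) (z : X), α h z ∈ Set.range (f x) ↔ z ∈ Set.range (f x) := by
    intro x h z
    constructor
    · rintro ⟨y, hy⟩
      refine ⟨β x h⁻¹ y, ?_⟩
      rw [he, hy, ← Equiv.Perm.mul_apply, ← map_mul, inv_mul_cancel, map_one,
        Equiv.Perm.one_apply]
    · rintro ⟨y, rfl⟩
      exact ⟨β x h y, he x h y⟩
  have key : ∀ S : Finset X, SoficOn α {z | ∃ x ∈ S, z ∈ Set.range (f x)} := by
    intro S
    induction S using Finset.induction_on with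
    | empty =>
      have : {z | ∃ x ∈ (∅ : Finset X), z ∈ Set.range (f x)} = ∅ := by
        ext z
        simp
      rw [this]
      exact soficOn_empty α
    | insert a S _ ih =>
      have : {z | ∃ x ∈ insert a S, z ∈ Set.range (f x)} =
          Set.range (f a) ∪ {z | ∃ x ∈ S, z ∈ Set.range (f x)} := by
        ext z
        simp
      rw [this]
      refine SoficOn.union α _ _ (hinv a) ?_ ih
      obtain ⟨y, -⟩ := hx a
      exact soficOn_range α (β a) (f a) (hf a) (he a) ⟨y⟩ (hs a)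
  apply sofic_of_good
  intro F E ε hε
  exact key E F E ε (fun z hz => ⟨z, mem_coe.1 hz, hx z⟩) hε

/-- The trivial group is sofic; every action of it is sofic. -/
lemma sofic_of_trivial {H X : Type} [Group H] (hH : ∀ h : H, h = 1) (α : H →* Equiv.Perm X) :
    IsSoficAction α := by
  classical
  apply sofic_of_good
  intro F E ε hε
  refine ⟨Unit, Option E, inferInstance, inferInstance, inferInstance, fun _ => 1,
    fun _ x => if h : x ∈ E then some ⟨x, h⟩ else none, ⟨rfl, ?_, ?_, ?_⟩⟩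
  · intro g _ h _
    rw [frac_false]
    · exact hε.le
    · intro a ha
      exact ha rfl
  · intro x hx y hy hxy
    rw [frac_false]
    · exact hε.le
    · intro a ha
      simp only [dif_pos hx, dif_pos hy, Option.some.injEq, Subtype.mk.injEq] at ha
      exact hxy ha
  · intro g _ x hx
    rw [frac_false]
    · exact hε.le
    · intro a ha
      apply ha
      rw [hH g, map_one]
      rfl

lemma coAmenable_bot {H : Type} [Group H] (hH : IsAmenable H) : CoAmenable (⊥ : Subgroup H) := by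
  classical
  intro F ε hε
  obtain ⟨D, hD, h⟩ := hH F ε hε
  have hinj : Function.Injective (fun k : H => (k : H ⧸ (⊥ : Subgroup H))) := by
    intro a b hab
    have := QuotientGroup.eq.1 hab
    rw [Subgroup.mem_bot] at this
    exact inv_mul_eq_one.1 this
  refine ⟨D.image (fun k : H => (k : H ⧸ (⊥ : Subgroup H))), hD.image _, ?_⟩
  intro g hg
  rw [card_image_of_injective _ hinj]
  refine le_trans (le_of_eq ?_) (h g hg)
  congr 1
  symm
  apply Set.ncard_congr (fun (k : H) _ => (k : H ⧸ (⊥ : Subgroup H)))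
  · rintro k ⟨h1, h2⟩
    refine ⟨mem_image_of_mem _ h1, ?_⟩
    rw [mem_image]
    rintro ⟨k', hk', h3⟩
    apply h2
    have h4 : ((g * k : H) : H ⧸ (⊥ : Subgroup H)) = g • (k : H ⧸ (⊥ : Subgroup H)) := rfl
    rw [← h4] at h3
    rw [← hinj h3]
    exact hk'
  · intro a b _ _ hab
    exact hinj hab
  · rintro b ⟨h1, h2⟩
    obtain ⟨k, hk, rfl⟩ := mem_image.1 h1
    refine ⟨k, ⟨hk, ?_⟩, rfl⟩
    intro h3
    apply h2
    rw [mem_image]
    exact ⟨_, h3, rfl⟩

/-- Every action of an amenable group is sofic. -/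
theorem sofic_of_amenable {H X : Type} [Group H] (hH : IsAmenable H) (α : H →* Equiv.Perm X) :
    IsSoficAction α :=
  sofic_of_coamenable α ⊥ (coAmenable_bot hH) (sofic_of_trivial (fun h => Subsingleton.elim h 1) _)

/-- The product of two co-amenable subgroups is co-amenable. -/
lemma coAmenable_prod {H K : Type} [Group H] [Group K] (M : Subgroup H) (N : Subgroup K)
    (hM : CoAmenable M) (hN : CoAmenable N) : CoAmenable (M.prod N) := by
  classical
  intro F ε hε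
  obtain ⟨Φ, hΦ, h1⟩ := hM (F.image Prod.fst) (ε / 2) (by linarith)
  obtain ⟨Ψ, hΨ, h2⟩ := hN (F.image Prod.snd) (ε / 2) (by linarith)
  set f : (H ⧸ M) × (K ⧸ N) → (H × K) ⧸ (M.prod N) := fun p =>
    (((Quotient.out p.1, Quotient.out p.2) : H × K) : (H × K) ⧸ (M.prod N)) with hf
  have hfmk : ∀ (a : H) (b : K), f ((a : H ⧸ M), (b : K ⧸ N)) =
      (((a, b) : H × K) : (H × K) ⧸ (M.prod N)) := by
    intro a b
    rw [hf]
    apply QuotientGroup.eq.2
    rw [Subgroup.mem_prod]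
    exact ⟨QuotientGroup.eq.1 (Quotient.out_eq (a : H ⧸ M)),
      QuotientGroup.eq.1 (Quotient.out_eq (b : K ⧸ N))⟩
  have hfinj : Function.Injective f := by
    rintro ⟨p, q⟩ ⟨p', q'⟩ h
    obtain ⟨a, rfl⟩ := QuotientGroup.mk_surjective p
    obtain ⟨b, rfl⟩ := QuotientGroup.mk_surjective q
    obtain ⟨a', rfl⟩ := QuotientGroup.mk_surjective p'
    obtain ⟨b', rfl⟩ := QuotientGroup.mk_surjective q'
    rw [hfmk, hfmk] at h
    have h3 := QuotientGroup.eq.1 h
    rw [Subgroup.mem_prod] at h3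
    exact Prod.ext (QuotientGroup.eq.2 h3.1) (QuotientGroup.eq.2 h3.2)
  have hfact : ∀ (g : H × K) (p : (H ⧸ M) × (K ⧸ N)), g • f p = f (g.1 • p.1, g.2 • p.2) := by
    rintro ⟨g, k⟩ ⟨p, q⟩
    obtain ⟨a, rfl⟩ := QuotientGroup.mk_surjective p
    obtain ⟨b, rfl⟩ := QuotientGroup.mk_surjective q
    have h4 : g • (a : H ⧸ M) = ((g * a : H) : H ⧸ M) := rfl
    have h5 : k • (b : K ⧸ N) = ((k * b : K) : K ⧸ N) := rfl
    simp only [h4, h5]
    rw [hfmk, hfmk]
    rfl
  refine ⟨(Φ ×ˢ Ψ).image f, (hΦ.product hΨ).image _, ?_⟩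
  intro g hg
  have e1 := h1 g.1 (mem_image_of_mem _ hg)
  have e2 := h2 g.2 (mem_image_of_mem _ hg)
  rw [card_image_of_injective _ hfinj, card_product]
  have h6 : {q : (H × K) ⧸ (M.prod N) | q ∈ (Φ ×ˢ Ψ).image f ∧ g • q ∉ (Φ ×ˢ Ψ).image f} ⊆
      f '' (({q : H ⧸ M | q ∈ Φ ∧ g.1 • q ∉ Φ} ×ˢ (Ψ : Set (K ⧸ N))) ∪
        ((Φ : Set (H ⧸ M)) ×ˢ {q : K ⧸ N | q ∈ Ψ ∧ g.2 • q ∉ Ψ})) := by
    rintro q ⟨h7, h8⟩
    obtain ⟨⟨p, q⟩, h9, rfl⟩ := mem_image.1 h7
    rw [mem_product] at h9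
    refine ⟨(p, q), ?_, rfl⟩
    rw [hfact] at h8
    by_contra hcon
    apply h8
    refine mem_image_of_mem _ (mem_product.2 ⟨?_, ?_⟩)
    · by_contra h10
      exact hcon (Or.inl ⟨⟨h9.1, h10⟩, mem_coe.2 h9.2⟩)
    · by_contra h10
      exact hcon (Or.inr ⟨mem_coe.2 h9.1, ⟨h9.2, h10⟩⟩)
  have hfinA : {q : H ⧸ M | q ∈ Φ ∧ g.1 • q ∉ Φ}.Finite :=
    Φ.finite_toSet.subset (fun q hq => hq.1)
  have hfinB : {q : K ⧸ N | q ∈ Ψ ∧ g.2 • q ∉ Ψ}.Finite :=
    Ψ.finite_toSet.subset (fun q hq => hq.1)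
  have h11 : Set.ncard {q : (H × K) ⧸ (M.prod N) | q ∈ (Φ ×ˢ Ψ).image f ∧
      g • q ∉ (Φ ×ˢ Ψ).image f} ≤
      Set.ncard {q : H ⧸ M | q ∈ Φ ∧ g.1 • q ∉ Φ} * Ψ.card +
      Φ.card * Set.ncard {q : K ⧸ N | q ∈ Ψ ∧ g.2 • q ∉ Ψ} := by
    refine (Set.ncard_le_ncard h6 (((hfinA.prod Ψ.finite_toSet).union
      (Φ.finite_toSet.prod hfinB)).image f)).trans ?_
    refine (Set.ncard_image_le ((hfinA.prod Ψ.finite_toSet).union
      (Φ.finite_toSet.prod hfinB))).trans ?_
    refine (Set.ncard_union_le _ _).trans ?_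
    rw [Set.ncard_prod, Set.ncard_prod, Set.ncard_coe_finset, Set.ncard_coe_finset]
  have h12 : (Set.ncard {q : (H × K) ⧸ (M.prod N) | q ∈ (Φ ×ˢ Ψ).image f ∧
      g • q ∉ (Φ ×ˢ Ψ).image f} : ℝ) ≤
      Set.ncard {q : H ⧸ M | q ∈ Φ ∧ g.1 • q ∉ Φ} * Ψ.card +
      Φ.card * Set.ncard {q : K ⧸ N | q ∈ Ψ ∧ g.2 • q ∉ Ψ} := by
    exact_mod_cast h11
  refine h12.trans ?_
  have hΨ0 : (0 : ℝ) ≤ Ψ.card := by positivity
  have hΦ0 : (0 : ℝ) ≤ Φ.card := by positivity
  push_cast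
  nlinarith [mul_le_mul_of_nonneg_right e1 hΨ0, mul_le_mul_of_nonneg_left e2 hΦ0]

/-- The two-sided action of `W × W` on `W`. -/
def biAct (W : Type) [Group W] : W × W →* Equiv.Perm W where
  toFun g := (Equiv.mulLeft g.1).trans (Equiv.mulRight g.2⁻¹)
  map_one' := by
    apply Equiv.ext
    intro w
    simp
  map_mul' g h := by
    apply Equiv.ext
    intro w
    simp [mul_assoc]

lemma biAct_apply (W : Type) [Group W] (g : W × W) (w : W) : biAct W g w = g.1 * w * g.2⁻¹ := rfl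

/-- If the two-sided action of `G ≀_α H` is sofic, then `α` is sofic. -/
theorem sofic_of_biAct {G H X : Type} [Group G] [Group H] (α : H →* Equiv.Perm X)
    (hG : ∃ g : G, g ≠ 1) (hW : IsSoficAction (biAct (GenWreath G α))) : IsSoficAction α := by
  obtain ⟨g, hg⟩ := hG
  refine sofic_pullback (biAct (GenWreath G α)) α
    ((SemidirectProduct.inr : H →* GenWreath G α).prod SemidirectProduct.inr) (lamp α g)
    (lamp_injective α g hg) ?_ hW
  intro h x
  rw [biAct_apply]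
  exact eq_mul_inv_of_mul_eq (lamp_conj α g h x)

lemma biAct_subgroup {W V : Type} [Group W] [Group V] (f : V →* W) (hf : Function.Injective f)
    (hW : IsSoficAction (biAct W)) : IsSoficAction (biAct V) := by
  refine sofic_pullback (biAct W) (biAct V) (f.prodMap f) f hf ?_ hW
  intro k y
  rw [biAct_apply, biAct_apply, map_mul, map_mul, map_inv]
  rfl

/-- Products of amenable groups are amenable. -/
lemma IsAmenable.prod {H K : Type} [Group H] [Group K] (hH : IsAmenable H) (hK : IsAmenable K) :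
    IsAmenable (H × K) := by
  classical
  intro F ε hε
  obtain ⟨Φ, hΦ, h1⟩ := hH (F.image Prod.fst) (ε / 2) (by linarith)
  obtain ⟨Ψ, hΨ, h2⟩ := hK (F.image Prod.snd) (ε / 2) (by linarith)
  refine ⟨Φ ×ˢ Ψ, hΦ.product hΨ, ?_⟩
  intro g hg
  have e1 := h1 g.1 (mem_image_of_mem _ hg)
  have e2 := h2 g.2 (mem_image_of_mem _ hg)
  rw [card_product]
  have h6 : {q : H × K | q ∈ (Φ ×ˢ Ψ) ∧ g * q ∉ (Φ ×ˢ Ψ)} ⊆
      (({q : H | q ∈ Φ ∧ g.1 * q ∉ Φ} ×ˢ (Ψ : Set K)) ∪
        ((Φ : Set H) ×ˢ {q : K | q ∈ Ψ ∧ g.2 * q ∉ Ψ})) := by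
    rintro ⟨p, q⟩ ⟨h7, h8⟩
    rw [mem_product] at h7
    by_contra hcon
    apply h8
    refine (mem_product.2 ⟨?_, ?_⟩)
    · by_contra h10
      exact hcon (Or.inl ⟨⟨h7.1, h10⟩, mem_coe.2 h7.2⟩)
    · by_contra h10
      exact hcon (Or.inr ⟨mem_coe.2 h7.1, ⟨h7.2, h10⟩⟩)
  have hfinA : {q : H | q ∈ Φ ∧ g.1 * q ∉ Φ}.Finite :=
    Φ.finite_toSet.subset (fun q hq => hq.1)
  have hfinB : {q : K | q ∈ Ψ ∧ g.2 * q ∉ Ψ}.Finite :=
    Ψ.finite_toSet.subset (fun q hq => hq.1)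
  have h11 : Set.ncard {q : H × K | q ∈ (Φ ×ˢ Ψ) ∧ g * q ∉ (Φ ×ˢ Ψ)} ≤
      Set.ncard {q : H | q ∈ Φ ∧ g.1 * q ∉ Φ} * Ψ.card +
      Φ.card * Set.ncard {q : K | q ∈ Ψ ∧ g.2 * q ∉ Ψ} := by
    refine (Set.ncard_le_ncard h6 ((hfinA.prod Ψ.finite_toSet).union
      (Φ.finite_toSet.prod hfinB))).trans ?_
    refine (Set.ncard_union_le _ _).trans ?_
    rw [Set.ncard_prod, Set.ncard_prod, Set.ncard_coe_finset, Set.ncard_coe_finset]
  have h12 : (Set.ncard {q : H × K | q ∈ (Φ ×ˢ Ψ) ∧ g * q ∉ (Φ ×ˢ Ψ)} : ℝ) ≤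
      Set.ncard {q : H | q ∈ Φ ∧ g.1 * q ∉ Φ} * Ψ.card +
      Φ.card * Set.ncard {q : K | q ∈ Ψ ∧ g.2 * q ∉ Ψ} := by
    exact_mod_cast h11
  refine h12.trans ?_
  have hΨ0 : (0 : ℝ) ≤ Ψ.card := by positivity
  have hΦ0 : (0 : ℝ) ≤ Φ.card := by positivity
  push_cast
  nlinarith [mul_le_mul_of_nonneg_right e1 hΨ0, mul_le_mul_of_nonneg_left e2 hΦ0]

/-- The two-sided action of a group that is locally embeddable into amenable groups is sofic. -/
theorem biAct_lea {W : Type} [Group W] (hW : IsLEA W) : IsSoficAction (biAct W) := by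
  classical
  apply sofic_of_local
  intro F E
  set F₁ : Finset W := F.image Prod.fst ∪ F.image Prod.snd with hF₁
  set F₂ : Finset W := {1} ∪ F₁ ∪ F₁.image (fun w => w⁻¹) ∪ E ∪
    (F₁ ×ˢ E).image (fun p => p.1 * p.2) with hF₂
  obtain ⟨M, iM, f, hM, hinj, hmul⟩ := hW F₂
  have h1F : (1 : W) ∈ F₂ := by
    simp [hF₂]
  have hf1 : f 1 = 1 := by
    have := hmul 1 h1F 1 h1F
    rw [mul_one] at this
    exact left_eq_mul.1 this
  have hg1 : ∀ g ∈ F, g.1 ∈ F₂ := by
    intro g hg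
    rw [hF₂]
    simp only [mem_union]
    exact Or.inl (Or.inl (Or.inl (Or.inr (by
      rw [hF₁, mem_union]
      exact Or.inl (mem_image_of_mem _ hg)))))
  have hg2 : ∀ g ∈ F, g.2 ∈ F₂ := by
    intro g hg
    rw [hF₂]
    simp only [mem_union]
    exact Or.inl (Or.inl (Or.inl (Or.inr (by
      rw [hF₁, mem_union]
      exact Or.inr (mem_image_of_mem _ hg)))))
  have hg2' : ∀ g ∈ F, g.2⁻¹ ∈ F₂ := by
    intro g hg
    rw [hF₂]
    simp only [mem_union]
    exact Or.inl (Or.inl (Or.inr (mem_image_of_mem _ (by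
      rw [hF₁, mem_union]
      exact Or.inr (mem_image_of_mem _ hg)))))
  have hx : ∀ x ∈ E, x ∈ F₂ := by
    intro x hx
    rw [hF₂]
    simp only [mem_union]
    exact Or.inl (Or.inr hx)
  have hgx : ∀ g ∈ F, ∀ x ∈ E, g.1 * x ∈ F₂ := by
    intro g hg x hx
    rw [hF₂, mem_union]
    refine Or.inr (mem_image.2 ⟨(g.1, x), mem_product.2 ⟨?_, hx⟩, rfl⟩)
    change g.1 ∈ F₁
    rw [hF₁, mem_union]
    exact Or.inl (mem_image_of_mem _ hg)
  refine ⟨M × M, M, inferInstance, biAct M, fun g => (f g.1, f g.2), f,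
    sofic_of_amenable (hM.prod hM) _, ?_, ?_, ?_, ?_⟩
  · exact Prod.ext hf1 hf1
  · intro g hg h hh
    exact Prod.ext (hmul _ (hg1 g hg) _ (hg1 h hh)) (hmul _ (hg2 g hg) _ (hg2 h hh))
  · intro x hx' y hy' h
    exact hinj (mem_coe.2 (hx x hx')) (mem_coe.2 (hx y hy')) h
  · intro g hg x hx'
    rw [biAct_apply, biAct_apply, hmul _ (hgx g hg x hx') _ (hg2' g hg),
      hmul _ (hg1 g hg) _ (hx x hx')]
    congr 1
    have := hmul _ (hg2' g hg) _ (hg2 g hg)
    rw [inv_mul_cancel, hf1] at this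
    exact (inv_eq_of_mul_eq_one_left this.symm).symm

/-- If `M` is normal in `W` with amenable quotient and the two-sided action of `M` is sofic, then
the two-sided action of `W` is sofic. -/
theorem biAct_extension {W : Type} [Group W] (M : Subgroup W) [hMn : M.Normal] (hM : CoAmenable M)
    (hs : IsSoficAction (biAct M)) : IsSoficAction (biAct W) := by
  classical
  refine sofic_of_coamenable (biAct W) (M.prod M) (coAmenable_prod M M hM hM) ?_
  set ρ : W → (M.prod M) →* M × M := fun w =>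
    { toFun := fun p => (⟨w⁻¹ * p.1.1 * w, by
        have := hMn.conj_mem p.1.1 (Subgroup.mem_prod.1 p.2).1 w⁻¹
        rwa [inv_inv] at this⟩, ⟨p.1.2, (Subgroup.mem_prod.1 p.2).2⟩)
      map_one' := by
        refine Prod.ext (Subtype.ext ?_) rfl
        simp
      map_mul' := by
        intro p q
        refine Prod.ext (Subtype.ext ?_) rfl
        simp [mul_assoc] } with hρ
  refine sofic_of_pieces _ (fun _ => M) (fun w => (biAct M).comp (ρ w)) (fun w n => w * n)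
    ?_ ?_ ?_ ?_
  · intro w a b hab
    exact Subtype.ext (mul_left_cancel hab)
  · intro w k y
    change w * ((w⁻¹ * k.1.1 * w) * (y : W) * (k.1.2)⁻¹) = k.1.1 * (w * y) * (k.1.2)⁻¹
    simp [mul_assoc]
  · intro w
    exact ⟨1, by simp⟩
  · intro w
    exact sofic_pullback (biAct M) _ (ρ w) id Function.injective_id (fun k y => rfl) hs

end SoficAct
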