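import Pool.Agent.Lib.MP_2d1e68_al.Fibre

/-!
# Actions of sofic groups with amenable stabilizers, and elementary closure properties
-/

open Finset

noncomputable section

namespace SoficAct

lemma perm_inv_app {A : Type} (e : Equiv.Perm A) (a : A) : e⁻¹ (e a) = a := by simp

lemma frac_compl {A : Type} [Fintype A] [Nonempty A] (P : A → Prop) :
    frac (fun a => ¬ P a) = 1 - frac P := by
  classical
  have hc : (0 : ℝ) < Fintype.card A := by exact_mod_cast Fintype.card_pos
  rw [frac_eq, frac_eq, eq_sub_iff_add_eq, ← add_div, div_eq_one_iff_eq hc.ne']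
  have h := card_filter_add_card_filter_not (s := (univ : Finset A)) P
  rw [card_univ] at h
  have h2 : ((univ.filter P).card : ℝ) + ((univ.filter (fun a => ¬ P a)).card : ℝ)
      = Fintype.card A := by exact_mod_cast h
  linarith

/-- The diagonal action of `H` on `H × X`. -/
def diagAct {H X : Type} [Group H] (α : H →* Equiv.Perm X) : H →* Equiv.Perm (H × X) where
  toFun g := Equiv.prodCongr (Equiv.mulLeft g) (α g)
  map_one' := by
    apply Equiv.ext
    rintro ⟨g, x⟩
    simp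
  map_mul' g h := by
    apply Equiv.ext
    rintro ⟨k, x⟩
    simp [mul_assoc]

lemma diagAct_apply {H X : Type} [Group H] (α : H →* Equiv.Perm X) (g k : H) (x : X) :
    diagAct α g (k, x) = (g * k, α g x) := rfl

/-- If `H` is sofic then its action on `H × X` is sofic. -/
theorem sofic_diag {H X : Type} [Group H] (α : H →* Equiv.Perm X) (hH : IsSoficGroup H) :
    IsSoficAction (diagAct α) := by
  classical
  apply sofic_of_good
  intro F E ε hε
  set E₁ : Finset H := E.image Prod.fst with hE₁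
  set F' : Finset H := F ∪ E₁ ∪ (E₁ ×ˢ E₁).image (fun p => p.1⁻¹ * p.2) with hF'
  obtain ⟨A, iA, hA, φ, h1, hmul, hfree⟩ := hH F' (ε / 4) (by linarith)
  set I : Finset X := E.image (fun p => α p.1⁻¹ p.2) with hI
  set lab : X → Option I := fun z => if h : z ∈ I then some ⟨z, h⟩ else none with hlab
  have hlabinj : ∀ z ∈ I, ∀ w ∈ I, lab z = lab w → z = w := by
    intro z hz w hw h
    rw [hlab] at h
    simp only [dif_pos hz, dif_pos hw, Option.some.injEq, Subtype.mk.injEq] at h
    exact h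
  have hmul' : ∀ g ∈ F', ∀ h ∈ F', frac (fun a => φ (g * h) a ≠ φ g (φ h a)) ≤ ε / 4 :=
    fun g hg h hh => (hmul g hg h hh).le
  have hfree' : ∀ g ∈ F', g ≠ 1 → frac (fun a => φ g a = a) ≤ ε / 4 := by
    intro g hg hg1
    have h2 := hfree g hg hg1
    have h3 := frac_compl (fun a => φ g a = a)
    have h4 : hamming 1 (φ g) = frac (fun a => ¬ φ g a = a) := by
      unfold hamming
      congr 1
      funext a
      rw [Equiv.Perm.one_apply, ne_comm]
    rw [h4] at h2
    linarith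
  refine ⟨A, A × Option I, iA, hA, inferInstance, φ,
    fun a p => ((φ p.1)⁻¹ a, lab (α p.1⁻¹ p.2)), h1, ?_, ?_, ?_⟩
  · intro g hg h hh
    refine (hmul' g ?_ h ?_).trans (by linarith)
    · rw [hF', mem_union, mem_union]
      exact Or.inl (Or.inl hg)
    · rw [hF', mem_union, mem_union]
      exact Or.inl (Or.inl hh)
  · rintro ⟨g, x⟩ hp ⟨g', x'⟩ hq hne
    by_cases hlx : α g⁻¹ x = α g'⁻¹ x'
    · have hgg : g ≠ g' := by
        rintro rfl
        exact hne (Prod.ext rfl ((α g⁻¹).injective hlx))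
      have hgF : g ∈ F' := by
        rw [hF', mem_union, mem_union]
        exact Or.inl (Or.inr (mem_image.2 ⟨_, hp, rfl⟩))
      have hkF : g⁻¹ * g' ∈ F' := by
        rw [hF', mem_union]
        exact Or.inr (mem_image.2 ⟨(g, g'), mem_product.2 ⟨mem_image.2 ⟨_, hp, rfl⟩,
          mem_image.2 ⟨_, hq, rfl⟩⟩, rfl⟩)
      have hk1 : g⁻¹ * g' ≠ 1 := fun h => hgg (inv_mul_eq_one.1 h)
      rw [← frac_perm _ (φ g')]
      refine (frac_mono (Q := fun b => φ (g * (g⁻¹ * g')) b ≠ φ g (φ (g⁻¹ * g') b) ∨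
        φ (g⁻¹ * g') b = b) ?_).trans ((frac_or _ _).trans ?_)
      · intro b hb
        have h5 : (φ g)⁻¹ (φ g' b) = (φ g')⁻¹ (φ g' b) := congrArg Prod.fst hb
        rw [perm_inv_app, Equiv.Perm.inv_eq_iff_eq] at h5
        by_contra hcon
        push Not at hcon
        obtain ⟨h6, h7⟩ := hcon
        rw [mul_inv_cancel_left, h5] at h6
        exact h7 ((φ g).injective h6).symm
      · have h8 := hmul' g hgF _ hkF
        have h9 := hfree' _ hkF hk1
        linarith
    · rw [frac_false]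
      · exact hε.le
      · intro a ha
        apply hlx
        exact hlabinj _ (mem_image.2 ⟨_, hp, rfl⟩) _ (mem_image.2 ⟨_, hq, rfl⟩)
          (congrArg Prod.snd ha)
  · rintro h hh ⟨g, x⟩ hp
    have hgF : g ∈ F' := by
      rw [hF', mem_union, mem_union]
      exact Or.inl (Or.inr (mem_image.2 ⟨_, hp, rfl⟩))
    have hhF : h ∈ F' := by
      rw [hF', mem_union, mem_union]
      exact Or.inl (Or.inl hh)
    rw [← frac_perm _ (φ g)]
    refine (frac_mono (Q := fun b => φ (h * g) b ≠ φ h (φ g b)) ?_).trans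
      ((hmul' h hhF g hgF).trans (by linarith))
    intro b hb hcon
    apply hb
    rw [diagAct_apply]
    refine Prod.ext ?_ ?_
    · change (φ (h * g))⁻¹ (φ h (φ g b)) = (φ g)⁻¹ (φ g b)
      rw [← hcon, perm_inv_app, perm_inv_app]
    · change lab (α (h * g)⁻¹ (α h x)) = lab (α g⁻¹ x)
      congr 1
      rw [← Equiv.Perm.mul_apply, ← map_mul]
      congr 2
      group

/-- **Amenable stabilizers.** -/
theorem sofic_of_amenable_stab {H X : Type} [Group H] (α : H →* Equiv.Perm X)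
    (hH : IsSoficGroup H) (hst : ∀ x, IsAmenable (stab α x)) : IsSoficAction α := by
  classical
  refine sofic_of_fibres (diagAct α) α Prod.snd (fun h y => rfl) ?_ (sofic_diag α hH)
  intro x F ε hε hfix
  obtain ⟨D, hD, hinv⟩ := hst x
    (F.attach.image (fun g : {g // g ∈ F} => (⟨g.1, hfix g.1 g.2⟩ : stab α x))) ε hε
  have hinj : Function.Injective (fun k : stab α x => ((k : H), x)) := by
    intro k k' h
    exact Subtype.ext (congrArg Prod.fst h)
  refine ⟨D.image (fun k : stab α x => ((k : H), x)), hD.image _, ?_, ?_⟩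
  · intro y hy
    rw [mem_image] at hy
    obtain ⟨k, -, rfl⟩ := hy
    rfl
  · intro g hg
    have h1 := hinv ⟨g, hfix g hg⟩ (mem_image.2 ⟨⟨g, hg⟩, mem_attach _ _, rfl⟩)
    rw [card_image_of_injective _ hinj]
    refine le_trans (le_of_eq ?_) h1
    congr 1
    symm
    apply Set.ncard_congr (fun (k : stab α x) _ => ((k : H), x))
    · rintro k ⟨hk1, hk2⟩
      refine ⟨mem_image.2 ⟨k, hk1, rfl⟩, ?_⟩
      rw [mem_image]
      rintro ⟨k', hk', h2⟩
      apply hk2
      rw [diagAct_apply] at h2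
      have h3 : (k' : H) = g * k := congrArg Prod.fst h2
      have h4 : k' = ⟨g, hfix g hg⟩ * k := Subtype.ext h3
      rw [← h4]
      exact hk'
    · intro k k' _ _ h
      exact hinj h
    · rintro ⟨y1, y2⟩ ⟨hy1, hy2⟩
      obtain ⟨k, hk, h2⟩ := mem_image.1 hy1
      refine ⟨k, ⟨hk, ?_⟩, h2⟩
      intro h3
      apply hy2
      rw [mem_image]
      refine ⟨_, h3, ?_⟩
      rw [← h2, diagAct_apply]
      refine Prod.ext rfl ?_
      exact (hfix g hg).symm

/-- Pulling back along a homomorphism and an injective equivariant map. -/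
theorem sofic_pullback {H X K Y : Type} [Group H] [Group K] (α : H →* Equiv.Perm X)
    (β : K →* Equiv.Perm Y) (ρ : K →* H) (f : Y → X) (hf : Function.Injective f)
    (he : ∀ k y, f (β k y) = α (ρ k) (f y)) (hs : IsSoficAction α) : IsSoficAction β := by
  classical
  apply sofic_of_good
  intro F E ε hε
  obtain ⟨A, B, iA, hA, iB, φ, π, hg⟩ := good_of_sofic α hs (F.image ρ) (E.image f) ε hε
  refine ⟨A, B, iA, hA, inferInstance, fun k => φ (ρ k), fun a y => π a (f y), ?_, ?_, ?_, ?_⟩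
  · change φ (ρ 1) = 1
    rw [map_one]
    exact hg.one
  · intro g hgF h hh
    have := hg.mul _ (mem_image_of_mem ρ hgF) _ (mem_image_of_mem ρ hh)
    rw [← map_mul] at this
    exact this
  · intro x hx y hy hxy
    exact hg.inj _ (mem_image_of_mem f hx) _ (mem_image_of_mem f hy) (fun h => hxy (hf h))
  · intro g hgF x hx
    have := hg.equi _ (mem_image_of_mem ρ hgF) _ (mem_image_of_mem f hx)
    rw [← he] at this
    exact this

/-- **Local limits.** If on every window the action looks like a sofic action, it is sofic. -/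
theorem sofic_of_local {H X : Type} [Group H] (α : H →* Equiv.Perm X)
    (hloc : ∀ (F : Finset H) (E : Finset X), ∃ (K Y : Type) (_ : Group K) (β : K →* Equiv.Perm Y)
      (ρ : H → K) (f : X → Y), IsSoficAction β ∧ ρ 1 = 1 ∧
        (∀ g ∈ F, ∀ h ∈ F, ρ (g * h) = ρ g * ρ h) ∧ Set.InjOn f E ∧
        ∀ g ∈ F, ∀ x ∈ E, f (α g x) = β (ρ g) (f x)) : IsSoficAction α := by
  classical
  apply sofic_of_good
  intro F E ε hε
  obtain ⟨K, Y, iK, β, ρ, f, hs, hρ1, hρ, hf, he⟩ := hloc F E
  obtain ⟨A, B, iA, hA, iB, φ, π, hg⟩ := good_of_sofic β hs (F.image ρ) (E.image f) ε hε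
  refine ⟨A, B, iA, hA, inferInstance, fun k => φ (ρ k), fun a y => π a (f y), ?_, ?_, ?_, ?_⟩
  · change φ (ρ 1) = 1
    rw [hρ1]
    exact hg.one
  · intro g hgF h hh
    have := hg.mul _ (mem_image_of_mem ρ hgF) _ (mem_image_of_mem ρ hh)
    rw [← hρ g hgF h hh] at this
    exact this
  · intro x hx y hy hxy
    exact hg.inj _ (mem_image_of_mem f hx) _ (mem_image_of_mem f hy) (fun h => hxy (hf hx hy h))
  · intro g hgF x hx
    have := hg.equi _ (mem_image_of_mem ρ hgF) _ (mem_image_of_mem f hx)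
    rw [← he g hgF x hx] at this
    exact this

/-- Products of sofic actions are sofic. -/
theorem sofic_prod {H X Y : Type} [Group H] (α : H →* Equiv.Perm X) (β : H →* Equiv.Perm Y)
    (γ : H →* Equiv.Perm (X × Y)) (hγ : ∀ h p, γ h p = (α h p.1, β h p.2))
    (h1 : IsSoficAction α) (h2 : IsSoficAction β) : IsSoficAction γ := by
  classical
  apply sofic_of_good
  intro F E ε hε
  obtain ⟨A₁, B₁, iA₁, hA₁, iB₁, φ₁, π₁, hg₁⟩ := good_of_sofic α h1 F (E.image Prod.fst) (ε / 2)
    (by linarith)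
  obtain ⟨A₂, B₂, iA₂, hA₂, iB₂, φ₂, π₂, hg₂⟩ := good_of_sofic β h2 F (E.image Prod.snd) (ε / 2)
    (by linarith)
  refine ⟨A₁ × A₂, B₁ × B₂, inferInstance, inferInstance, inferInstance,
    fun h => Equiv.prodCongr (φ₁ h) (φ₂ h), fun a p => (π₁ a.1 p.1, π₂ a.2 p.2), ?_, ?_, ?_, ?_⟩
  · rw [hg₁.one, hg₂.one]
    rfl
  · intro g hg h hh
    have e1 := hg₁.mul g hg h hh
    have e2 := hg₂.mul g hg h hh
    rw [← frac_fst (C := A₂)] at e1
    rw [← frac_snd (A := A₁)] at e2
    refine (frac_mono (Q := fun p : A₁ × A₂ => φ₁ (g * h) p.1 ≠ φ₁ g (φ₁ h p.1) ∨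
      φ₂ (g * h) p.2 ≠ φ₂ g (φ₂ h p.2)) ?_).trans ((frac_or _ _).trans (by linarith))
    rintro ⟨a, b⟩ hab
    by_contra hcon
    push Not at hcon
    exact hab (Prod.ext hcon.1 hcon.2)
  · rintro ⟨x, y⟩ hp ⟨x', y'⟩ hq hne
    by_cases hxx : x = x'
    · have hyy : y ≠ y' := fun h => hne (Prod.ext hxx h)
      have e2 := hg₂.inj y (mem_image.2 ⟨_, hp, rfl⟩) y' (mem_image.2 ⟨_, hq, rfl⟩) hyy
      rw [← frac_snd (A := A₁)] at e2
      exact (frac_mono (fun a ha => congrArg Prod.snd ha)).trans (e2.trans (by linarith))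
    · have e1 := hg₁.inj x (mem_image.2 ⟨_, hp, rfl⟩) x' (mem_image.2 ⟨_, hq, rfl⟩) hxx
      rw [← frac_fst (C := A₂)] at e1
      exact (frac_mono (fun a ha => congrArg Prod.fst ha)).trans (e1.trans (by linarith))
  · rintro g hg ⟨x, y⟩ hp
    have e1 := hg₁.equi g hg x (mem_image.2 ⟨_, hp, rfl⟩)
    have e2 := hg₂.equi g hg y (mem_image.2 ⟨_, hp, rfl⟩)
    rw [← frac_fst (C := A₂)] at e1
    rw [← frac_snd (A := A₁)] at e2
    refine (frac_mono (Q := fun p : A₁ × A₂ => π₁ (φ₁ g p.1) (α g x) ≠ π₁ p.1 x ∨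
      π₂ (φ₂ g p.2) (β g y) ≠ π₂ p.2 y) ?_).trans ((frac_or _ _).trans (by linarith))
    rintro ⟨a, b⟩ hab
    by_contra hcon
    push Not at hcon
    apply hab
    rw [hγ]
    exact Prod.ext hcon.1 hcon.2

/-- The action restricted to the points of `Z` is sofic. -/
def SoficOn {H X : Type} [Group H] (α : H →* Equiv.Perm X) (Z : Set X) : Prop :=
  ∀ (F : Finset H) (E : Finset X) (ε : ℝ), (E : Set X) ⊆ Z → 0 < ε →
    ∃ (A B : Type) (_ : Fintype A) (_ : Nonempty A) (_ : Finite B) (φ : H → Equiv.Perm A)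
      (π : A → X → B), Good α F E ε φ π

lemma SoficOn.union {H X : Type} [Group H] (α : H →* Equiv.Perm X) (Z₁ Z₂ : Set X)
    (hZ₁ : ∀ h, ∀ x, α h x ∈ Z₁ ↔ x ∈ Z₁) (h1 : SoficOn α Z₁) (h2 : SoficOn α Z₂) :
    SoficOn α (Z₁ ∪ Z₂) := by
  classical
  intro F E ε hE hε
  obtain ⟨A₁, B₁, iA₁, hA₁, iB₁, φ₁, π₁, hg₁⟩ := h1 F (E.filter (fun x => x ∈ Z₁)) (ε / 2)
    (by
      intro x hx
      rw [mem_coe, mem_filter] at hx
      exact hx.2) (by linarith)
  obtain ⟨A₂, B₂, iA₂, hA₂, iB₂, φ₂, π₂, hg₂⟩ := h2 F (E.filter (fun x => x ∉ Z₁)) (ε / 2)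
    (by
      intro x hx
      rw [mem_coe, mem_filter] at hx
      rcases hE (mem_coe.2 hx.1) with h | h
      · exact absurd h hx.2
      · exact h) (by linarith)
  refine ⟨A₁ × A₂, B₁ ⊕ B₂, inferInstance, inferInstance, inferInstance,
    fun h => Equiv.prodCongr (φ₁ h) (φ₂ h),
    fun a x => if x ∈ Z₁ then Sum.inl (π₁ a.1 x) else Sum.inr (π₂ a.2 x), ?_, ?_, ?_, ?_⟩
  · rw [hg₁.one, hg₂.one]
    rfl
  · intro g hg h hh
    have e1 := hg₁.mul g hg h hh
    have e2 := hg₂.mul g hg h hh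
    rw [← frac_fst (C := A₂)] at e1
    rw [← frac_snd (A := A₁)] at e2
    refine (frac_mono (Q := fun p : A₁ × A₂ => φ₁ (g * h) p.1 ≠ φ₁ g (φ₁ h p.1) ∨
      φ₂ (g * h) p.2 ≠ φ₂ g (φ₂ h p.2)) ?_).trans ((frac_or _ _).trans (by linarith))
    rintro ⟨a, b⟩ hab
    by_contra hcon
    push Not at hcon
    exact hab (Prod.ext hcon.1 hcon.2)
  · intro x hx y hy hxy
    by_cases hx1 : x ∈ Z₁
    · by_cases hy1 : y ∈ Z₁
      · have e1 := hg₁.inj x (mem_filter.2 ⟨hx, hx1⟩) y (mem_filter.2 ⟨hy, hy1⟩) hxy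
        rw [← frac_fst (C := A₂)] at e1
        refine (frac_mono ?_).trans (e1.trans (by linarith))
        intro a ha
        simp only [if_pos hx1, if_pos hy1, Sum.inl.injEq] at ha
        exact ha
      · rw [frac_false]
        · exact hε.le
        · intro a ha
          simp only [if_pos hx1, if_neg hy1] at ha
          cases ha
    · by_cases hy1 : y ∈ Z₁
      · rw [frac_false]
        · exact hε.le
        · intro a ha
          simp only [if_neg hx1, if_pos hy1] at ha
          cases ha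
      · have e2 := hg₂.inj x (mem_filter.2 ⟨hx, hx1⟩) y (mem_filter.2 ⟨hy, hy1⟩) hxy
        rw [← frac_snd (A := A₁)] at e2
        refine (frac_mono ?_).trans (e2.trans (by linarith))
        intro a ha
        simp only [if_neg hx1, if_neg hy1, Sum.inr.injEq] at ha
        exact ha
  · intro g hg x hx
    by_cases hx1 : x ∈ Z₁
    · have hx2 : α g x ∈ Z₁ := (hZ₁ g x).2 hx1
      have e1 := hg₁.equi g hg x (mem_filter.2 ⟨hx, hx1⟩)
      rw [← frac_fst (C := A₂)] at e1
      refine (frac_mono ?_).trans (e1.trans (by linarith))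
      intro a ha hcon
      apply ha
      simp only [if_pos hx1, if_pos hx2, Sum.inl.injEq]
      exact hcon
    · have hx2 : α g x ∉ Z₁ := fun h => hx1 ((hZ₁ g x).1 h)
      have e2 := hg₂.equi g hg x (mem_filter.2 ⟨hx, hx1⟩)
      rw [← frac_snd (A := A₁)] at e2
      refine (frac_mono ?_).trans (e2.trans (by linarith))
      intro a ha hcon
      apply ha
      simp only [if_neg hx1, if_neg hx2, Sum.inr.injEq]
      exact hcon

end SoficAct
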