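import Pool.Agent.Lib.MP_2d1e68_al.Full

/-!
# Matching two actions of an amenable group by random tiles
-/

open Finset

noncomputable section

namespace SoficAct

/-- **Tile matching.** `A` is an amenable subgroup of the sofic group `G`, `ϕ : A → G` an injective
homomorphism, `G` acts on `X` by the sofic action `α`, and the bijection `τ` of `X` conjugates the
action of `a` to the action of `ϕ a`.  Then there are approximations of the action of `G` with a
permutation `T` that approximates `τ` and conjugates `a` to `ϕ a`. -/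
theorem exists_stable {G X : Type} [Group G] (α : G →* Equiv.Perm X) (hG : IsSoficGroup G)
    (hα : IsSoficAction α) (A : Subgroup G) (hA : IsAmenable A) (ϕ : A →* G)
    (hϕ : Function.Injective ϕ) (τ : Equiv.Perm X) (hτ : ∀ (a : A) x, τ (α a x) = α (ϕ a) (τ x))
    (F : Finset G) (E : Finset X) (ε : ℝ) (hε : 0 < ε) :
    ∃ (V C : Type) (_ : Fintype V) (_ : Nonempty V) (_ : Finite C) (ψ : G → Equiv.Perm V)
      (T : Equiv.Perm V) (π : V → X → C), Good α F E ε ψ π ∧
      (∀ a : A, (a : G) ∈ F → frac (fun v => T (ψ a v) ≠ ψ (ϕ a) (T v)) ≤ ε) ∧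
      ∀ x ∈ E, frac (fun v => π (T v) (τ x) ≠ π v x) ≤ ε := by
  classical
  -- the shape of the tiles
  set FA : Finset A := F.subtype (fun g => g ∈ A) with hFA
  have hFAmem : ∀ a : A, a ∈ FA ↔ (a : G) ∈ F := by
    intro a
    rw [hFA, mem_subtype]
  obtain ⟨D, hD, hDinv⟩ := hA FA (ε / 4) (by linarith)
  set K : Finset A := FA ∪ D ∪ (FA ×ˢ D).image (fun p => p.1 * p.2) ∪
    (D ×ˢ D).image (fun p => p.1⁻¹ * p.2) with hK
  have hKF : ∀ a ∈ FA, a ∈ K := by
    intro a ha
    rw [hK, mem_union, mem_union, mem_union]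
    exact Or.inl (Or.inl (Or.inl ha))
  have hKD : ∀ d ∈ D, d ∈ K := by
    intro a ha
    rw [hK, mem_union, mem_union, mem_union]
    exact Or.inl (Or.inl (Or.inr ha))
  have hKFD : ∀ a ∈ FA, ∀ d ∈ D, a * d ∈ K := by
    intro a ha d hd
    rw [hK, mem_union, mem_union]
    exact Or.inl (Or.inr (mem_image.2 ⟨(a, d), mem_product.2 ⟨ha, hd⟩, rfl⟩))
  have hKDD : ∀ d ∈ D, ∀ e ∈ D, d⁻¹ * e ∈ K := by
    intro a ha d hd
    rw [hK, mem_union]
    exact Or.inr (mem_image.2 ⟨(a, d), mem_product.2 ⟨ha, hd⟩, rfl⟩)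
  have h1K : (1 : A) ∈ K := by
    obtain ⟨d, hd⟩ := hD
    have := hKDD d hd d hd
    rwa [inv_mul_cancel] at this
  set K₁ : Finset G := K.image (fun a : A => (a : G)) ∪ K.image ϕ with hK₁
  set L : Finset G := F ∪ K₁ ∪ (K₁ ×ˢ K₁).image (fun p => p.1⁻¹ * p.2) with hL
  have hLF : ∀ g ∈ F, g ∈ L := by
    intro g hg
    rw [hL, mem_union, mem_union]
    exact Or.inl (Or.inl hg)
  have hLa : ∀ a ∈ K, (a : G) ∈ L := by
    intro a ha
    rw [hL, mem_union, mem_union, hK₁, mem_union]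
    exact Or.inl (Or.inr (Or.inl (mem_image_of_mem _ ha)))
  have hLb : ∀ a ∈ K, ϕ a ∈ L := by
    intro a ha
    rw [hL, mem_union, mem_union, hK₁, mem_union]
    exact Or.inl (Or.inr (Or.inr (mem_image_of_mem _ ha)))
  have hLaa : ∀ a ∈ K, ∀ b ∈ K, (a : G)⁻¹ * b ∈ L := by
    intro a ha b hb
    rw [hL, mem_union]
    refine Or.inr (mem_image.2 ⟨((a : G), (b : G)), mem_product.2 ⟨?_, ?_⟩, rfl⟩)
    · rw [hK₁, mem_union]
      exact Or.inl (mem_image_of_mem _ ha)
    · rw [hK₁, mem_union]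
      exact Or.inl (mem_image_of_mem _ hb)
  have hLbb : ∀ a ∈ K, ∀ b ∈ K, (ϕ a)⁻¹ * ϕ b ∈ L := by
    intro a ha b hb
    rw [hL, mem_union]
    refine Or.inr (mem_image.2 ⟨(ϕ a, ϕ b), mem_product.2 ⟨?_, ?_⟩, rfl⟩)
    · rw [hK₁, mem_union]
      exact Or.inr (mem_image_of_mem _ ha)
    · rw [hK₁, mem_union]
      exact Or.inr (mem_image_of_mem _ hb)
  set Y : Finset X := (D ×ˢ E).image (fun p => α ((p.1 : G)⁻¹) p.2) with hY
  set Z : Finset X := E ∪ Y ∪ Y.image τ with hZ
  have hZE : ∀ x ∈ E, x ∈ Z := by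
    intro x hx
    rw [hZ, mem_union, mem_union]
    exact Or.inl (Or.inl hx)
  have hZY : ∀ x ∈ Y, x ∈ Z := by
    intro x hx
    rw [hZ, mem_union, mem_union]
    exact Or.inl (Or.inr hx)
  have hZY' : ∀ x ∈ Y, τ x ∈ Z := by
    intro x hx
    rw [hZ, mem_union]
    exact Or.inr (mem_image_of_mem _ hx)
  have hDpos : (0 : ℝ) < D.card := by exact_mod_cast card_pos.2 hD
  set η : ℝ := ε / (4 * (D.card + 1)) with hη
  have hηpos : 0 < η := by positivity
  obtain ⟨V, C, iV, hV, iC, ψ, π, hψ1, hfull⟩ := exists_full α hG hα L Z η hηpos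
  haveI : Fintype C := Fintype.ofFinite C
  set W : V → Prop := fun v => Full α L Z ψ π v with hW
  have hηD : D.card * η ≤ ε / 4 := by
    rw [hη]
    rw [mul_div_assoc', div_le_div_iff₀ (by positivity) (by norm_num)]
    nlinarith
  have hηε : η ≤ ε / 4 := by
    rw [hη]
    rw [div_le_div_iff₀ (by positivity) (by norm_num)]
    nlinarith
  -- the local injectivity
  have hinja : ∀ v, W v → ∀ a ∈ K, ∀ b ∈ K, ψ (a : G) v = ψ (b : G) v → a = b := by
    intro v hv a ha b hb h
    by_contra hne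
    have h1 := hv.mul _ (hLa a ha) _ (hLaa a ha b hb)
    rw [mul_inv_cancel_left, ← h] at h1
    exact hv.free _ (hLaa a ha b hb) (fun h2 => hne (Subtype.ext (inv_mul_eq_one.1 h2)))
      ((ψ (a : G)).injective h1).symm
  have hinjb : ∀ v, W v → ∀ a ∈ K, ∀ b ∈ K, ψ (ϕ a) v = ψ (ϕ b) v → a = b := by
    intro v hv a ha b hb h
    by_contra hne
    have h1 := hv.mul _ (hLb a ha) _ (hLbb a ha b hb)
    rw [mul_inv_cancel_left, ← h] at h1
    exact hv.free _ (hLbb a ha b hb) (fun h2 => hne (hϕ (inv_mul_eq_one.1 h2)))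
      ((ψ (ϕ a)).injective h1).symm
  -- the permutations `ρ v`
  have hρ : ∀ v, ∃ e : Equiv.Perm V, W v → ∀ a ∈ K, e (ψ (a : G) v) = ψ (ϕ a) v := by
    intro v
    by_cases hv : W v
    · obtain ⟨e, he⟩ := exists_perm_of_rel
        (fun p q : V => ∃ a ∈ K, p = ψ (a : G) v ∧ q = ψ (ϕ a) v)
        (by
          rintro p q q' ⟨a, ha, h1, h2⟩ ⟨b, hb, h3, h4⟩
          have := hinja v hv a ha b hb (h1.symm.trans h3)
          rw [h2, h4, this])
        (by
          rintro p p' q ⟨a, ha, h1, h2⟩ ⟨b, hb, h3, h4⟩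
          have := hinjb v hv a ha b hb (h2.symm.trans h4)
          rw [h1, h3, this])
      exact ⟨e, fun _ a ha => he _ _ ⟨a, ha, rfl, rfl⟩⟩
    · exact ⟨1, fun h => absurd h hv⟩
  choose ρ hρ using hρ
  -- the permutations of the labels
  have hκ : ∀ v, ∃ e : Equiv.Perm C, W v → ∀ y ∈ Y, e (π v (τ y)) = π v y := by
    intro v
    by_cases hv : W v
    · obtain ⟨e, he⟩ := exists_perm_of_rel
        (fun p q : C => ∃ y ∈ Y, p = π v (τ y) ∧ q = π v y)
        (by
          rintro p q q' ⟨a, ha, h1, h2⟩ ⟨b, hb, h3, h4⟩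
          have : a = b := by
            by_contra hne
            exact hv.inj _ (hZY' a ha) _ (hZY' b hb) (fun h => hne (τ.injective h))
              (h1.symm.trans h3)
          rw [h2, h4, this])
        (by
          rintro p p' q ⟨a, ha, h1, h2⟩ ⟨b, hb, h3, h4⟩
          have : a = b := by
            by_contra hne
            exact hv.inj _ (hZY a ha) _ (hZY b hb) hne (h2.symm.trans h4)
          rw [h1, h3, this])
      exact ⟨e, fun _ a ha => he _ _ ⟨a, ha, rfl, rfl⟩⟩
    · exact ⟨1, fun h => absurd h hv⟩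
  choose κ hκ using hκ
  -- the candidates for the centre of the tile of `u`
  set cen : V → Finset V := fun u => D.image (fun d : A => (ψ (d : G))⁻¹ u) with hcen
  have hcenmem : ∀ u v, v ∈ cen u ↔ ∃ d ∈ D, u = ψ (d : G) v := by
    intro u v
    rw [hcen, mem_image]
    constructor
    · rintro ⟨d, hd, rfl⟩
      exact ⟨d, hd, by simp⟩
    · rintro ⟨d, hd, rfl⟩
      exact ⟨d, hd, by simp⟩
  set R : (V × Clk V × Equiv.Perm C) → (V × Clk V × Equiv.Perm C) → Prop := fun p q =>
    ∃ (v : V) (d : A), W v ∧ d ∈ D ∧ p.1 = ψ (d : G) v ∧ IsMn p.2.1 (cen p.1) v ∧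
      q = (ψ (ϕ d) v, (ρ v).symm.trans p.2.1, p.2.2 * κ v) with hR
  have hRf : ∀ p q q', R p q → R p q' → q = q' := by
    rintro p q q' ⟨v, d, hv, hd, h1, h2, h3⟩ ⟨v', d', hv', hd', h1', h2', h3'⟩
    have hvv : v = v' := isMn_unique h2 h2'
    subst hvv
    have hdd : d = d' := hinja v hv d (hKD d hd) d' (hKD d' hd') (h1.symm.trans h1')
    subst hdd
    rw [h3, h3']
  have hcentre : ∀ (p q : V × Clk V × Equiv.Perm C) (v : V) (d : A), W v → d ∈ D → p.1 = ψ (d : G) v → IsMn p.2.1 (cen p.1) v →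
      q = (ψ (ϕ d) v, (ρ v).symm.trans p.2.1, p.2.2 * κ v) →
      IsMn q.2.1 (D.image (fun e : A => (ψ (ϕ e))⁻¹ q.1)) v := by
    rintro ⟨u, ω, σ⟩ q v d hv hd h1 h2 rfl
    simp only at h1 h2 ⊢
    have hρv : ρ v v = v := by
      have := hρ v hv 1 h1K
      rw [OneMemClass.coe_one, map_one, hψ1, Equiv.Perm.one_apply] at this
      exact this
    constructor
    · rw [mem_image]
      exact ⟨d, hd, by simp⟩
    · intro c hc
      rw [mem_image] at hc
      obtain ⟨e, he, rfl⟩ := hc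
      have h3 : (ψ (ϕ e))⁻¹ (ψ (ϕ d) v) = ρ v (ψ ((e⁻¹ * d : A) : G) v) := by
        rw [hρ v hv _ (hKDD e he d hd), Equiv.Perm.inv_eq_iff_eq,
          ← hv.mul _ (hLb e (hKD e he)) _ (hLb _ (hKDD e he d hd)), ← map_mul, mul_inv_cancel_left]
      rw [h3]
      change ω ((ρ v).symm v) ≤ ω ((ρ v).symm (ρ v _))
      rw [Equiv.symm_apply_apply]
      have h4 : (ρ v).symm v = v := by
        rw [Equiv.symm_apply_eq, hρv]
      rw [h4]
      apply h2.2
      rw [hcenmem]
      refine ⟨e, he, ?_⟩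
      rw [h1, ← hv.mul _ (hLa e (hKD e he)) _ (hLa _ (hKDD e he d hd))]
      congr 2
      rw [← Subgroup.coe_mul, mul_inv_cancel_left]
  have hRi : ∀ p p' q, R p q → R p' q → p = p' := by
    rintro p p' q ⟨v, d, hv, hd, h1, h2, h3⟩ ⟨v', d', hv', hd', h1', h2', h3'⟩
    have hvv : v = v' := isMn_unique (hcentre p q v d hv hd h1 h2 h3)
      (hcentre p' q v' d' hv' hd' h1' h2' h3')
    subst hvv
    have h4 : (ψ (ϕ d) v, (ρ v).symm.trans p.2.1, p.2.2 * κ v) =
      (ψ (ϕ d') v, (ρ v).symm.trans p'.2.1, p'.2.2 * κ v) := h3.symm.trans h3'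
    rw [Prod.mk.injEq, Prod.mk.injEq] at h4
    obtain ⟨h5, h6, h7⟩ := h4
    have hdd : d = d' := hinjb v hv d (hKD d hd) d' (hKD d' hd') h5
    subst hdd
    refine Prod.ext (h1.trans h1'.symm) (Prod.ext ?_ (mul_right_cancel h7))
    apply Equiv.ext
    intro w
    have := congrArg (fun e : Clk V => e (ρ v w)) h6
    simpa using this
  obtain ⟨T, hT⟩ := exists_perm_of_rel R hRf hRi
  -- the good points
  set U : V → Prop := fun u => ∀ d ∈ D, W ((ψ ((d : A) : G))⁻¹ u) with hU
  have hUfrac : frac (fun u => ¬ U u) ≤ ε / 4 := by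
    refine (frac_mono (Q := fun u => ∃ d ∈ D, ¬ W ((ψ ((d : A) : G))⁻¹ u)) ?_).trans
      ((frac_exists_le _ _ η ?_).trans hηD)
    · intro u hu
      rw [hU] at hu
      push Not at hu
      exact hu
    · intro d _
      rw [frac_perm (fun v => ¬ W v) ((ψ ((d : A) : G))⁻¹)]
      exact hfull
  have hUT : ∀ (p : V × Clk V × Equiv.Perm C) v, U p.1 → IsMn p.2.1 (cen p.1) v → W v ∧ ∃ d ∈ D,
      p.1 = ψ ((d : A) : G) v ∧ T p = (ψ (ϕ d) v, (ρ v).symm.trans p.2.1, p.2.2 * κ v) := by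
    intro p v hp hv
    obtain ⟨d, hd, h1⟩ := (hcenmem p.1 v).1 hv.1
    have hWv : W v := by
      have := hp d hd
      rw [h1, perm_inv_app] at this
      exact this
    exact ⟨hWv, d, hd, h1, hT p _ ⟨v, d, hWv, hd, h1, hv, rfl⟩⟩
  have hcenne : ∀ u, (cen u).Nonempty := fun u => hD.image _
  have hcencard : ∀ u, U u → (cen u).card = D.card := by
    intro u hu
    rw [hcen]
    apply card_image_of_injOn
    intro d hd e he h
    simp only at h
    have hv := hu d hd
    have h1 : ψ ((d : A) : G) ((ψ ((d : A) : G))⁻¹ u) = u := by simp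
    have h2 : ψ ((e : A) : G) ((ψ ((d : A) : G))⁻¹ u) = u := by
      rw [h]
      simp
    exact hinja _ hv d (hKD d hd) e (hKD e he) (h1.trans h2.symm)
  refine ⟨V × Clk V × Equiv.Perm C, C, inferInstance, inferInstance, inferInstance,
    fun g => Equiv.prodCongr (ψ g) (Equiv.refl _), T, fun p x => p.2.2 (π p.1 x),
    ⟨?_, ?_, ?_, ?_⟩, ?_, ?_⟩
  · change Equiv.prodCongr (ψ 1) (Equiv.refl _) = 1
    rw [hψ1]
    rfl
  · intro g hg h hh
    refine (frac_mono (Q := fun p : V × Clk V × Equiv.Perm C => ¬ W p.1) ?_).trans ?_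
    · rintro ⟨u, q⟩ hu hWu
      apply hu
      exact Prod.ext (hWu.mul g (hLF g hg) h (hLF h hh)) rfl
    · rw [frac_fst (fun v => ¬ W v)]
      linarith
  · intro x hx y hy hxy
    refine (frac_mono (Q := fun p : V × Clk V × Equiv.Perm C => ¬ W p.1) ?_).trans ?_
    · rintro ⟨u, q⟩ hu hWu
      exact hWu.inj x (hZE x hx) y (hZE y hy) hxy (q.2.injective hu)
    · rw [frac_fst (fun v => ¬ W v)]
      linarith
  · intro g hg x hx
    refine (frac_mono (Q := fun p : V × Clk V × Equiv.Perm C => ¬ W p.1) ?_).trans ?_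
    · rintro ⟨u, q⟩ hu hWu
      apply hu
      exact congrArg q.2 (hWu.equi g (hLF g hg) x (hZE x hx))
    · rw [frac_fst (fun v => ¬ W v)]
      linarith
  · intro a ha
    have haF : a ∈ FA := (hFAmem a).2 ha
    -- the centres of `u` and `ψ a u` agree mostly
    have hmn : ∀ u, U u → U (ψ (a : G) u) →
        frac (fun ω : Clk V => mn ω (cen u) ≠ mn ω (cen (ψ (a : G) u))) ≤ 2 * (ε / 4) := by
      intro u hu hau
      have hsd : ((cen u) \ (cen (ψ (a : G) u))).card ≤
          (D.filter (fun d => a * d ∉ D)).card := by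
        refine (card_le_card (t := (D.filter (fun d => a * d ∉ D)).image
          (fun d : A => (ψ (d : G))⁻¹ u)) ?_).trans card_image_le
        intro v hv
        rw [mem_sdiff, hcenmem, hcenmem] at hv
        obtain ⟨⟨d, hd, h1⟩, h2⟩ := hv
        rw [mem_image]
        refine ⟨d, mem_filter.2 ⟨hd, ?_⟩, by rw [h1, perm_inv_app]⟩
        intro had
        apply h2
        refine ⟨a * d, had, ?_⟩
        have hWv : W v := by
          have := hu d hd
          rw [h1, perm_inv_app] at this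
          exact this
        rw [h1, Subgroup.coe_mul, hWv.mul _ (hLa a (hKF a haF)) _ (hLa d (hKD d hd))]
      have hncard : ((D.filter (fun d => a * d ∉ D)).card : ℝ) ≤ ε / 4 * D.card := by
        refine le_trans (le_of_eq ?_) (hDinv a haF)
        rw [← Set.ncard_coe_finset]
        congr 1
        congr 1
        ext d
        simp
      have hsd' : ((cen (ψ (a : G) u)) \ (cen u)).card = ((cen u) \ (cen (ψ (a : G) u))).card := by
        have h1 := card_sdiff_add_card_inter (cen (ψ (a : G) u)) (cen u)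
        have h2 := card_sdiff_add_card_inter (cen u) (cen (ψ (a : G) u))
        rw [hcencard _ hau] at h1
        rw [hcencard _ hu] at h2
        rw [inter_comm] at h1
        omega
      apply frac_mn _ _ (ε / 4) (hcenne u) (by linarith)
      · rw [hcencard _ hu]
        refine le_trans ?_ hncard
        exact_mod_cast hsd
      · rw [hcencard _ hu, hsd']
        refine le_trans ?_ hncard
        exact_mod_cast hsd
    have hbad1 : frac (fun u => ¬ U u ∨ ¬ U (ψ (a : G) u)) ≤ ε / 4 + ε / 4 := by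
      refine (frac_or _ _).trans (add_le_add hUfrac ?_)
      rw [frac_perm (fun v => ¬ U v) (ψ (a : G))]
      exact hUfrac
    refine (frac_mono (Q := fun p : V × Clk V × Equiv.Perm C =>
      (¬ U p.1 ∨ ¬ U (ψ (a : G) p.1)) ∨ mn p.2.1 (cen p.1) ≠ mn p.2.1 (cen (ψ (a : G) p.1)))
      ?_).trans ?_
    · rintro ⟨u, ω, σ⟩ hne
      by_contra hcon
      push Not at hcon
      obtain ⟨⟨hu, hau⟩, hmneq⟩ := hcon
      simp only at hu hau hmneq
      apply hne
      obtain ⟨v, hv⟩ := exists_isMn ω (cen u) (hcenne u)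
      obtain ⟨v', hv'⟩ := exists_isMn ω (cen (ψ (a : G) u)) (hcenne _)
      have hvv : v = v' := by
        rw [mn_eq hv, mn_eq hv'] at hmneq
        exact Option.some.inj hmneq
      subst hvv
      obtain ⟨hWv, d, hd, h1, h2⟩ := hUT (u, ω, σ) v hu hv
      obtain ⟨-, d', hd', h1', h2'⟩ := hUT (ψ (a : G) u, ω, σ) v hau hv'
      simp only at h1 h2 h1' h2'
      have hdd : d' = a * d := by
        apply hinja v hWv d' (hKD d' hd') (a * d) (hKFD a haF d hd)
        rw [← h1', h1, Subgroup.coe_mul, hWv.mul _ (hLa a (hKF a haF)) _ (hLa d (hKD d hd))]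
      change T (ψ (a : G) u, ω, σ) = (Equiv.prodCongr (ψ (ϕ a)) (Equiv.refl _)) (T (u, ω, σ))
      rw [h2', h2, hdd]
      refine Prod.ext ?_ rfl
      change ψ (ϕ (a * d)) v = ψ (ϕ a) (ψ (ϕ d) v)
      rw [map_mul, hWv.mul _ (hLb a (hKF a haF)) _ (hLb d (hKD d hd))]
    · have h1 : frac (fun p : V × Clk V × Equiv.Perm C =>
          (¬ U p.1 ∨ ¬ U (ψ (a : G) p.1)) ∨
            mn p.2.1 (cen p.1) ≠ mn p.2.1 (cen (ψ (a : G) p.1))) ≤
          (ε / 4 + ε / 4) + 2 * (ε / 4) := by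
        refine frac_pair _ (fun u => ¬ U u ∨ ¬ U (ψ (a : G) u)) _ _ hbad1 ?_ (by linarith)
        intro u hu
        push Not at hu
        refine (frac_mono (Q := fun q : Clk V × Equiv.Perm C =>
          mn q.1 (cen u) ≠ mn q.1 (cen (ψ (a : G) u))) ?_).trans ?_
        · rintro q hq
          rcases hq with hq | hq
          · exact absurd hq (by push Not; exact hu)
          · exact hq
        · rw [frac_fst (fun ω : Clk V => mn ω (cen u) ≠ mn ω (cen (ψ (a : G) u)))]
          exact hmn u hu.1 hu.2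
      linarith
  · intro x hx
    refine (frac_mono (Q := fun p : V × Clk V × Equiv.Perm C => ¬ U p.1) ?_).trans ?_
    · rintro ⟨u, ω, σ⟩ hne hu
      apply hne
      obtain ⟨v, hv⟩ := exists_isMn ω (cen u) (hcenne u)
      obtain ⟨hWv, d, hd, h1, h2⟩ := hUT (u, ω, σ) v hu hv
      simp only at h1 h2
      have hyY : α ((d : G)⁻¹) x ∈ Y := by
        rw [hY]
        exact mem_image.2 ⟨(d, x), mem_product.2 ⟨hd, hx⟩, rfl⟩
      set y := α ((d : G)⁻¹) x with hy
      have hxy : x = α (d : G) y := by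
        rw [hy, ← Equiv.Perm.mul_apply, ← map_mul, mul_inv_cancel, map_one, Equiv.Perm.one_apply]
      rw [h2]
      change σ (κ v (π (ψ (ϕ d) v) (τ x))) = σ (π u x)
      rw [h1, hxy, hτ, hWv.equi _ (hLb d (hKD d hd)) _ (hZY' y hyY),
        hWv.equi _ (hLa d (hKD d hd)) _ (hZY y hyY), hκ v hWv y hyY]
    · rw [frac_fst (fun v => ¬ U v)]
      linarith

end SoficAct
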